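import Pool.Agent.MP_6eaae3_al.LT.Ch

-- ======== part 0: formerly Pool.Agent.MP_6eaae3_al.LT.Path
section MrgPart0

/-! Paths through a cell under the action of a parabolic subgroup. -/

namespace Pool.Agent.MP_6eaae3_al.LT

open FreeGroup (of mk invRev IsReduced)
open Set

namespace Path

section Words

variable {L : Type}

theorem wd_mem {S : Set L} {w : FreeGroup L} : w ∈ Fre S ↔ ∀ a ∈ wd w, a.1 ∈ S :=
  @mem_Fre_word L (fun _ _ => Classical.propDecidable _) S w

theorem wd_red (w : FreeGroup L) : IsReduced (wd w) :=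
  @FreeGroup.isReduced_toWord L (fun _ _ => Classical.propDecidable _) w

theorem mk_wd (w : FreeGroup L) : mk (wd w) = w :=
  @FreeGroup.mk_toWord L (fun _ _ => Classical.propDecidable _) w

theorem red_wd (l : List (L × Bool)) : FreeGroup.Red l (wd (mk l)) :=
  @FreeGroup.reduce.red L l (fun _ _ => Classical.propDecidable _)

theorem wd_inv (w : FreeGroup L) : wd w⁻¹ = invRev (wd w) :=
  @FreeGroup.toWord_inv L (fun _ _ => Classical.propDecidable _) w

theorem wd_one : wd (1 : FreeGroup L) = [] := rfl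

theorem wd_mk {l : List (L × Bool)} (h : IsReduced l) : wd (mk l) = l :=
  h.red_iff_eq.1 (red_wd l)

theorem red_inf {k l : List (L × Bool)} (h : IsReduced l) (i : k <:+: l) : IsReduced k := by
  obtain ⟨s, t, rfl⟩ := i
  exact (List.isChain_append.1 (List.isChain_append.1 h).1).2.1

theorem inf_inv {k l : List (L × Bool)} (h : k <:+: l) : invRev k <:+: invRev l := by
  obtain ⟨s, t, rfl⟩ := h
  exact ⟨invRev t, invRev s, by simp only [FreeGroup.invRev_append, List.append_assoc]⟩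

theorem mk_ends (a b : L) (w : FreeGroup L) :
    mk ((a, false) :: wd w ++ [(b, true)]) = (of a)⁻¹ * w * of b := by
  rw [← FreeGroup.mul_mk, ← List.singleton_append, ← FreeGroup.mul_mk, mk_wd]
  rfl

end Words

variable {M V : Type}

/-- Concatenations of pairs of letters at one square. -/
inductive Prs : List (Lt M × Bool) → Prop
  | nil : Prs []
  | cons {a b : Lt M} {l} : a.1.1 = b.1.1 → Prs l → Prs ((a, false) :: (b, true) :: l)

theorem Prs.append {l l' : List (Lt M × Bool)} (h : Prs l) (h' : Prs l') : Prs (l ++ l') := by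
  induction h with
  | nil => exact h'
  | cons e _ ih => exact Prs.cons e ih

theorem Prs.inv {a b : Lt M × Bool} {l} (h : Prs (a :: b :: l)) :
    a.2 = false ∧ b.2 = true ∧ a.1.1.1 = b.1.1.1 ∧ Prs l := by
  cases h with
  | cons e h => exact ⟨rfl, rfl, e, h⟩

theorem Prs.one {a : Lt M × Bool} (h : Prs [a]) : False := by cases h

theorem Prs.mk' {a b : Lt M × Bool} {l} (h1 : a.2 = false) (h2 : b.2 = true)
    (e : a.1.1.1 = b.1.1.1) (h : Prs l) : Prs (a :: b :: l) := by
  obtain ⟨a, _⟩ := a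
  obtain ⟨b, _⟩ := b
  cases h1
  cases h2
  exact Prs.cons e h

theorem Prs.del : ∀ (l l' : List (Lt M × Bool)) (x y : Lt M × Bool), x.1 = y.1 →
    Prs (l ++ x :: y :: l') → Prs (l ++ l')
  | [], _, _, _, _, h => h.inv.2.2.2
  | [_], [], _, _, _, h => h.inv.2.2.2.one.elim
  | [_], _ :: _, _, _, e, h => by
    have h1 := h.inv
    have h2 := h1.2.2.2.inv
    exact Prs.mk' h1.1 h2.2.1 (h1.2.2.1.trans (e ▸ h2.2.2.1)) h2.2.2.2
  | _ :: _ :: l, l', x, y, e, h => by
    have h1 := h.inv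
    exact Prs.mk' h1.1 h1.2.1 h1.2.2.1 (Prs.del l l' x y e h1.2.2.2)

theorem Prs.red {l l' : List (Lt M × Bool)} (r : FreeGroup.Red l l') (h : Prs l) : Prs l' := by
  induction r with
  | refl => exact h
  | tail _ s ih =>
    cases s with
    | not => exact Prs.del _ _ _ _ (by rfl) ih

theorem Prs.last : ∀ (r : List (Lt M × Bool)) (c : Lt M × Bool), Prs (r ++ [c]) →
    ∃ r' q, r = r' ++ [(q, false)] ∧ Prs r' ∧ q.1.1 = c.1.1.1
  | [], _, h => h.one.elim
  | [(q, _)], _, h => by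
    have h1 := h.inv
    cases h1.1
    exact ⟨[], q, rfl, Prs.nil, h1.2.2.1⟩
  | a :: b :: r, c, h => by
    have h1 := h.inv
    obtain ⟨r', q, rfl, u, v⟩ := Prs.last r c h1.2.2.2
    exact ⟨a :: b :: r', q, rfl, Prs.mk' h1.1 h1.2.1 h1.2.2.1 u, v⟩

theorem Prs.pair {r : List (Lt M × Bool)} (h : Prs r) {z} (hz : z ∈ r) :
    ∃ a b : Lt M, a.1.1 = z.1.1.1 ∧ b.1.1 = z.1.1.1 ∧ [(a, false), (b, true)] <:+: r := by
  induction h with
  | nil => cases hz
  | @cons a b l e _ ih =>
    rcases List.mem_cons.1 hz with rfl | hz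
    · exact ⟨a, b, rfl, e.symm, [], l, rfl⟩
    rcases List.mem_cons.1 hz with rfl | hz
    · exact ⟨a, b, e, rfl, [], l, rfl⟩
    obtain ⟨c, d, u, v, s, t, rfl⟩ := ih hz
    exact ⟨c, d, u, v, (a, false) :: (b, true) :: s, t, rfl⟩

/-- Paths that enter and leave squares alternately. -/
def JJ (M : Type) : Subgroup (FG M) :=
  Subgroup.closure {w | ∃ a b : Lt M, a.1.1 = b.1.1 ∧ w = (of a)⁻¹ * of b}

theorem gen_J {a b : Lt M} (e : a.1.1 = b.1.1) : (of a)⁻¹ * of b ∈ JJ M :=
  Subgroup.subset_closure ⟨a, b, e, rfl⟩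

theorem prs_wd {w : FG M} (h : w ∈ JJ M) : Prs (wd w) := by
  have g : ∀ a b : Lt M, a.1.1 = b.1.1 → ∃ l, Prs l ∧ mk l = (of a)⁻¹ * of b :=
    fun a b e => ⟨_, Prs.cons e Prs.nil, rfl⟩
  obtain ⟨l, u, rfl⟩ : ∃ l, Prs l ∧ mk l = w := by
    induction h using Subgroup.closure_induction'' with
    | mem x hx => obtain ⟨a, b, e, rfl⟩ := hx; exact g a b e
    | inv_mem x hx =>
      obtain ⟨a, b, e, rfl⟩ := hx
      rw [mul_inv_rev, inv_inv]
      exact g b a e.symm
    | one => exact ⟨[], Prs.nil, rfl⟩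
    | mul x y _ _ a b =>
      obtain ⟨l, u, rfl⟩ := a
      obtain ⟨l', u', rfl⟩ := b
      exact ⟨l ++ l', u.append u', FreeGroup.mul_mk.symm⟩
  exact u.red (red_wd l)

theorem map_J (φ : FG M →* FG M)
    (h : ∀ z, ∃ z' : Lt M, z'.1.1 = z.1.1 ∧ (of z')⁻¹ * φ (of z) ∈ JJ M) {w} (hw : w ∈ JJ M) :
    φ w ∈ JJ M := by
  refine (Subgroup.closure_le ((JJ M).comap φ)).2 ?_ hw
  rintro _ ⟨a, b, e, rfl⟩
  obtain ⟨a', u, u'⟩ := h a
  obtain ⟨b', v, v'⟩ := h b
  have := mul_mem (mul_mem (inv_mem u') (gen_J (u.trans (e.trans v.symm)))) v'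
  simpa [mul_assoc] using this

variable {m : V → V → ℕ} {n : ℕ} {Y : Sys m n M}

theorem par_J {X : Set V} {g w} (hg : g ∈ Par m X) (hw : w ∈ JJ M) : Y.ψ g w ∈ JJ M := by
  refine par_ind (P := fun g => ∀ w ∈ JJ M, Y.ψ g w ∈ JJ M) (fun w h => by rwa [Sys.ψ_one])
    (fun g _ a _ ih => ?_) hg w hw
  have : ∀ z, (∃ z' : Lt M, z'.1.1 = z.1.1 ∧
      (of z')⁻¹ * Y.ψ (PresentedGroup.of a) (of z) ∈ JJ M) ∧
      ∃ z' : Lt M, z'.1.1 = z.1.1 ∧ (of z')⁻¹ * Y.ψ (PresentedGroup.of a)⁻¹ (of z) ∈ JJ M := by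
    intro z
    rcases Sys.gen_cases (Y := Y) a z with e | ⟨o, ⟨p, -, -, c⟩, rfl, e⟩
    · rw [e.1, e.2]
      exact ⟨⟨z, rfl, gen_J rfl⟩, z, rfl, gen_J rfl⟩
    · obtain ⟨l, l', e'⟩ := List.append_of_mem c
      have j : pp l' * pp l ∈ JJ M :=
        mul_mem (pp_mem fun x _ => gen_J rfl) (pp_mem fun x _ => gen_J rfl)
      rw [e.1, e.2, Y.el p l o l' e']
      refine ⟨⟨(o, true), rfl, ?_⟩, (o, false), rfl, ?_⟩
      · have := mul_mem j (gen_J (a := (o, false)) (b := rx o) rfl)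
        simpa [oo, ii, mul_assoc] using this
      · have := mul_mem (inv_mem j) (gen_J (a := (o, true)) (b := rx o) rfl)
        simpa [oo, ii, mul_assoc] using this
  exact ⟨fun w h => by rw [Sys.ψ_mul]; exact ih _ (map_J _ (fun z => (this z).1) h),
    fun w h => by rw [Sys.ψ_mul]; exact ih _ (map_J _ (fun z => (this z).2) h)⟩

theorem fgY (h : S_FG) {X : Set V} {g} (hg : g ∈ Par m X) {w a b} (ha : a ∉ Y.C X)
    (hb : b ∉ Y.C X) (hw : Has w [(a, false), (b, true)]) :
    Has (Y.ψ g w) ((a, false) :: wd ((Y.lam g a)⁻¹ * Y.lam g b) ++ [(b, true)]) :=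
  h _ (Y.C X) (Y.ψ g) (Y.inj g) (fun _ hz => Sys.par_map Subset.rfl hg (of_mem_Fre hz))
    (fun z _ => Sys.lam_mem hg z) w a b ha hb hw

theorem lam_one {X : Set V} {g z} (hg : g ∈ Par m X) (h : ∀ o, Y.On X o → rx o ≠ z) :
    Y.lam g z = 1 := by rw [Sys.lam, Sys.par_fix hg h, mul_inv_cancel]

theorem cell_eq {x y : M × Bool} (e : x.1 = y.1) (h : x ≠ opp y) : x = y := by
  obtain ⟨a, _ | _⟩ := x <;> obtain ⟨b, _ | _⟩ := y <;> simp_all [opp]

/-- Exponent sum of one letter. -/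
noncomputable def xs (z : Lt M) : FG M →* Multiplicative ℤ := by
  classical exact FreeGroup.lift fun a => if a = z then Multiplicative.ofAdd 1 else 1

theorem xs_self (z : Lt M) : xs z (of z) = Multiplicative.ofAdd 1 := by simp [xs]

theorem xs_ne {z a : Lt M} (h : a ≠ z) : xs z (of a) = 1 := by simp [xs, h]

theorem xs_pp (x : M × Bool) (l : List (M × Bool)) :
    0 ≤ (xs (x, true) (pp l)).toAdd ∧ (x ∈ l → 0 < (xs (x, true) (pp l)).toAdd) := by
  induction l with
  | nil => simp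
  | cons y l ih =>
    rw [pp_cons, (xs _).map_mul, (xs _).map_mul, (xs _).map_inv, ii, oo, xs_ne (by simp), inv_one,
      one_mul, toAdd_mul]
    by_cases e : y = x
    · rw [e, xs_self, toAdd_ofAdd]
      exact ⟨by linarith [ih.1], fun _ => by linarith [ih.1]⟩
    · rw [xs_ne (by simpa using e), toAdd_one, zero_add]
      exact ⟨ih.1, fun h => ih.2 ((List.mem_cons.1 h).resolve_left fun h => e h.symm)⟩

theorem lam_pow {p o} (a : p.2 < n) (h : o ∈ Y.cl p) (k : ℤ) :
    Y.ψ (PresentedGroup.of p.1 ^ k) (of (rx o)) = Y.ell o ^ k * of (rx o) := by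
  induction k using Int.induction_on with
  | zero => rw [zpow_zero, zpow_zero, one_mul, Sys.ψ_one]
  | succ i ih =>
    rw [add_comm, zpow_one_add, Sys.ψ_mul, ih, map_mul, map_zpow, Sys.fix_ell h, Y.mv p o a h,
      add_comm, zpow_add_one, mul_assoc]
  | pred i ih =>
    have f : Y.ψ (PresentedGroup.of p.1)⁻¹ (Y.ell o) = Y.ell o := by
      rw [← Sys.fix_ell h, Sys.ψ_inv, Sys.fix_ell h]
    rw [zpow_sub_one (Y.ell o), sub_eq_neg_add, zpow_add, zpow_neg_one, Sys.ψ_mul, ih, map_mul,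
      map_zpow, f, Sys.mv_inv a h, mul_assoc]

end Path

open LT.Path

theorem g1 (h : S_FG) : S_G1 := by
  rintro V M m n Y X g S x hg h1 h2 ⟨w, hw, t⟩
  have f : ∀ b, Y.lam g (x, b) = 1 := fun b => lam_one hg fun o u e =>
    h2 (by rwa [← show opp o = x from congrArg Prod.fst e, opp_opp])
  have k : ∀ b c, Has w [((x, b), false), ((x, c), true)] →
      Has (Y.ψ g w) [((x, b), false), ((x, c), true)] := fun b c t => by
    have := fgY (Y := Y) h hg (a := (x, b)) (b := (x, c)) h1 h1 t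
    rwa [f, f, inv_one, one_mul, wd_one] at this
  exact ⟨_, ⟨w, hw, rfl⟩, t.imp (k _ _) (k _ _)⟩

theorem tr (h : S_FG) : S_TR := by
  rintro V M m n Y X g S x y hg - hy ⟨w, hw, t⟩ hx nt
  have f : Y.lam g (opp y, !y.2) = 1 := lam_one hg fun o _ e => by
    have e1 : o = y := by rw [← opp_opp o, show opp o = opp y from congrArg Prod.fst e, opp_opp]
    have e2 : o.2 = !y.2 := congrArg Prod.snd e
    rw [e1] at e2
    simp at e2
  have t' : Has w [((opp y, !y.2), false), (rx y, true)] ∨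
      Has w [(rx y, false), ((opp y, !y.2), true)] := by
    obtain ⟨μ, _ | _⟩ := y
    exacts [t.symm, t]
  generalize hL : Y.lam g (rx y) = L
  have hC : ∀ a ∈ wd L, Y.On X a.1.1 := wd_mem.1 (hL ▸ Sys.lam_mem hg _)
  have key : IsReduced (((opp y, !y.2), false) :: wd L ++ [(rx y, true)]) ∧
      ∀ b c, b ≠ c → ¬ [((x, b), false), ((x, c), true)] <:+: wd L := by
    have i : ∀ (a b : Lt M × Bool) (l : List (Lt M × Bool)), l <:+: a :: l ++ [b] :=
      fun a b l => ⟨[a], [b], rfl⟩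
    have nt' : ∀ b c, b ≠ c → ¬ Has (Y.ψ g w) [((x, b), false), ((x, c), true)] := by
      rintro (_ | _) (_ | _) e u
      exacts [e rfl, nt ⟨_, ⟨w, hw, rfl⟩, Or.inl u⟩, nt ⟨_, ⟨w, hw, rfl⟩, Or.inr u⟩, e rfl]
    rcases t' with t' | t'
    · have := fgY (Y := Y) h hg (a := (opp y, !y.2)) (b := rx y) hy hy t'
      rw [f, hL, inv_one, one_mul] at this
      exact ⟨red_inf (wd_red _) this,
        fun b c e u => nt' b c e ((u.trans (i _ _ _)).trans this)⟩
    · have := fgY (Y := Y) h hg (a := rx y) (b := (opp y, !y.2)) hy hy t'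
      rw [f, hL, mul_one, wd_inv] at this
      refine ⟨?_, fun b c e u => nt' c b e.symm (((inf_inv u).trans (i _ _ _)).trans this)⟩
      have h2 := inf_inv this
      rw [FreeGroup.invRev_append, FreeGroup.invRev_cons (L := invRev _),
        FreeGroup.invRev_invRev, ← wd_inv] at h2
      exact red_inf (wd_red _) h2
  have hJ : Prs (((opp y, !y.2), false) :: wd L ++ [(rx y, true)]) := by
    have h1 := par_J (Y := Y) hg (gen_J (a := (opp y, !y.2)) (b := rx y) rfl)
    rw [Sys.lam, mul_inv_eq_one] at f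
    rw [Sys.lam, mul_inv_eq_iff_eq_mul] at hL
    rw [map_mul, map_inv, f, hL, ← mul_assoc, ← mk_ends] at h1
    exact wd_mk key.1 ▸ prs_wd h1
  rcases e : wd L with _ | ⟨⟨p, e₁⟩, r⟩
  · have : L = 1 := by rw [← mk_wd L, e]; rfl
    rw [this]
    exact ⟨fun _ => one_mem _, 1, one_mem _, Or.inl rfl⟩
  rw [e] at hJ hC key
  obtain ⟨-, e1, hp, hr⟩ := hJ.inv
  cases e1
  obtain ⟨r, q, rfl, hr, hq⟩ := Prs.last _ _ hr
  have hK : mk r ∈ Fre {(x, true)}ᶜ := mk_mem_Fre fun z hz e' => by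
    obtain ⟨a, b, u, v, i⟩ := hr.pair hz
    have i' : [(a, false), (b, true)] <:+: (p, true) :: (r ++ [(q, false)]) :=
      i.trans ⟨[(p, true)], [(q, false)], rfl⟩
    rw [show z.1 = (x, true) from e'] at u v
    have ha : a.1 = x := cell_eq u fun e => hx (e ▸ hC (a, false) (i'.subset (by simp)))
    have hb : b.1 = x := cell_eq v fun e => hx (e ▸ hC (b, true) (i'.subset (by simp)))
    obtain ⟨_, a⟩ := a
    obtain ⟨_, b⟩ := b
    cases ha
    cases hb
    refine key.2 a b (fun e₂ => ?_) i'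
    have := red_inf (e ▸ wd_red L : IsReduced ((p, true) :: (r ++ [(q, false)]))) i'
    simp [e₂] at this
  have hLe : L = of p * mk r * (of q)⁻¹ := by
    rw [← mk_wd L, e, ← List.singleton_append, ← FreeGroup.mul_mk, ← FreeGroup.mul_mk, mul_assoc]
    rfl
  have o : ∀ z : Lt M, z ≠ (x, true) → of z ∈ Fre {(x, true)}ᶜ := fun z hz => of_mem_Fre hz
  rw [hLe]
  refine ⟨fun ne => ?_, ?_⟩
  · have d : ∀ z : Lt M, z.1.1 = y.1 → Y.On X z.1 → z ≠ (x, true) := by
      rintro _ u v rfl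
      exact ne (cell_eq u fun e => hy (e ▸ v))
    exact mul_mem (mul_mem (o p (d p hp.symm (hC (p, true) (by simp)))) hK)
      (inv_mem (o q (d q hq (hC (q, false) (by simp)))))
  by_cases u : p = (x, true) <;> by_cases v : q = (x, true)
  · exact ⟨_, hK, Or.inr (Or.inr (Or.inr (by rw [u, v]; rfl)))⟩
  · exact ⟨_, mul_mem hK (inv_mem (o q v)), Or.inr (Or.inl (by rw [u, mul_assoc]; rfl))⟩
  · exact ⟨_, mul_mem (o p u) hK, Or.inr (Or.inr (Or.inl (by rw [v]; rfl)))⟩
  · exact ⟨_, mul_mem (mul_mem (o p u) hK) (inv_mem (o q v)), Or.inl rfl⟩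

theorem g2 (h : S_TR) : S_G2 := by
  intro V M m n Y p k S x y hp hx hy ne hk t
  by_contra nt
  have hg : (PresentedGroup.of p.1 : Art m) ^ k ∈ Par m {p.1} :=
    zpow_mem (Subgroup.subset_closure (mem_image_of_mem _ (mem_singleton _))) k
  have h1 := (h V M m n Y {p.1} _ S x y hg ⟨p, rfl, hp, hy⟩ (Sys.not_on_opp hy) t
    (Sys.not_on_opp hx) nt).1 ne
  rw [Sys.lam, lam_pow hp hy, mul_inv_cancel_right] at h1
  have h2 : xs (x, true) (Y.ell y ^ k) ∈ (⊥ : Subgroup (Multiplicative ℤ)) :=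
    Fre.map_mem (K := ⊥) _ (fun z hz => by rw [xs_ne hz]; exact one_mem _) h1
  obtain ⟨l, l', e⟩ := List.append_of_mem hy
  have h3 := congrArg Multiplicative.toAdd (Subgroup.mem_bot.1 h2)
  rw [(xs _).map_zpow, toAdd_zpow, toAdd_one, Y.el p l y l' e, (xs _).map_mul, (xs _).map_mul,
    (xs _).map_mul, (xs _).map_inv, oo, ii, xs_ne (by simpa using ne.symm), xs_ne (z := (x, true)) (a := (y, false)) (by simp), inv_one,
    one_mul, mul_one, toAdd_mul, smul_eq_mul] at h3
  have a := xs_pp x l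
  have b := xs_pp x l'
  have h4 := (mul_eq_zero.1 h3).resolve_left hk
  rw [e, List.mem_append, List.mem_cons] at hx
  rcases hx with hx | hx | hx
  · linarith [a.2 hx, b.1]
  · exact ne hx
  · linarith [b.2 hx, a.1]

end Pool.Agent.MP_6eaae3_al.LT

end MrgPart0

-- ======== part 1: formerly Pool.Agent.MP_6eaae3_al.LT.Hk
section MrgPart1

/-! Small entries in the Hecke representation of a dihedral Artin group. -/

namespace Pool.Agent.MP_6eaae3_al.LT

namespace Hk

variable {M : ℕ} {s : ℕ → ℝ}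

theorem lt_two (h : Cheb M s) : s 2 < 2 := by
  by_contra q
  have : ∀ j, 0 ≤ s j ∧ s j + 1 ≤ s (j + 1) := fun j => by
    induction j with
    | zero => simp [h.z, h.o]
    | succ j ih => exact ⟨by linarith [ih.1, ih.2], by rw [h.rc j]; nlinarith [ih.1, ih.2]⟩
  have a := this M
  rw [h.e] at a
  linarith [a.1, a.2]

theorem conc (h : Cheb M s) {j : ℕ} (a : j < M) : s (j + 2) - s (j + 1) < s (j + 1) - s j := by
  have := h.ge a
  have := lt_two h
  rw [h.rc j]
  nlinarith

theorem up (h : Cheb M s) (j : ℕ) : j + 2 < M → s (j + 2) < s (j + 3) → s 2 < s (j + 3) := by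
  induction j with
  | zero => exact fun _ b => b
  | succ j ih =>
    intro a b
    have c := conc h (show j + 2 < M by omega)
    have := ih (by omega) (by linarith)
    linarith

theorem down (h : Cheb M s) (j l : ℕ) : j + l + 1 < M + 1 → s (j + 1) ≤ s j →
    s (j + l + 2) < s (j + l + 1) ∧ s (j + l + 2) < s (j + 1) := by
  induction l with
  | zero =>
    intro a b
    have c := conc h (show j < M by omega)
    exact ⟨by simp only [add_zero]; linarith, by simp only [add_zero]; linarith⟩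
  | succ l ih =>
    intro a b
    have c := conc h (show j + l + 1 < M by omega)
    have := ih (by omega) b
    rw [← add_assoc]
    exact ⟨by linarith [this.1], by linarith [this.1, this.2]⟩

theorem cls (h : Cheb M s) (hM : 2 ≤ M) {l : ℕ} (a : 1 ≤ l) (b : l ≤ M) (e : s l = s 2) :
    l = 2 ∨ l + 1 = M := by
  by_contra q
  have g : 3 ≤ M → 1 < s 2 := fun u => h.gt 2 (by omega) (by omega)
  by_cases r : l = 1
  · rw [r, h.o] at e
    exact (g (by omega)).ne e
  by_cases r' : l = M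
  · rw [r', h.l] at e
    exact (g (by omega)).ne e
  obtain ⟨j, rfl⟩ : ∃ j, l = j + 3 := ⟨l - 3, by omega⟩
  obtain ⟨c, rfl⟩ : ∃ c, M = j + 2 + c + 2 + 1 := ⟨M - j - 5, by omega⟩
  rcases lt_or_ge (s (j + 2)) (s (j + 3)) with u | u
  · exact (up h j (by omega) u).ne' e
  · have v := (down h (j + 2) c (by omega) u).2
    have t := h.rc (j + 2 + c + 2)
    rw [h.e, h.l] at t
    linarith

end Hk

open Hk in
theorem hk : S_HK := by
  intro G _ w x Δ M s hs hM rel f0 f1 K hw hx mw mx i0 i1 g hg hf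
  have ha : ∀ i j, aa w x i j ∈ K := fun i j => alG_mem _ (yy_mem hw hx _) (yy_mem hw hx _)
  have hΔ : Δ ∈ K := rel 0 ▸ ha 0 _
  have m2 := lt_two hs
  have m1 : 1 ≤ s 2 := hs.ge (show 1 < M by omega)
  let F : G → ℤ → ℝ := fun g i =>
    if i % 4 = 0 then f0 g else if i % 4 = 1 then f1 g else if i % 4 = 2 then -f0 g else -f1 g
  have an : ∀ g i, F g (i + 1 + 1) = -F g i := fun g i => by
    simp only [F]; split_ifs <;> first | omega | simp
  have mv : ∀ g ∈ K, ∀ i, F (g * yy w x i) i = F g i ∧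
      F (g * yy w x i) (i + 1) = F g (i + 1) + s 2 * F g i := fun g hg i => by
    simp only [F, yy]
    split_ifs <;> first | omega | (simp only [mw g hg, mx g hg, true_and]; try ring)
  have Fa : ∀ g ∈ K, ∀ i, ∀ j : ℕ,
      F (g * aa w x i (j + 1)) (i + j) = s (j + 1) * F g i + s j * F g (i + 1) ∧
      F (g * aa w x i (j + 1)) (i + j + 1) = s (j + 2) * F g i + s (j + 1) * F g (i + 1) := by
    intro g hg i j
    induction j with
    | zero => simp [aa, alG, mv g hg, hs.z, hs.o, add_comm]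
    | succ j ih =>
      have := mv _ (mul_mem hg (ha i (j + 1))) (i + (j + 1 : ℕ))
      rw [aa_succ', ← mul_assoc, this.1, this.2, Nat.cast_succ, ← add_assoc, an, ih.1, ih.2,
        hs.rc (j + 1), hs.rc j]
      exact ⟨rfl, by ring⟩
  have Fd : ∀ g ∈ K, ∀ i, F (g * Δ) (i + (M - 1)) = F g i := fun g hg i => by
    have := (Fa g hg (i - 1) M).1
    rw [rel, hs.e, hs.l, show i - 1 + M = i + (M - 1) by ring] at this
    simpa using this
  have Fk : ∀ g ∈ K, ∀ k i : ℤ, F (g * Δ ^ k) (i + k * (M - 1)) = F g i := fun g hg k i => by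
    induction k using Int.induction_on with
    | zero => simp
    | succ k ih =>
      rw [zpow_add_one, add_mul, one_mul, ← add_assoc, ← mul_assoc, Fd _ (mul_mem hg (zpow_mem hΔ _)), ih]
    | pred k ih =>
      rw [← ih, ← Fd _ (mul_mem hg (zpow_mem hΔ _)), zpow_sub_one]
      congr 1
      exacts [by group, by ring]
  have Fx : ∀ a : ℤ, f0 (x ^ a) = 1 ∧ f1 (x ^ a) = 0 := fun a => by
    induction a using Int.induction_on with
    | zero => simp [i0, i1]
    | succ k ih => rw [zpow_add_one, (mx _ (zpow_mem hx _)).1, (mx _ (zpow_mem hx _)).2, ih.1, ih.2]; simp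
    | pred k ih =>
      have := mx _ (zpow_mem hx (-k - 1))
      rw [← zpow_add_one, sub_add_cancel, ih.1, ih.2] at this
      simpa [← this.1, eq_comm] using this.2
  let Y : G → ℤ → Prop := fun h i => ∃ a k e b : ℤ, (i + 1 + k * (M - 1)) % 2 = 0 ∧ Tri e ∧
    h = x ^ a * Δ ^ k * yy w x (i + 1) ^ e * yy w x i ^ b
  have Yd : ∀ h i k, Y h i → Y (h * Δ ^ k) (i + k * (M - 1)) := by
    rintro _ i k ⟨a, l, e, b, u, v, rfl⟩
    refine ⟨a, l + k, e, b, by rw [add_mul]; omega, v, ?_⟩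
    rw [mul_assoc, ← (SemiconjBy.zpow_right (del_yy rel k i) b).eq, ← mul_assoc, mul_assoc _ _ (Δ ^ k),
      ← (SemiconjBy.zpow_right (del_yy rel k (i + 1)) e).eq, add_right_comm i 1, zpow_add]
    group
  have sp : ∀ i, aa w x i M = (yy w x (i + 1))⁻¹ * Δ ^ (1 : ℤ) := fun i => by
    rw [zpow_one, eq_inv_mul_iff_mul_eq, ← rel (i + 1), aa_succ, aa, aa,
      yy_congr w x (i := i + 1 + 1) (j := i) (by omega),
      yy_congr w x (i := i + 1 + 1 + 1) (j := i + 1) (by omega)]
  have key : ∀ h i, NF w x Δ M h i → h ∈ K ∧ 1 ≤ F h i ∧ (F h (i + 1) = 0 ∨ 1 ≤ F h (i + 1)) ∧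
      (F h (i + 1) = 0 → F h i = 1 ∧ ∃ a k : ℤ, h = x ^ a * Δ ^ k ∧ (i + k * (M - 1)) % 2 = 0) ∧
      (F h i = s 2 → Y h i) ∧ (F h (i + 1) = s 2 → Y h (i + 1)) := fun h i n => by
    induction n with
    | base a =>
      refine ⟨zpow_mem hx a, by simp [F, Fx], by simp [F, Fx],
        fun _ => ⟨by simp [F, Fx], a, 0, by simp⟩, fun u => ?_, fun u => ?_⟩
      · have u' : s 1 = s 2 := by simpa [F, Fx, hs.o] using u
        obtain rfl : M = 2 := by have := Hk.cls hs hM le_rfl (by omega) u'; omega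
        refine ⟨a - 1, 1, -1, -1, by norm_num, Or.inl rfl, ?_⟩
        rw [← rel 1]
        simp [aa, alG, yy, zpow_sub_one, mul_assoc]
      · have u' : 0 = s 2 := by simpa [F, Fx] using u
        linarith
    | @del h i k _ ih =>
      obtain ⟨a, b, c, d, e, f⟩ := ih
      rw [add_right_comm, Fk h a, Fk h a]
      refine ⟨mul_mem a (zpow_mem hΔ k), b, c, fun q => ?_, fun q => Yd _ _ _ (e q),
        fun q => Yd _ _ _ (f q)⟩
      obtain ⟨d1, a', l, rfl, u⟩ := d q
      exact ⟨d1, a', l + k, by rw [zpow_add, mul_assoc], by rw [add_mul]; omega⟩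
    | @step h i j _ hj ih =>
      obtain ⟨a, b, c, d, e, f⟩ := ih
      have g1 := hs.ge hj
      have g0 : 0 ≤ s j ∧ (j ≠ 0 → 1 ≤ s j) := by
        cases j with
        | zero => simp [hs.z]
        | succ j => have := hs.ge (show j < M by omega); exact ⟨by linarith, fun _ => this⟩
      have c0 : 0 ≤ F h (i + 1) := c.elim (fun e => e.ge) fun e => by linarith
      have tp : F h (i + 1) = 0 → ∃ a k : ℤ, h * aa w x i M = x ^ a * Δ ^ k ∧
          (i + (M - 1) + k * (M - 1)) % 2 = 0 := fun q => by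
        obtain ⟨-, a', l, rfl, u⟩ := d q
        have := del_yy rel l 1
        rw [yy_congr w x (j := i + 1) (by omega), show yy w x 1 = x from rfl] at this
        refine ⟨a' - 1, l + 1, ?_, by rw [add_mul]; omega⟩
        rw [sp, ← mul_assoc, mul_assoc _ (Δ ^ l), (SemiconjBy.inv_right this).eq]; group
      rw [(Fa h a i j).1, (Fa h a i j).2]
      refine ⟨mul_mem a (ha _ _), by nlinarith [g0.1], ?_, fun u => ?_, fun u => ?_, fun u => ?_⟩
      · by_cases q : j + 1 = M
        · rwa [show j + 2 = M + 1 by omega, q, hs.e, hs.l, zero_mul, zero_add, one_mul]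
        · have g2 := hs.ge (show j + 1 < M by omega)
          exact Or.inr (by nlinarith)
      · have q : j + 1 = M := by_contra fun q => by
          have g2 := hs.ge (show j + 1 < M by omega)
          nlinarith
        have q' : (j : ℤ) = M - 1 := by omega
        rw [show j + 2 = M + 1 by omega, q, hs.e, hs.l, zero_mul, zero_add, one_mul] at u
        rw [q, hs.l, u, (d u).1, q']
        exact ⟨by ring, tp u⟩
      · by_cases r : j = 0
        · obtain ⟨a', k, e', b', v, t, rfl⟩ := e (by simpa [r, hs.z, hs.o] using u)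
          exact ⟨a', k, e', b' + 1, by simpa [r] using v, t,
            by simp [r, aa, alG, zpow_add_one, mul_assoc]⟩
        have d0 : F h (i + 1) = 0 := c.resolve_right fun _ => by nlinarith [g0.2 r]
        rw [d0, (d d0).1, mul_one, mul_zero, add_zero] at u
        rcases Hk.cls hs hM (by omega) hj u with v | v
        · obtain rfl : j = 1 := by omega
          obtain ⟨-, a', k, rfl, t⟩ := d d0
          refine ⟨a', k, 1, 1, by push_cast; omega, Or.inr (Or.inr rfl), ?_⟩
          rw [yy_congr w x (i := i + (1 : ℕ) + 1) (j := i) (by push_cast; omega)]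
          simp [aa, alG, mul_assoc]
        · obtain ⟨a', k, v', t⟩ := tp d0
          refine ⟨a', k, -1, 0, by omega, Or.inl rfl, ?_⟩
          rw [← v', ← v, aa_succ' (j + 1)]; simp [add_assoc, ← mul_assoc]
      · by_cases q : j + 1 = M
        · have q' : (j : ℤ) = 1 * (M - 1) := by omega
          rw [show j + 2 = M + 1 by omega, q, hs.e, hs.l, zero_mul, zero_add, one_mul] at u
          obtain ⟨a', k, e', b', v, t, rfl⟩ := f u
          rw [q, sp, ← mul_assoc, q', add_right_comm i (1 * _) 1]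
          refine Yd _ _ _ ⟨a', k, e', b' - 1, v, t, ?_⟩
          rw [zpow_sub_one, mul_assoc _ (_ ^ b')]
        have g2 := hs.ge (show j + 1 < M by omega)
        have d0 : F h (i + 1) = 0 := c.resolve_right fun _ => by nlinarith
        rw [d0, (d d0).1, mul_one, mul_zero, add_zero] at u
        rcases Hk.cls hs hM (by omega) (by omega) u with v | v
        · obtain rfl : j = 0 := by omega
          obtain ⟨-, a', k, rfl, t⟩ := d d0
          refine ⟨a', k, 1, 0, by push_cast; omega, Or.inr (Or.inr rfl), ?_⟩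
          rw [yy_congr w x (i := i + (0 : ℕ) + 1 + 1) (j := i) (by push_cast; omega)]
          simp [aa, alG]
        · obtain ⟨a', k, v', t⟩ := tp d0
          refine ⟨a', k, -1, -1, by omega, Or.inl rfl, ?_⟩
          rw [← v', ← v, aa_succ' (j + 2), aa_succ' (j + 1)]
          simp [add_assoc, ← mul_assoc, one_add_one_eq_two]
  obtain ⟨i, n⟩ := NF.all rel (by omega) hg
  obtain ⟨-, b, c, d, e, f⟩ := key g i n
  have par : ∀ k : ℤ, k * (M + 1) = k * (M - 1) + 2 * k := fun k => by ring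
  have fin : ∀ i', i' % 2 = 1 → Y g i' → ∃ a k h b : ℤ, (k * (M + 1)) % 2 = 0 ∧ Tri h ∧
      g = x ^ a * Δ ^ k * w ^ h * x ^ b := by
    rintro i' r ⟨a, k, h, b, u, v, t⟩
    rw [yy_congr w x (i := i' + 1) (j := 0) (by omega), yy_congr w x (i := i') (j := 1) (by omega)] at t
    exact ⟨a, k, h, b, by rw [par]; omega, v, t⟩
  by_cases r : i % 2 = 0
  · rcases hf with q | q
    · obtain ⟨-, a, k, u, v⟩ := d (by
        simp only [F, q]
        split_ifs <;> first | omega | rfl | simp)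
      exact ⟨a, k, 0, 0, by rw [par]; omega, Or.inr (Or.inl rfl), by simpa using u⟩
    · refine fin _ (by omega) (f ?_)
      simp only [F] at c ⊢
      split_ifs at c ⊢ <;> first
        | omega
        | (rcases q with q | q <;> rcases c with c | c <;> linarith)
  · refine fin _ (by omega) (e ?_)
    simp only [F] at b ⊢
    split_ifs at b ⊢ <;> first
      | omega
      | (rcases hf with q | q | q <;> linarith)

end Pool.Agent.MP_6eaae3_al.LT

end MrgPart1

-- ======== part 2: formerly Pool.Agent.MP_6eaae3_al.LT.Pc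
section MrgPart2

/-! The count of one letter in the loops and arcs of a chain of curves. -/

namespace Pool.Agent.MP_6eaae3_al.LT

open FreeGroup (of)
open Set

namespace Pc

/-- The exponent sum of the letter `j`. -/
noncomputable def cn (j : ℕ) (w : FreeGroup ℕ) : ℝ :=
  Multiplicative.toAdd (FreeGroup.lift (fun a => Multiplicative.ofAdd (if a = j then (1 : ℝ) else 0)) w)

theorem cn_mul (j a b) : cn j (a * b) = cn j a + cn j b := by simp [cn]
theorem cn_inv (j a) : cn j a⁻¹ = -cn j a := by simp [cn]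
theorem cn_one (j) : cn j 1 = 0 := by simp [cn]
theorem cn_of (j a) : cn j (of a) = if a = j then 1 else 0 := by simp [cn]

theorem cn_fre {j w} (h : w ∈ Fre {j}ᶜ) : cn j w = 0 := by
  induction h using Subgroup.closure_induction with
  | mem x hx => obtain ⟨a, ha, rfl⟩ := hx; rw [cn_of, if_neg (show ¬ a = j from ha)]
  | one => exact cn_one j
  | mul x y _ _ a b => rw [cn_mul, a, b, add_zero]
  | inv x _ a => rw [cn_inv, a, neg_zero]

theorem cn_bad {j w} (h : Bad (of j) (Fre {j}ᶜ) w) : cn j w = 0 ∨ cn j w = 1 ∨ cn j w = -1 := by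
  obtain ⟨κ, a, h⟩ := h
  have := cn_fre a
  rcases h with rfl | rfl | rfl | rfl <;> simp [cn_mul, cn_inv, cn_of, this]

theorem parts (u a : ℕ → ℝ) (N : ℕ) (u0 : u 0 = 0) (u1 : u (N + 1) = 0) (a0 : a 0 = 0)
    (a1 : a (N + 1) = 0) : ∑ k ∈ Finset.range N, u (k + 1) * (a (k + 2) + a (k + 1) - a k) =
      ∑ k ∈ Finset.range N, u (k + 1) * a (k + 1) +
        ∑ k ∈ Finset.range N, (u k - u (k + 2)) * a (k + 1) := by
  have := Finset.sum_range_sub (fun k => u (k + 1) * a k + a (k + 1) * u k) N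
  rw [u0, u1, a0, a1] at this
  rw [← Finset.sum_add_distrib, ← sub_eq_zero, ← Finset.sum_sub_distrib]
  refine Eq.trans (Finset.sum_congr rfl fun k _ => ?_) (this.trans (by ring))
  ring

theorem weights {N : ℕ} {U : ℕ → ℝ} (hU : Cheb N U) (p : ℤ) : ∃ u w : ℕ → ℝ,
    u 0 = 0 ∧ u (N + 1) = 0 ∧ w 0 = 0 ∧ w (N + 1) = 0 ∧
    (∀ k : ℕ, (k + p) % 2 = 1 → u k = 0) ∧ (∀ k : ℕ, (k + p) % 2 = 0 → w k = 0) ∧
    (∀ k, w k - w (k + 2) = U 2 * u (k + 1)) ∧ (∀ k, u k - u (k + 2) = -U 2 * w (k + 1)) ∧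
    ∀ k : ℕ, 1 ≤ k → k ≤ N → ((k + p) % 2 = 0 → u k ≠ 0) ∧ ((k + p) % 2 = 1 → w k ≠ 0) := by
  refine ⟨fun k => if (k + p) % 4 = 0 then U k else if (k + p) % 4 = 2 then -U k else 0,
    fun k => if (k + p) % 4 = 3 then U k else if (k + p) % 4 = 1 then -U k else 0,
    by simp [hU.z], by simp [hU.e], by simp [hU.z], by simp [hU.e], fun k h => ?_, fun k h => ?_,
    fun k => ?_, fun k => ?_, fun k a b => ?_⟩
  · beta_reduce
    rw [if_neg (by omega), if_neg (by omega)]
  · beta_reduce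
    rw [if_neg (by omega), if_neg (by omega)]
  · beta_reduce
    rw [hU.rc k]
    push_cast
    split_ifs <;> first | omega | ring
  · beta_reduce
    rw [hU.rc k]
    push_cast
    split_ifs <;> first | omega | ring
  · obtain ⟨k, rfl⟩ := Nat.exists_eq_add_of_le' a
    have := hU.ge (j := k) b
    beta_reduce
    constructor <;> intro h <;> split_ifs <;> first | omega | linarith

theorem pick (u : ℕ → ℝ) (b : ℕ → ℝ) {N j : ℕ} (h1 : 1 ≤ j) (h2 : j ≤ N)
    (h : ∀ k, 1 ≤ k → k ≤ N → k ≠ j → u k * b k = 0) :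
    ∑ k ∈ Finset.range N, u (k + 1) * b (k + 1) = u j * b j := by
  obtain ⟨j, rfl⟩ := Nat.exists_eq_add_of_le' h1
  exact Finset.sum_eq_single_of_mem j (Finset.mem_range.2 h2) fun k a e =>
    h _ (by omega) (Finset.mem_range.1 a) (by omega)

end Pc

open Pc in
theorem pc (h : S_HK) : S_PC := by
  intro G _ s t Δ N p P j e hN rel j1 j2 he hy
  obtain ⟨U, hU⟩ := exists_cheb hN
  obtain ⟨u, w, u0, u1, w0, w1, uz, wz, wr, ur, nz⟩ := weights hU p
  have hs : s ∈ Subgroup.closure {s, t} := Subgroup.subset_closure (Or.inl rfl)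
  have ht : t ∈ Subgroup.closure {s, t} := Subgroup.subset_closure (Or.inr rfl)
  let Ps : G → ℝ := fun g => ∑ k ∈ Finset.range N, u (k + 1) * cn j (P.f g (k + 1))
  let Pt : G → ℝ := fun g => ∑ k ∈ Finset.range N, w (k + 1) * cn j (P.f g (k + 1))
  let Nn : G → ℝ := fun g => ∑ k ∈ Finset.range N, w (k + 1) * cn j (P.W g (k + 1))
  have ys : ∀ i : ℤ, i % 2 = 0 → yy s t i = s := fun i a => if_pos a
  have yt : ∀ i : ℤ, i % 2 = 1 → yy s t i = t := fun i a => if_neg (by omega)
  have z0 : ∀ g, cn j (P.f g 0) = 0 := fun g => by rw [(P.f0 g).1, cn_one]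
  have z1 : ∀ g, cn j (P.f g (N + 1)) = 0 := fun g => by rw [(P.f0 g).2, cn_one]
  have ss : ∀ g ∈ Subgroup.closure {s, t}, Ps (g * s) = Ps g := fun g hg =>
    Finset.sum_congr rfl fun k hk => by
      rcases Int.emod_two_eq_zero_or_one ((k + 1 : ℕ) + p) with a | a
      · have := (P.own g hg (k + 1) (by omega) (Finset.mem_range.1 hk)).1
        rw [ys _ a] at this
        rw [this]
      · rw [uz _ a, zero_mul, zero_mul]
  have tt : ∀ g ∈ Subgroup.closure {s, t}, Pt (g * t) = Pt g := fun g hg =>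
    Finset.sum_congr rfl fun k hk => by
      rcases Int.emod_two_eq_zero_or_one ((k + 1 : ℕ) + p) with a | a
      · rw [wz _ a, zero_mul, zero_mul]
      · have := (P.own g hg (k + 1) (by omega) (Finset.mem_range.1 hk)).1
        rw [yt _ a] at this
        rw [this]
  have ts : ∀ g ∈ Subgroup.closure {s, t}, Pt (g * s) = Pt g + U 2 * Ps g := fun g hg => by
    have := parts w (fun k => cn j (P.f g k)) N w0 w1 (z0 g) (z1 g)
    simp only [wr, mul_assoc, ← Finset.mul_sum] at this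
    refine Eq.trans (Finset.sum_congr rfl fun k hk => ?_) this
    rcases Int.emod_two_eq_zero_or_one ((k + 1 : ℕ) + p) with a | a
    · rw [wz _ a, zero_mul, zero_mul]
    · have := (P.oth g hg (k + 1) (by omega) (Finset.mem_range.1 hk)).1
      rw [ys _ (by omega)] at this
      rw [this, cn_mul, cn_mul, cn_inv, Nat.add_sub_cancel, sub_eq_add_neg]
  have st : ∀ g ∈ Subgroup.closure {s, t}, Ps (g * t) = Ps g + -U 2 * Pt g := fun g hg => by
    have := parts u (fun k => cn j (P.f g k)) N u0 u1 (z0 g) (z1 g)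
    simp only [ur, mul_assoc, ← Finset.mul_sum] at this
    refine Eq.trans (Finset.sum_congr rfl fun k hk => ?_) this
    rcases Int.emod_two_eq_zero_or_one ((k + 1 : ℕ) + p) with a | a
    · have := (P.oth g hg (k + 1) (by omega) (Finset.mem_range.1 hk)).1
      rw [yt _ (by omega)] at this
      rw [this, cn_mul, cn_mul, cn_inv, Nat.add_sub_cancel, sub_eq_add_neg]
    · rw [uz _ a, zero_mul, zero_mul]
  have ns : ∀ g ∈ Subgroup.closure {s, t}, Nn (g * s) = Nn g := fun g hg =>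
    Finset.sum_congr rfl fun k hk => by
      rcases Int.emod_two_eq_zero_or_one ((k + 1 : ℕ) + p) with a | a
      · rw [wz _ a, zero_mul, zero_mul]
      · rw [(P.arc g hg (k + 1) (by omega) (Finset.mem_range.1 hk) a).2]
  have nt : ∀ g ∈ Subgroup.closure {s, t}, Nn (g * t) = Nn g + Pt g := fun g hg => by
    refine Eq.trans (Finset.sum_congr rfl fun k hk => ?_) Finset.sum_add_distrib
    rcases Int.emod_two_eq_zero_or_one ((k + 1 : ℕ) + p) with a | a
    · rw [wz _ a]; ring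
    · rw [(P.arc g hg (k + 1) (by omega) (Finset.mem_range.1 hk) a).1, cn_mul, cn_mul, cn_mul, cn_inv]
      ring
  have s1 : Ps 1 = u j := by
    refine (pick u (fun k => cn j (P.f 1 k)) j1 j2 fun k a b c => ?_).trans ?_
    · rw [(P.f1 k a b).1, cn_of, if_neg c, mul_zero]
    · rw [(P.f1 j j1 j2).1, cn_of, if_pos rfl, mul_one]
  have t1 : Pt 1 = w j := by
    refine (pick w (fun k => cn j (P.f 1 k)) j1 j2 fun k a b c => ?_).trans ?_
    · rw [(P.f1 k a b).1, cn_of, if_neg c, mul_zero]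
    · rw [(P.f1 j j1 j2).1, cn_of, if_pos rfl, mul_one]
  have n1 : Nn 1 = 0 := Finset.sum_eq_zero fun k hk => by
    rw [(P.f1 (k + 1) (by omega) (Finset.mem_range.1 hk)).2.2, cn_one, mul_zero]
  have step : ∀ g ∈ Subgroup.closure {s, t}, ∀ y ∈ ({s, t} : Set G),
      Ps (g * y) + U 2 * Nn (g * y) = Ps g + U 2 * Nn g := by
    rintro g hg y (rfl | rfl)
    · rw [ss g hg, ns g hg]
    · rw [st g hg, nt g hg]; ring
  have cst : Ps e + U 2 * Nn e = u j := by
    clear hy
    induction he using Subgroup.closure_induction_right with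
    | one => rw [s1, n1, mul_zero, add_zero]
    | mul_right g hg y hy ih => rw [step g hg y hy, ih]
    | mul_inv_cancel g hg y hy ih =>
      have := step _ (mul_mem hg (inv_mem (Subgroup.subset_closure hy))) y hy
      rw [inv_mul_cancel_right] at this
      rw [← this, ih]
  have ne : Nn e = w j * cn j (P.W e j) :=
    pick w (fun k => cn j (P.W e k)) j1 j2 fun k a b c => by
      rcases Int.emod_two_eq_zero_or_one (k + p) with d | d
      · rw [wz _ d, zero_mul]
      · rw [cn_fre ((hy k a b d).1 c), mul_zero]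
  refine ⟨fun a => ?_, fun a => ?_⟩
  · have z := (nz j j1 j2).1 a
    refine (hecke hU (by omega) rel (f0 := fun g => Ps g / u j) (f1 := fun g => Pt g / u j) hs ht
      (fun g hg => ⟨by rw [ss g hg], by rw [ts g hg]; ring⟩)
      (fun g hg => ⟨by rw [tt g hg], by rw [st g hg]; ring⟩) (by rw [s1, div_self z])
      (by rw [t1, wz _ a, zero_div]) he).2 ?_
    rw [ne, wz _ a, zero_mul, mul_zero, add_zero] at cst
    rw [cst, div_self z]
  · have z := (nz j j1 j2).2 a
    have sw : ∀ i, yy t s i = yy s t (i + 1) := fun i => by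
      simp only [yy]; split_ifs <;> first | omega | rfl
    refine h G t s Δ N U hU hN (fun i => by rw [← rel (i + 1), aa, aa, sw, sw])
      (fun g => Pt g / w j) (fun g => -Ps g / w j) _ ht hs
      (fun g hg => ⟨by rw [tt g hg], by rw [st g hg]; ring⟩)
      (fun g hg => ⟨by rw [ss g hg], by rw [ts g hg]; ring⟩) (by rw [t1, div_self z])
      (by rw [s1, uz _ a, neg_zero, zero_div]) e (by rwa [pair_comm]) ?_
    rw [ne, uz _ a] at cst
    have : -Ps e / w j = U 2 * cn j (P.W e j) := by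
      rw [div_eq_iff z]; linarith
    rw [this]
    rcases cn_bad (hy j j1 j2 a).2 with b | b | b <;> simp [b]

end Pool.Agent.MP_6eaae3_al.LT

end MrgPart2

-- ======== part 3: formerly Pool.Agent.MP_6eaae3_al.LT.We
section MrgPart3

/-! A model of the calculus of first letters, and the mirror symmetry. -/

namespace Pool.Agent.MP_6eaae3_al.LT

namespace We

/-- Reduced words. -/
abbrev Rd : Type := {l : List ℕ // l.IsChain (· ≠ ·)}

/-- Left multiplication by a letter. -/
def mu (a : ℕ) (l : Rd) : Rd :=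
  if h : l.1.head? = some a then ⟨l.1.tail, l.2.tail⟩
  else ⟨a :: l.1, l.2.cons fun b hb e => h (by rw [e]; exact hb)⟩

theorem mu_ne {a : ℕ} {l : Rd} (h : l.1.head? ≠ some a) : (mu a l).1 = a :: l.1 := by
  rw [mu, dif_neg h]

theorem mu_eq {a : ℕ} {l : Rd} {t : List ℕ} (h : l.1 = a :: t) : (mu a l).1 = t := by
  rw [mu, dif_pos (by rw [h]; rfl)]
  simp [h]

theorem head_cases (a : ℕ) (l : List ℕ) : l.head? ≠ some a ∨ ∃ t, l = a :: t := by
  rcases l with _ | ⟨b, t⟩
  · exact Or.inl (by simp)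
  · by_cases e : b = a
    · exact Or.inr ⟨t, by rw [e]⟩
    · exact Or.inl (by simpa using e)

theorem mu_mu (a : ℕ) : Function.Involutive (mu a) := fun l => by
  refine Subtype.ext ?_
  rcases head_cases a l.1 with h | ⟨t, h⟩
  · exact mu_eq (mu_ne h)
  · have c := l.2
    rw [h] at c
    rw [mu_ne, mu_eq h, h]
    rw [mu_eq h]
    exact fun e => (List.isChain_cons.1 c).1 a e rfl

/-- Words that split into pairs of letters on the same side of `j`. -/
def Ev (j : ℕ) : List ℕ → Prop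
  | [] => True
  | [_] => False
  | a :: b :: l => (a ≤ j ↔ b ≤ j) ∧ Ev j l

theorem ev_mu {j a b : ℕ} (h : a ≤ j ↔ b ≤ j) (l : Rd) : Ev j l.1 ↔ Ev j (mu a (mu b l)).1 := by
  rcases head_cases b l.1 with hb | ⟨t, hb⟩
  · by_cases e : a = b
    · rw [e, mu_mu]
    · rw [mu_ne (a := a) (by rw [mu_ne hb]; simpa using fun e' => e e'.symm), mu_ne hb]
      simp [Ev, h]
  · rcases head_cases a t with ha | ⟨t', ha⟩
    · rw [mu_ne (a := a) (by rwa [mu_eq hb]), mu_eq hb, hb]
      rcases t with _ | ⟨c, t⟩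
      · simp [Ev]
      · simp [Ev, h]
    · rw [mu_eq ((mu_eq hb).trans ha), hb, ha]
      simp [Ev, h]

/-- The permutations that preserve the words made of pairs. -/
def KK (j : ℕ) : Subgroup (Equiv.Perm Rd) where
  carrier := {φ | ∀ l, Ev j l.1 ↔ Ev j (φ l).1}
  one_mem' := fun _ => Iff.rfl
  mul_mem' := fun {a b} ha hb l => (hb l).trans (ha (b l))
  inv_mem' := fun {a} ha l => by
    simpa using (ha (a⁻¹ l)).symm

/-- The empty word. -/
def nil : Rd := ⟨[], List.isChain_nil⟩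

variable {H : Type} [Group H] {X : ℕ → H} {m : ℕ}

theorem dd_succ (X : ℕ → H) (i : ℕ) : dd X (i + 1) = dd X i * X (i + 1) := rfl

theorem dd_mir (sq : ∀ a, X a * X a = 1) {i : ℕ} (h : i ≤ m) :
    dd (fun a => X (m + 1 - a)) i = (dd X m)⁻¹ * dd X (m - i) := by
  induction i with
  | zero => rw [Nat.sub_zero, inv_mul_cancel]; rfl
  | succ i ih =>
    have e : m - i = m - (i + 1) + 1 := by omega
    rw [dd_succ, ih (by omega), show m + 1 - (i + 1) = m - i by omega, e, dd_succ, mul_assoc,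
      mul_assoc, sq, mul_one]

theorem DD_mir (sq : ∀ a, X a * X a = 1) (k : ℤ) {i : ℕ} (h : i ≤ m) :
    DD (fun a => X (m + 1 - a)) m (-k) (m - i) = (dd X m)⁻¹ * DD X m k i := by
  have e : dd (fun a => X (m + 1 - a)) m = (dd X m)⁻¹ := by
    rw [dd_mir sq le_rfl, Nat.sub_self]; exact mul_one _
  unfold DD
  by_cases hk : k % 2 = 0
  · rw [if_pos hk, if_pos (by omega), e, dd_mir sq (Nat.sub_le m i), Nat.sub_sub_self h,
      show -k / 2 = -(k / 2) by omega]
    group
  · rw [if_neg hk, if_neg (by omega), e, Nat.sub_sub_self h, dd_mir sq h,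
      show -k / 2 = -(k / 2) - 1 by omega]
    group

end We

open We

theorem we : S_WE := fun m j =>
  ⟨Equiv.Perm Rd, inferInstance, ⟨{
    X := fun a => (mu_mu a).toPerm
    K := KK j
    St := fun a h => (h nil).1.head? = some a ∨ (a = 0 ∧ (h nil).1 = [])
    sq := fun a => Equiv.ext (mu_mu a)
    kk := fun _ _ h l => ev_mu h l
    s0 := Or.inr ⟨rfl, rfl⟩
    s1 := fun a b h _ _ ne s => by
      have : (h nil).1.head? ≠ some a := by
        rcases s with s | ⟨-, s⟩ <;> rw [s]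
        · simpa using ne.symm
        · simp
      exact Or.inl (congrArg List.head? (mu_ne this))
    nk := fun a b h _ _ hb _ ne s hK => by
      rcases head_cases b (h nil).1 with e | ⟨t, e⟩
      · exact s.elim e fun s => by omega
      · have h1 : (mu a (h nil)).1 = a :: b :: t := by
          rw [mu_ne, e]
          rw [e]
          intro e'
          exact ne (by rw [Option.some.inj e'])
        have h2 : Ev j (mu a (h nil)).1 := (hK nil).1 trivial
        rw [h1] at h2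
        exact ne h2.1 }⟩⟩

theorem mi : S_MI := by
  intro H _ X m k h i sq h1 h2 ht
  obtain ⟨i, rfl⟩ : ∃ i', i = i' + 1 := ⟨i - 1, by omega⟩
  have a0 := DD_mir sq k (show i ≤ m by omega)
  have a1 := DD_mir sq k (show i + 1 ≤ m by omega)
  have a2 := DD_mir sq k (show i + 1 + 1 ≤ m by omega)
  have e0 : m - (i + 1) + 1 = m - i := by omega
  have e2 : m - (i + 1) - 1 = m - (i + 1 + 1) := by omega
  have e : DE (fun a => X (m + 1 - a)) m (-k) (-h) (m - (i + 1)) =
      (dd X m)⁻¹ * DE X m k h (i + 1) := by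
    unfold DE
    rw [e0, e2, a0, a1, a2, Nat.add_sub_cancel]
    rcases ht with rfl | rfl | rfl
    · rw [if_neg (by omega), if_pos (by omega), if_neg (by omega), if_neg (by omega)]
      group
    · rw [if_pos (by omega), if_pos rfl]
    · rw [if_neg (by omega), if_neg (by omega), if_neg (by omega), if_pos rfl]
      group
  have inv : ∀ a, (X a)⁻¹ = X a := fun a => inv_eq_of_mul_eq_one_right (sq a)
  have can : ∀ a y, X a * (X a * y) = y := fun a y => by rw [← mul_assoc, sq, one_mul]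
  unfold WW
  rw [e, e0, dd_mir sq (Nat.sub_le m i), Nat.sub_sub_self (by omega), dd_succ, dd_succ]
  simp only [show m + 1 - (m - i) = i + 1 by omega, mul_inv_rev, inv_inv, inv, mul_assoc, can,
    mul_inv_cancel_left]

end Pool.Agent.MP_6eaae3_al.LT

end MrgPart3

-- ======== part 4: formerly Pool.Agent.MP_6eaae3_al.LT.Pd
section MrgPart4

/-! Powers of the Garside element. -/

namespace Pool.Agent.MP_6eaae3_al.LT

open FreeGroup (of)
open Set

theorem Bad.map {G H : Type} [Group G] [Group H] (φ : G →* H) {o w : G} {K : Subgroup G}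
    {K' : Subgroup H} (hK : ∀ x ∈ K, φ x ∈ K') (h : Bad o K w) : Bad (φ o) K' (φ w) := by
  obtain ⟨κ, a, b⟩ := h
  refine ⟨φ κ, hK κ a, ?_⟩
  rcases b with rfl | rfl | rfl | rfl <;> simp

/-- The mirror image of a calculus. -/
def Wc.mir {m j : ℕ} {H : Type} [Group H] (c : Wc m j H) (hj : j ≤ m) : Wc m (m - j) H where
  X := fun a => c.X (m + 1 - a)
  K := c.K
  St := fun a => if a = 0 then c.St 0 else c.St (m + 1 - a)
  sq := fun _ => c.sq _
  kk := fun a b h => c.kk _ _ (by omega)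
  s0 := c.s0
  s1 := fun a b h u v w e => by
    rw [if_neg (by omega)]
    split_ifs at e
    exacts [c.s1 _ _ _ (by omega) (by omega) (by omega) e, c.s1 _ _ _ (by omega) (by omega) (by omega) e]
  nk := fun a b h u v w x y e => by
    rw [if_neg (by omega)] at e
    exact c.nk _ _ _ (by omega) (by omega) (by omega) (by omega) (by omega) e

theorem pd (h1 : S_WE) (h2 : S_W1) (h3 : S_W3) (h4 : S_MI) (h5 : S_LK) : S_PD := by
  intro G _ s t Δ N p P j k hN rel j1 jN
  obtain ⟨H, _, ⟨c⟩⟩ := h1 (N + 1) j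
  have hχ : ∀ w ∈ Fre ({j}ᶜ : Set ℕ), FreeGroup.lift (fun a => c.X (a + 1) * c.X a) w ∈ c.K :=
    fun w hw => Fre.map_mem _ (fun a ha => by
      have : a ≠ j := ha
      simpa using c.kk (a + 1) a (by omega)) hw
  have Hy : ∀ h, Tri h → P.Hyp j (Δ ^ k * t ^ h) → ∀ i : ℕ, 1 ≤ i → i ≤ N → (i + p) % 2 = 1 →
      (i ≠ j → WW c.X (N + 1) k h i ∈ c.K) ∧ Bad (c.X (j + 1) * c.X j) c.K (WW c.X (N + 1) k h i) :=
    fun h u v i a b e => by
      rw [← h5 G s t Δ N p P rel H c.X c.sq k h i a b e u]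
      exact ⟨fun q => hχ _ ((v i a b e).1 q), by simpa using (v i a b e).2.map _ hχ⟩
  have mi : ∀ h, Tri h → ∀ i, 1 ≤ i → i ≤ N → N + 1 - i ≠ j → WW c.X (N + 1) k h (N + 1 - i) ∈ c.K →
      WW (c.mir (by omega)).X (N + 1) (-k) (-h) i ∈ c.K := fun h u i a b e w => by
    have := h4 H c.X (N + 1) k h (N + 1 - i) c.sq (by omega) (by omega) u
    have f := c.kk (N + 1 - i + 1) (N + 1 - i) (by omega)
    rw [show N + 1 - (N + 1 - i) = i by omega] at this
    exact (show WW _ _ _ _ _ = _ from this) ▸ mul_mem (mul_mem (inv_mem f) w) f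
  refine ⟨fun e v => ?_, fun e h ek u v => ?_⟩
  · have := Hy 0 (Or.inr (Or.inl rfl)) (by simpa using v)
    rcases lt_trichotomy k 0 with q | q | q
    · obtain ⟨i, a, b, d, f⟩ := h2 (N + 1) _ H (c.mir (by omega)) (-k) (by omega) (by omega) (by omega)
        (by omega)
      exact (f (mi 0 (Or.inr (Or.inl rfl)) i a (by omega) (by omega) ((this _ (by omega)
        (by omega) (by omega)).1 (by omega)))).elim
    · exact q
    · obtain ⟨i, a, b, d, f⟩ := h2 (N + 1) j H c k (by omega) j1 (by omega) q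
      exact (f ((this i a (by omega) (by omega)).1 (by omega))).elim
  have := Hy h u v
  have r0 := rel 0
  have r1 := rel 1
  have x3 : N = 2 → t⁻¹ * Δ ^ (2 : ℤ) = s ^ (2 : ℤ) * t * s ^ (2 : ℤ) ∧
      Δ ^ (2 : ℤ) * t⁻¹ = s ^ (2 : ℤ) * t * s ^ (2 : ℤ) := by
    rintro rfl
    simp only [aa, alG, yy, mul_one] at r0 r1
    norm_num at r0 r1
    have : s * Δ * s = s ^ (2 : ℤ) * t * s ^ (2 : ℤ) := by rw [← r0]; simp only [zpow_two, mul_assoc]
    have a : t⁻¹ * Δ = s * t := by rw [← r1]; group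
    have b : Δ * t⁻¹ = t * s := by rw [← r1]; group
    rw [← this, zpow_two]
    constructor
    · rw [← mul_assoc, a]
      calc s * t * Δ = s * t * (s * (t * s)) := by rw [r0]
        _ = s * (t * (s * t)) * s := by group
        _ = _ := by rw [r1]
    · rw [mul_assoc, b]
      calc Δ * (t * s) = s * (t * s) * (t * s) := by rw [r0]
        _ = s * (t * (s * t)) * s := by group
        _ = _ := by rw [r1]
  have x4 : N = 3 → t⁻¹ * Δ = s * t * s ∧ Δ * t⁻¹ = s * t * s := by
    rintro rfl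
    simp only [aa, alG, yy, mul_one] at r0 r1
    norm_num at r0 r1
    exact ⟨by rw [← r1]; group, by rw [← r0]; group⟩
  rcases lt_trichotomy k 0 with q | rfl | q
  · by_cases e3 : N + 1 = 3 ∧ -k = 2 ∧ -h = -1
    · obtain rfl : k = -2 := by omega
      obtain rfl : h = 1 := by omega
      refine ⟨-2, -1, -2, ?_⟩
      rw [← inv_inj, mul_inv_rev, ← zpow_neg Δ, neg_neg, zpow_one, (x3 (by omega)).1]; group
    by_cases e4 : N + 1 = 4 ∧ -k = 1 ∧ -h = -1
    · obtain rfl : k = -1 := by omega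
      obtain rfl : h = 1 := by omega
      refine ⟨-1, -1, -1, ?_⟩
      rw [← inv_inj, mul_inv_rev, ← zpow_neg Δ, neg_neg, zpow_one, zpow_one, (x4 (by omega)).1]; group
    obtain ⟨i, a, b, d, f, g⟩ | g := h3 (N + 1) _ H (c.mir (by omega)) (-k) (-h) (by omega) (by omega)
      (by omega) (by omega) (by push_cast; rw [neg_mul]; omega) (by unfold Tri at u ⊢; omega) e3 e4
    · exact (g (mi h u i a (by omega) (by omega) ((this _ (by omega) (by omega) (by omega)).1
        (by omega)))).elim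
    · refine (g ?_).elim
      have m1 := h4 H c.X (N + 1) k h j c.sq j1 (by omega) u
      obtain ⟨κ, a, b⟩ := (this j j1 jN e).2
      have iv : ∀ a, (c.X a)⁻¹ = c.X a := fun a => inv_eq_of_mul_eq_one_right (c.sq a)
      have m2 : (c.mir (by omega)).X (N + 1 - j + 1) * (c.mir (by omega)).X (N + 1 - j) =
          (c.X (j + 1) * c.X j)⁻¹ := by
        simp only [Wc.mir, mul_inv_rev, iv]
        congr 2 <;> omega
      rw [m2, show WW (c.mir (by omega)).X _ _ _ _ = _ from m1]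
      refine ⟨κ, a, ?_⟩
      rcases b with b | b | b | b <;> simp [b, mul_assoc]
  · exact ⟨0, h, 0, by simp⟩
  · by_cases e3 : N + 1 = 3 ∧ k = 2 ∧ h = -1
    · obtain ⟨a, rfl, rfl⟩ := e3
      exact ⟨2, 1, 2, by simpa using (x3 (by omega)).2⟩
    by_cases e4 : N + 1 = 4 ∧ k = 1 ∧ h = -1
    · obtain ⟨a, rfl, rfl⟩ := e4
      exact ⟨1, 1, 1, by simpa using (x4 (by omega)).2⟩
    obtain ⟨i, a, b, d, f, g⟩ | g := h3 (N + 1) j H c k h (by omega) j1 (by omega) q
      (by push_cast; exact ek) u e3 e4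
    · exact (g ((this i a (by omega) (by omega)).1 d)).elim
    · exact (g (this j j1 jN e).2).elim

end Pool.Agent.MP_6eaae3_al.LT

end MrgPart4

-- ======== part 5: formerly Pool.Agent.MP_6eaae3_al.LT.Ras
section MrgPart5

/-! The dihedral step. -/

namespace Pool.Agent.MP_6eaae3_al.LT

open FreeGroup (of)
open Set

theorem ras (h1 : S_G1) (h2 : S_CH) (h3 : S_PC) (h4 : S_PD) : S_R := by
  intro V M m n Y s t a i S x e sym ne m3 hn sd hi hx nx he nt
  have ha : ∀ c : V, ∀ k : ℤ, (PresentedGroup.of c : Art m) ^ k ∈ Par m {c} :=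
    fun c k => zpow_mem (Par.of (mem_singleton c)) k
  have rel : ∀ i, aa (PresentedGroup.of s : Art m) (PresentedGroup.of t) i (m s t - 1 + 1) =
      alG (PresentedGroup.of s) (PresentedGroup.of t) (m s t) := fun i => by
    rw [Nat.sub_add_cancel (by omega)]
    have := artin_rel m ne
    rw [lift_alG, lift_alG] at this
    exact aa_eq this i
  have hs : (PresentedGroup.of s : Art m) ∈ Par m {s, t} := Par.of (by simp)
  have ht : (PresentedGroup.of t : Art m) ∈ Par m {s, t} := Par.of (by simp)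
  have hΔ := alG_mem (m s t) hs ht
  generalize alG (PresentedGroup.of s : Art m) (PresentedGroup.of t) (m s t) = Δ at rel hΔ
  have sd' : ∀ b : ℤ, Y.Seed (Y.im (PresentedGroup.of s ^ b) S) s t := fun b i u => by
    obtain ⟨y, p, q, r⟩ := sd i u
    refine ⟨y, p, q, h1 V M m n Y {s} _ S _ (ha s b) (fun z => q (z.mono (by simp))) ?_ r⟩
    rw [opp_opp, Sys.on_iff p]
    exact fun z => ne.symm z.1
  have key : ∀ (c : V) (α β : ℤ) (g : Art m), c ≠ a → (c = s ∨ c = t) →
      e = PresentedGroup.of c ^ α * g * PresentedGroup.of s ^ β →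
      ¬ Thr (Y.im g (Y.im (PresentedGroup.of s ^ β) S)) x := fun c α β g u v w z => by
    refine nt ?_
    rw [w, Y.im_mul, Y.im_mul]
    refine h1 V M m n Y {c} _ _ _ (ha c α) ?_ (fun z => nx (z.mono (by simpa using v))) z
    rw [Sys.on_iff hx]
    exact fun z => u z.1.symm
  have yz : ∀ z : ℤ, (yy s t z = s → z % 2 = 0) ∧ (yy s t z = t → z % 2 = 1) := fun z => by
    unfold yy
    split_ifs with q
    exacts [⟨fun _ => q, fun e => (ne e).elim⟩, ⟨fun e => (ne e.symm).elim, fun _ => by omega⟩]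
  refine ⟨fun q => ?_, fun q => ?_⟩
  · obtain ⟨p, j, P, j1, jN, c, H⟩ := h2 V M m n Y s t a i S x sym ne m3 hn sd (Or.inl q) hi hx nx
    obtain ⟨α, k, β, w⟩ := (h3 _ _ _ Δ _ p P j e (by omega) rel j1 jN (par_pair s t ▸ he) (H e he nt)).1
      ((yz _).1 (c.symm.trans q))
    obtain ⟨p, j, P, j1, jN, c, H⟩ := h2 V M m n Y s t a i _ x sym ne m3 hn (sd' β) (Or.inl q) hi hx nx
    obtain rfl := (h4 _ _ _ Δ _ p P j k (by omega) rel j1 jN).1 ((yz _).1 (c.symm.trans q))
      (H _ (zpow_mem hΔ k) (key t α β _ (fun z => ne (q.symm.trans z.symm)) (Or.inr rfl) w))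
    exact ⟨α, β, by simpa using w⟩
  · obtain ⟨p, j, P, j1, jN, c, H⟩ := h2 V M m n Y s t a i S x sym ne m3 hn sd (Or.inr q) hi hx nx
    obtain ⟨α, k, h, β, u, v, w⟩ := (h3 _ _ _ Δ _ p P j e (by omega) rel j1 jN (par_pair s t ▸ he)
      (H e he nt)).2 ((yz _).2 (c.symm.trans q))
    obtain ⟨p, j, P, j1, jN, c, H⟩ := h2 V M m n Y s t a i _ x sym ne m3 hn (sd' β) (Or.inr q) hi hx nx
    obtain ⟨a', c', b', z⟩ := (h4 _ _ _ Δ _ p P j k (by omega) rel j1 jN).2 ((yz _).2 (c.symm.trans q))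
      h u v (H _ (mul_mem (zpow_mem hΔ k) (zpow_mem ht h))
        (key s α β _ (fun z => ne (z.trans q)) (Or.inl rfl) (by rw [w, mul_assoc _ (Δ ^ k)])))
    exact ⟨α + a', c', b' + β, by rw [w, mul_assoc _ (Δ ^ k), z]; group⟩

end Pool.Agent.MP_6eaae3_al.LT

end MrgPart5

-- ======== part 6: formerly Pool.Agent.MP_6eaae3_al.LT.Op
section MrgPart6

/-! Existence of words that cannot be improved. -/

namespace Pool.Agent.MP_6eaae3_al.LT

open Set

namespace OpA

variable {V G : Type} [Group G]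

theorem ev_append (r : V → G) (l l' : List (V × ℤ)) : ev r (l ++ l') = ev r l * ev r l' := by
  simp [ev]

theorem ev_cons (r : V → G) (y : V × ℤ) (l : List (V × ℤ)) :
    ev r (y :: l) = r y.1 ^ y.2 * ev r l := by
  simp [ev]

open Classical in
/-- A score that prefers equal colours at distance two, late positions first. -/
noncomputable def sc : List (V × ℤ) → ℕ
  | [] => 0
  | y :: l => 2 * sc l + if l.tail.head?.map Prod.fst = some y.1 then 0 else 1

theorem sc_lt {T T' : List (V × ℤ)} (h : sc T' < sc T) :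
    ∀ A' A : List (V × ℤ), A'.length = A.length → sc (A' ++ T') < sc (A ++ T)
  | [], [], _ => h
  | [], _ :: _, e => by simp at e
  | _ :: _, [], e => by simp at e
  | y' :: A', y :: A, e => by
    have := sc_lt h A' A (by simpa using e)
    simp only [List.cons_append, sc]
    split_ifs <;> omega

theorem exists_word (r : V → G) (Λ : Set V) {g : G} (hg : g ∈ Subgroup.closure (r '' Λ)) :
    ∃ l : List (V × ℤ), (∀ y ∈ l, y.1 ∈ Λ) ∧ g = ev r l := by
  induction hg using Subgroup.closure_induction'' with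
  | mem x hx =>
    obtain ⟨a, ha, rfl⟩ := hx
    exact ⟨[(a, 1)], by simpa using ha, by simp [ev]⟩
  | inv_mem x hx =>
    obtain ⟨a, ha, rfl⟩ := hx
    exact ⟨[(a, -1)], by simpa using ha, by simp [ev]⟩
  | one => exact ⟨[], by simp, by simp [ev]⟩
  | mul x y _ _ hx hy =>
    obtain ⟨l, a, rfl⟩ := hx
    obtain ⟨l', a', rfl⟩ := hy
    refine ⟨l ++ l', fun y h => ?_, (ev_append r l l').symm⟩
    rcases List.mem_append.1 h with h | h
    exacts [a y h, a' y h]

end OpA

open OpA in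
theorem op : S_OP := by
  intro V G _ r Λ s₀ t₀ g hg
  let S : Set (List (V × ℤ)) := {l | (∀ y ∈ l, y.1 ∈ Λ) ∧
    ∃ p ∈ Subgroup.closure (r '' (Λ \ {s₀})), ∃ q ∈ Subgroup.closure (r '' (Λ \ {t₀})),
      g = p * ev r l * q}
  have hne : S.Nonempty := by
    obtain ⟨l, a, b⟩ := exists_word r Λ hg
    exact ⟨l, a, 1, one_mem _, 1, one_mem _, by simpa using b⟩
  obtain ⟨l0, h0, m0⟩ := (InvImage.wf List.length wellFounded_lt).has_min S hne
  obtain ⟨l, ⟨⟨hm, p, hp, q, hq, e⟩, hl⟩, m1⟩ := (InvImage.wf sc wellFounded_lt).has_min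
    {l | l ∈ S ∧ l.length = l0.length} ⟨l0, h0, rfl⟩
  have short : ∀ l' ∈ S, l.length ≤ l'.length := fun l' h => hl ▸ not_lt.1 (m0 l' h)
  have sub : ∀ A E T E' : List (V × ℤ), l = A ++ E ++ T → (∀ y ∈ E', y.1 ∈ Λ) →
      ev r E = ev r E' → A ++ E' ++ T ∈ S := by
    intro A E T E' h hE he
    subst h
    refine ⟨fun y hy => ?_, p, hp, q, hq, by simpa only [ev_append, he] using e⟩
    simp only [List.mem_append] at hy hm
    rcases hy with (a | a) | a
    exacts [hm y (.inl (.inl a)), hE y a, hm y (.inr a)]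
  refine ⟨p, hp, q, hq, l, e, ⟨hm, fun A E T E' h hE he => ?_, fun A E E' q' hq' h hE he => ?_,
    fun A a b c d f T x y z h hx hy hz he => ?_⟩, fun y hy => ?_⟩
  · have := short _ (sub A E T E' h hE he)
    simp only [h, List.length_append] at this
    omega
  · have : A ++ E' ∈ S := by
      subst h
      refine ⟨fun y hy => ?_, p, hp, q' * q, mul_mem hq' hq, ?_⟩
      · simp only [List.mem_append] at hy hm
        rcases hy with a | a
        exacts [hm y (.inl a), hE y a]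
      · rw [e, ev_append, ev_append, he]
        group
    have := short _ this
    simp only [h, List.length_append] at this
    omega
  · by_contra ne
    have hf : f.1 ∈ Λ := hm f (by simp [h])
    have mem := sub A [a, b, c] (d :: f :: T) [x, y, z] (by simp [h]) (by
      simp only [List.mem_cons, List.not_mem_nil, or_false]
      rintro _ (rfl | rfl | rfl)
      exacts [hx, hy, hz ▸ hf]) he
    refine m1 _ ⟨mem, by rw [← hl, h]; simp⟩ ?_
    have lt : sc (z :: d :: f :: T) < sc (c :: d :: f :: T) := by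
      rw [sc, sc.eq_2 c]
      simp [hz, Ne.symm ne]
    have := sc_lt lt (A ++ [x, y]) (A ++ [a, b]) (by simp)
    simpa [InvImage, h] using this
  · by_contra ne
    obtain ⟨l', rfl⟩ : ∃ l', l = y :: l' := by
      cases l with
      | nil => simp at hy
      | cons a l' => exact ⟨l', by simp at hy; rw [hy]⟩
    have : l' ∈ S := ⟨fun z hz => hm z (by simp [hz]), p * r y.1 ^ y.2,
      mul_mem hp (zpow_mem (Subgroup.subset_closure
        (mem_image_of_mem r (show y.1 ∈ Λ \ {s₀} from ⟨hm y (by simp), ne⟩))) _), q, hq, by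
        rw [e, ev_cons]
        group⟩
    have := short _ this
    simp at this

end Pool.Agent.MP_6eaae3_al.LT

end MrgPart6

-- ======== part 7: formerly Pool.Agent.MP_6eaae3_al.LT.In
section MrgPart7

/-! Propagation of crossings along a word that cannot be improved. -/

namespace Pool.Agent.MP_6eaae3_al.LT

open FreeGroup (of)
open Set

namespace In

section Grp

variable {V G : Type} [Group G] {r : V → G} {Λ : Set V} {t₀ : V} {y z : V × ℤ} {l : List (V × ℤ)}

theorem ev_cons (y : V × ℤ) (l) : ev r (y :: l) = r y.1 ^ y.2 * ev r l := by simp [ev]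

theorem ev_append (l l') : ev r (l ++ l') = ev r l * ev r l' := by simp [ev]

theorem pw {X : Set V} {a : V} (h : a ∈ X) (k : ℤ) : r a ^ k ∈ Subgroup.closure (r '' X) :=
  zpow_mem (Subgroup.subset_closure (mem_image_of_mem r h)) k

theorem ev_mem {X : Set V} (h : ∀ y ∈ l, y.1 ∈ X) : ev r l ∈ Subgroup.closure (r '' X) := by
  induction l with
  | nil => exact one_mem _
  | cons y l ih =>
    rw [ev_cons]
    exact mul_mem (pw (h y (by simp)) _) (ih fun z hz => h z (by simp [hz]))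

theorem tail (A) {T} (h : Gd r Λ t₀ (A ++ T)) : Gd r Λ t₀ T :=
  ⟨fun y hy => h.mem y (List.mem_append_right _ hy),
    fun B E U E' e => h.sh (A ++ B) E U E' (by simp [e]),
    fun B E E' q hq e => h.la (A ++ B) E E' q hq (by simp [e]),
    fun B a b c d e U x y z f => h.sc (A ++ B) a b c d e U x y z (by simp [f])⟩

theorem ne0 (h : Gd r Λ t₀ (y :: l)) : y.2 ≠ 0 := fun e => by
  simpa using h.sh [] [y] l [] rfl (by simp) (by simp [ev, e])

theorem nec (h : Gd r Λ t₀ (y :: z :: l)) : y.1 ≠ z.1 := fun e => by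
  simpa using h.sh [] [y, z] l [(y.1, y.2 + z.2)] rfl (by simpa using h.mem y (by simp))
    (by simp [ev, e, zpow_add])

theorem last (h : Gd r Λ t₀ [y]) : y.1 = t₀ := by
  by_contra e
  simpa using h.la [] [y] [] (r y.1 ^ y.2) (pw (X := Λ \ {t₀}) ⟨h.mem y (by simp), e⟩ _) rfl (by simp)
    (by simp [ev])

end Grp

theorem run {α : Type} (P : α → Prop) (l : List α) : ∀ w, P w → ∃ E u T, w :: l = E ++ u :: T ∧
    (∀ v ∈ E, P v) ∧ P u ∧ ∀ c ∈ T.head?, ¬ P c := by
  induction l with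
  | nil => exact fun w h => ⟨[], w, [], rfl, by simp, h, by simp⟩
  | cons a l ih =>
    intro w h
    by_cases ha : P a
    · obtain ⟨E, u, T, e, h1, h2⟩ := ih a ha
      exact ⟨w :: E, u, T, by rw [e]; rfl, by simpa [h] using h1, h2⟩
    · exact ⟨[], w, a :: l, rfl, by simp, h, by simpa using ha⟩

theorem wd2 {L : Type} {a b : L} (h : a ≠ b) : wd ((of a)⁻¹ * of b) = [(a, false), (b, true)] := by
  classical
  unfold wd
  rw [toWord_mul_of (by simp [FreeGroup.invRev, h])]
  simp [FreeGroup.invRev]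

variable {V M : Type} {m : V → V → ℕ} {n : ℕ} (Y : Sys m n M) {Λ : Set V} (t₀ : V)

/-- The arcs after the syllables of `l` have acted. -/
def St (l : List (V × ℤ)) : Set (FG M) := Y.im (ev PresentedGroup.of l) (Y.S0 t₀)

def Iv (y : V × ℤ) (l : List (V × ℤ)) : Prop :=
  ∀ i < n, ∀ x ∈ Y.cl (y.1, i), x ≠ (Y.mr (y.1, i) false, false) →
    (∀ z ∈ l.head?, ¬ Y.On {z.1} (opp x)) → Thr (St Y t₀ (y :: l)) x

variable {Y t₀} {y c : V × ℤ} {l T : List (V × ℤ)} {i : ℕ} {x x' : M × Bool} {u : V}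

theorem St_cons : St Y t₀ (y :: l) = Y.im (PresentedGroup.of y.1 ^ y.2) (St Y t₀ l) := by
  rw [St, ev_cons, Y.im_mul, St]

theorem St_append : St Y t₀ (l ++ T) = Y.im (ev PresentedGroup.of l) (St Y t₀ T) := by
  rw [St, ev_append, Y.im_mul, St]

theorem seed0 (hi : i < n) : Thr (St Y t₀ []) (opp (Y.mr (t₀, i) false, false)) := by
  rw [show St Y t₀ [] = Y.S0 t₀ from Y.im_one _]
  refine ⟨_, ⟨i, hi, rfl⟩, Or.inr ?_⟩
  rw [Has, oo, ii, wd2 (by simp)]
  exact ⟨[], [], List.append_nil _⟩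

theorem g2s (h2 : S_G2) (hi : i < n) (hx : x ∈ Y.cl (y.1, i)) (hx' : x' ∈ Y.cl (y.1, i))
    (ne : x ≠ x') (k : y.2 ≠ 0) (h : Thr (St Y t₀ l) (opp x')) : Thr (St Y t₀ (y :: l)) x := by
  rw [St_cons]
  exact h2 V M m n Y (y.1, i) y.2 _ x x' hi hx hx' ne k h

theorem acr (hL : Lg m n Λ) (hc : c.1 ∈ Λ) (hu : u ∈ Λ) (ne : u ≠ c.1) (h : Iv Y t₀ c T)
    (hT : ∀ d ∈ T.head?, d.1 ≠ u) (hi : i < n) :
    ∃ x ∈ Y.cl (u, i), Y.On {c.1} (opp x) ∧ Thr (St Y t₀ (c :: T)) (opp x) := by
  obtain ⟨x, hx, ⟨a, j⟩, rfl, h2, h3⟩ :=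
    Sys.nb (Y := Y) hL.1 ne (hL.2 u hu _ hc ne).1 (hL.2 u hu _ hc ne).2 hi
  refine ⟨x, hx, ⟨(c.1, j), rfl, h2, h3⟩, h j h2 _ h3 (fun e => ?_) fun d hd => ?_⟩
  · rw [← opp_opp x, e] at hx
    exact Y.mrt _ _ _ hx
  · rw [opp_opp, Sys.on_iff hx]
    exact fun e => hT d hd e.1.symm

theorem off {X : Set V} (h : Y.On {u} x) (hu : u ∉ X) : ¬ Y.On X x := by
  obtain ⟨p, rfl, -, hp⟩ := h
  exact fun e => hu ((Sys.on_iff hp).1 e).1

theorem seed (hL : Lg m n Λ) (hc : c.1 ∈ Λ) (hu : u ∈ Λ) {s : V} (ne : c.1 ≠ s ∧ c.1 ≠ u)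
    (h : Iv Y t₀ c T) (hT : ∀ d ∈ T.head?, d.1 ≠ u) : Y.Seed (St Y t₀ (c :: T)) s u := fun i hi =>
  let ⟨x, a, b, e⟩ := acr hL hc hu ne.2.symm h hT hi
  ⟨x, a, off b (by simpa using ne), e⟩

/-- The run has three syllables and the two colours before it are new. -/
theorem direct (h1 : S_G1) (h2 : S_G2) (hL : Lg m n Λ) {z w : V × ℤ}
    (hG : Gd (PresentedGroup.of : V → Art m) Λ t₀ (y :: z :: w :: c :: T)) (cz : c.1 ≠ z.1)
    (hT : ∀ d ∈ T.head?, d.1 ≠ z.1) (ic : Iv Y t₀ c T) (iw : Iv Y t₀ w (c :: T)) (hi : i < n)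
    (hx : x ∈ Y.cl (y.1, i)) (hz : ¬ Y.On {z.1} (opp x)) :
    Thr (St Y t₀ (y :: z :: w :: c :: T)) x := by
  have my := hG.mem y (by simp)
  have mz := hG.mem z (by simp)
  have yz := nec hG
  have zw := nec (tail [y] hG)
  have wc := nec (tail [y, z] hG)
  obtain ⟨v, hv, ⟨a, j⟩, rfl, hj, hv'⟩ :=
    Sys.nb (Y := Y) hL.1 yz (hL.2 _ my _ mz yz).1 (hL.2 _ my _ mz yz).2 hi
  refine g2s h2 hi hx hv (fun e => hz (e ▸ ⟨(z.1, j), rfl, hj, hv'⟩)) (ne0 hG) ?_
  obtain ⟨v1, a1, b1, c1⟩ := acr hL (hG.mem c (by simp)) mz cz.symm ic hT hj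
  obtain ⟨v2, a2, b2, c2⟩ := acr hL (hG.mem w (by simp)) mz zw iw (by simpa using cz) hj
  by_cases e : opp v = v1
  · refine g2s h2 hj hv' a2 (fun e' => ?_) (ne0 (tail [y] hG)) c2
    exact off (X := {w.1}) b1 wc.symm (by rw [← e, e']; exact b2)
  · refine g2s h2 hj hv' a1 e (ne0 (tail [y] hG)) ?_
    rw [St_cons]
    refine h1 V M m n Y {w.1} _ _ _ (pw (X := {w.1}) rfl _) (off b1 wc.symm) ?_ c1
    rw [opp_opp, Sys.on_iff a1]
    exact fun e => zw e.1

theorem step (h1 : S_G1) (h2 : S_G2) (h3 : S_R) (hL : Lg m n Λ)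
    (hG : Gd (PresentedGroup.of : V → Art m) Λ t₀ (y :: l))
    (ih : ∀ A y' l', l = A ++ y' :: l' → Iv Y t₀ y' l') : Iv Y t₀ y l := by
  intro i hi x hx hm hz
  rcases l with _ | ⟨z, l⟩
  · obtain rfl := last hG
    exact g2s h2 hi hx (Y.mrf _ false) hm (ne0 hG) (seed0 hi)
  have yz := nec hG
  have hz' := hz z rfl
  have my := hG.mem y (by simp)
  have mz := hG.mem z (by simp)
  by_cases h0 : ∀ c ∈ l.head?, c.1 ≠ y.1
  · obtain ⟨v, a, b, c⟩ := acr hL mz my yz (ih [] z l rfl) h0 hi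
    exact g2s h2 hi hx a (fun e => hz' (e ▸ b)) (ne0 hG) c
  obtain ⟨w, l, rfl, wy⟩ : ∃ w l', l = w :: l' ∧ w.1 = y.1 := by
    rcases l with _ | ⟨w, l⟩
    · simp at h0
    · exact ⟨w, l, rfl, by simpa using h0⟩
  obtain ⟨E, u, T, e, hE, hu, hT⟩ := run (fun v : V × ℤ => v.1 = y.1 ∨ v.1 = z.1) l w (Or.inl wy)
  obtain ⟨s, st, ms, hs, as, bs⟩ : ∃ s, s ≠ u.1 ∧ s ∈ Λ ∧ ({s, u.1} : Set V) = {y.1, z.1} ∧
      (y.1 = s ∨ y.1 = u.1) ∧ (y.1 = u.1 → z.1 = s) := by
    rcases hu with hu | hu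
    · exact ⟨z.1, hu ▸ yz.symm, mz, by rw [hu, pair_comm], Or.inr hu.symm, fun _ => rfl⟩
    · exact ⟨y.1, hu ▸ yz, my, by rw [hu], Or.inl rfl, fun e => absurd (e.trans hu) yz⟩
  have mu : u.1 ∈ Λ := hu.elim (fun e => e ▸ my) fun e => e ▸ mz
  have e' : y :: z :: w :: l = [] ++ y :: z :: (E ++ [u]) ++ T := by simp [e]
  have hx2 : ¬ Y.On {s, u.1} (opp x) := by
    rw [hs]
    rintro ⟨p, hp | hp, h⟩
    exacts [Sys.not_on_opp hx ⟨p, hp, h⟩, hz' ⟨p, hp, h⟩]
  have he : ev PresentedGroup.of (y :: z :: (E ++ [u])) ∈ Par m {s, u.1} := by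
    rw [hs]
    refine ev_mem fun v hv => ?_
    simp only [List.mem_cons, List.mem_append, List.not_mem_nil, or_false] at hv
    rcases hv with rfl | rfl | hv | rfl
    exacts [Or.inl rfl, Or.inr rfl, hE v hv, hu]
  have two : ∀ p ∈ Λ, ∀ q ∈ Λ, ¬ ∃ α β : ℤ, ev (PresentedGroup.of : V → Art m)
      (y :: z :: (E ++ [u])) = PresentedGroup.of p ^ α * PresentedGroup.of q ^ β := by
    rintro p hp q hq ⟨α, β, h⟩
    simpa using hG.sh _ _ _ [(p, α), (q, β)] e' (by simp [hp, hq]) (by rw [h]; simp [ev])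
  have three : ∀ p ∈ Λ, ∀ q ∈ Λ, ∀ α γ β : ℤ, ev (PresentedGroup.of : V → Art m)
      (y :: z :: (E ++ [u])) = PresentedGroup.of p ^ α * PresentedGroup.of q ^ γ *
        PresentedGroup.of p ^ β → E = [] := fun p hp q hq α γ β h => by
    have := hG.sh _ _ _ [(p, α), (q, γ), (p, β)] e' (by simp [hp, hq])
      (by rw [h]; simp [ev, mul_assoc])
    simp only [List.length_cons, List.length_append, List.length_nil] at this
    exact List.eq_nil_of_length_eq_zero (by omega)
  by_contra hn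
  have hn' := hn
  rw [e', List.nil_append, St_append] at hn'
  have R1 := fun hS => h3 V M m n Y s u.1 y.1 i _ x _ hL.1 st (hL.2 _ ms _ mu st).1
    (hL.2 _ ms _ mu st).2 hS hi hx hx2 he hn'
  rcases T with _ | ⟨c, T⟩
  · have ut : u.1 = t₀ := last (tail (y :: z :: E) (by rwa [e] at hG))
    have R := R1 fun j hj => ⟨_, Y.mrf _ false, Sys.not_on_mr _ _ _, by rw [ut]; exact seed0 hj⟩
    rcases as with as | as
    · exact two _ mu _ ms (R.1 as)
    · obtain ⟨α, γ, β, h⟩ := R.2 as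
      simpa using hG.la [] _ [(s, α), (u.1, γ)] (PresentedGroup.of s ^ β)
        (pw (X := Λ \ {t₀}) ⟨ms, ut ▸ st⟩ _) (e'.trans (List.append_nil _)) (by simp [ms, mu])
        (by rw [h]; simp [ev])
  have ic : Iv Y t₀ c T := ih (z :: (E ++ [u])) c T (by simp [e])
  have mc : c.1 ∈ Λ := hG.mem c (by simp [e])
  have cs : c.1 ≠ s ∧ c.1 ≠ u.1 := by
    have : c.1 ∉ ({s, u.1} : Set V) := by rw [hs]; exact hT c rfl
    simpa using this
  by_cases hd : ∀ d ∈ T.head?, d.1 ≠ u.1
  · have R := R1 (seed hL mc mu cs ic hd)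
    rcases as with as | as
    · exact two _ mu _ ms (R.1 as)
    obtain ⟨α, γ, β, h⟩ := R.2 as
    obtain rfl := three _ ms _ mu _ _ _ h
    obtain ⟨rfl, rfl⟩ := List.cons.inj e
    obtain rfl := bs as
    by_cases hd' : ∀ d ∈ T.head?, d.1 ≠ z.1
    · exact hn (direct h1 h2 hL hG cs.1 hd' ic (ih [z] _ _ rfl) hi hx hz')
    · obtain ⟨d, T, rfl, dz⟩ : ∃ d T', T = d :: T' ∧ d.1 = z.1 := by
        rcases T with _ | ⟨d, T⟩
        · simp at hd'
        · exact ⟨d, T, rfl, by simpa using hd'⟩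
      exact st ((hG.sc [] y z w c d T (z.1, α) (w.1, γ) (z.1, β) rfl ms mu dz.symm
        (h.trans (by simp [ev, mul_assoc]))).trans dz).symm
  · have hd' : ∀ d ∈ T.head?, d.1 ≠ s := by
      rcases T with _ | ⟨d, T⟩
      · simp
      · obtain e : d.1 = u.1 := by simpa using hd
        simpa [e] using st.symm
    rw [pair_comm] at hx2 he
    have R := h3 V M m n Y u.1 s y.1 i _ x _ hL.1 st.symm (hL.2 _ mu _ ms st.symm).1
      (hL.2 _ mu _ ms st.symm).2 (seed hL mc ms cs.symm ic hd') hi hx hx2 he hn'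
    rcases as with as | as
    · obtain ⟨α, γ, β, h⟩ := R.2 as
      obtain rfl := three _ mu _ ms _ _ _ h
      obtain ⟨rfl, -⟩ := List.cons.inj e
      exact st (as.symm.trans wy.symm)
    · exact two _ ms _ mu (R.1 as)

end In

open In in
theorem inn (h1 : S_G1) (h2 : S_G2) (h3 : S_R) : S_IN := by
  intro V M m n Y Λ t₀ hL y l hG
  change Iv Y t₀ y l
  induction hk : l.length using Nat.strong_induction_on generalizing y l with
  | _ k ih =>
    refine step h1 h2 h3 hL hG fun A y' l' e => ih l'.length ?_ y' l' ?_ rfl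
    · rw [← hk, e]
      simp
      omega
    · exact tail (y :: A) (by rwa [e] at hG)

end Pool.Agent.MP_6eaae3_al.LT

end MrgPart7

-- ======== part 8: formerly Pool.Agent.MP_6eaae3_al.LT.Gl
section MrgPart8

/-! Detection of double cosets in a clique of large type. -/

namespace Pool.Agent.MP_6eaae3_al.LT

open FreeGroup (of)
open Set

open Classical in
theorem Gl.mem_wd {L : Type} {S : Set L} {w : FreeGroup L} : w ∈ Fre S ↔ ∀ a ∈ wd w, a.1 ∈ S :=
  mem_Fre_word

theorem gl (h1 : S_OP) (h2 : S_IN) : S_GL := by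
  intro V M m n Y Λ s t L hn g hg ng
  obtain ⟨p, hp, q, hq, l, rfl, gd, hd⟩ := h1 V (Art m) PresentedGroup.of Λ s t g hg
  obtain _ | ⟨y, l⟩ := l
  · exact (ng ⟨p, hp, q, hq, by simp [ev]⟩).elim
  obtain rfl := hd y rfl
  obtain ⟨_, ⟨w, hw, rfl⟩, h⟩ := h2 V M m n Y Λ t L y l gd 0 hn _ (Y.mrf (y.1, 0) true)
    (fun e => Y.mrn _ (congrArg Prod.fst e)) fun _ _ => Sys.not_on_mr _ _ _
  refine ⟨w, hw, fun e => ?_⟩
  have a : Y.ψ q w = w := by
    obtain ⟨i, hi, rfl⟩ := hw
    have : ∀ b, Y.ψ q (of ((Y.mr (t, i) false, true), b)) = of ((Y.mr (t, i) false, true), b) :=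
      fun b => Sys.par_fix hq fun o u v => by
        obtain rfl : o = (Y.mr (t, i) false, false) := by
          rw [← opp_opp o, show opp o = _ from congrArg Prod.fst v]; rfl
        exact ((Sys.on_iff (Y.mrf _ _)).1 u).1.2 rfl
    rw [map_mul, map_inv, oo, ii, this, this]
  have b := Sys.par_map (Y := Y) (X := Λ \ {y.1}) (by
    rintro z hz rfl
    exact ((Sys.on_iff (Y.mrf _ _)).1 hz).1.2 rfl) (inv_mem hp) e
  rw [Y.ψ_mul, Y.ψ_mul, Y.ψ_inv, a, Gl.mem_wd] at b
  rcases h with h | h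
  exacts [b _ (h.subset (List.mem_cons_of_mem _ List.mem_cons_self)) rfl,
    b _ (h.subset List.mem_cons_self) rfl]

theorem dc (h1 : S_TS) (h2 : S_GL) : S_DC := by
  classical
  intro V _ m Λ sym n1 h3 s hs t ht lo
  obtain ⟨n, n3, hn⟩ := Cl.exists_mult' n1
  obtain ⟨R, Y, mk, ne, H⟩ := h1 V m n lo sym hn
  refine ⟨_, R, insert (Y.mr (s, 0) true) ((Finset.range n).image fun i => Y.mr (t, i) false),
    fun ν => decide (ν ≠ Y.mr (s, 0) true), fun ν hν => ?_, ?_⟩
  · rcases Finset.mem_insert.1 hν with rfl | hν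
    · exact mk _ _ _ (by simp [hs])
    · obtain ⟨i, -, rfl⟩ := Finset.mem_image.1 hν
      exact mk _ _ _ (by simp [(ne _ _).symm, ht])
  rintro g _ _ ⟨rfl, rfl, hg, ng⟩
  obtain ⟨_, ⟨i, hi, rfl⟩, h⟩ := h2 V _ m n Y Λ s t ⟨sym, fun a u b v e =>
    ⟨h3 a u b v e, hn a b e (by have := h3 a u b v e; omega)⟩⟩ (by omega) g hg ng
  exact ⟨_, Finset.mem_insert_of_mem (Finset.mem_image.2 ⟨i, Finset.mem_range.2 hi, rfl⟩), _,
    Finset.mem_insert_self _ _, by simp [(ne _ _).symm], by simp, fun e => h (H g _ _ e)⟩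

end Pool.Agent.MP_6eaae3_al.LT

end MrgPart8

-- ======== part 9: formerly Pool.Agent.MP_6eaae3_al.LT.Ts
section MrgPart9

/-! The system of curves of the plumbing. -/

namespace Pool.Agent.MP_6eaae3_al.LT

open FreeGroup (of)
open Set

namespace Ts

variable {M V : Type}

def jv (x : M × Fin 4) : FG M :=
  if x.2 = 0 then (ii (x.1, false))⁻¹ * oo (x.1, false)
  else if x.2 = 1 then (ii (x.1, false))⁻¹ * ii (x.1, true)
  else if x.2 = 2 then (ii (x.1, false))⁻¹ * oo (x.1, true) else 1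

def jj : FL M →* FG M := FreeGroup.lift jv

@[simp] theorem jj_ld (μ : M) : jj (ld μ) = (ii (μ, false))⁻¹ * oo (μ, false) := by simp [jj, ld, jv]
@[simp] theorem jj_lb (μ : M) : jj (lb μ) = (ii (μ, false))⁻¹ * ii (μ, true) := by simp [jj, lb, jv]
@[simp] theorem jj_lt (μ : M) : jj (lt μ) = (ii (μ, false))⁻¹ * oo (μ, true) := by simp [jj, lt, jv]
@[simp] theorem jj_lz (μ : M) : jj (lz μ) = 1 := by simp [jj, lz, jv]

theorem jj_out (o : M × Bool) : jj (out true o) = (ii (o.1, false))⁻¹ * oo o := by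
  obtain ⟨μ, _ | _⟩ := o <;> simp [out]

theorem jj_inl (o : M × Bool) : jj (inl o) = (ii o)⁻¹ * ii (o.1, false) := by
  obtain ⟨μ, _ | _⟩ := o <;> simp [inl]

theorem jj_pth (l : List (M × Bool)) : jj (pth true l) = pp l := by
  induction l with
  | nil => simp
  | cons x l ih => simp only [pth_cons, pp_cons, map_mul, jj_out, jj_inl, ih]; group

def old (z : Lt M) : FL M :=
  if z.1.2 then (if z.2 then lt z.1.1 else lb z.1.1) else if z.2 then ld z.1.1 else 1

theorem of_eq (z : Lt M) : ii (z.1.1, false) * jj (old z) = of z := by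
  obtain ⟨⟨μ, _ | _⟩, _ | _⟩ := z <;> simp [old, ii, oo]

theorem jj_mem {μ : M} {w : FL M} (h : w ∈ Fre {(μ, 0)}ᶜ) :
    jj w ∈ Fre {((μ, false), true)}ᶜ :=
  Fre.map_mem _ (fun x hx => by
    obtain ⟨ν, k⟩ := x
    have a : ∀ b, ii (ν, b) ∈ Fre ({((μ, false), true)}ᶜ : Set (Lt M)) :=
      fun b => of_mem_Fre (by simp)
    rw [jj, FreeGroup.lift_apply_of, jv]
    split_ifs with h0 h1 h2
    · obtain rfl : k = 0 := h0
      exact mul_mem (inv_mem (a _)) (of_mem_Fre (by simpa using hx))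
    · exact mul_mem (inv_mem (a _)) (a _)
    · exact mul_mem (inv_mem (a _)) (of_mem_Fre (by simp))
    · exact one_mem _) h

/-- Automorphisms that conjugate the letters of the last kind. -/
def Cj (M : Type) : Subgroup (MulAut (FL M)) where
  carrier := {φ | ∀ μ, ∃ c, φ (lz μ) = c * lz μ * c⁻¹}
  one_mem' := fun μ => ⟨1, by simp⟩
  mul_mem' := fun {φ φ'} h h' μ => by
    obtain ⟨c, e⟩ := h μ
    obtain ⟨c', e'⟩ := h' μ
    exact ⟨φ c' * c, by simp only [MulAut.mul_apply, e', map_mul, map_inv, e]; group⟩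
  inv_mem' := fun {φ} h μ => by
    obtain ⟨c, e⟩ := h μ
    refine ⟨(φ⁻¹ c)⁻¹, φ.injective ?_⟩
    simp only [map_mul, map_inv, MulAut.apply_inv_self, e]; group

variable {m : V → V → ℕ} {n lo hi : ℕ} (R : Rep m lo hi)

theorem psi_lz (g : Art m) (μ) : jj (R.ψ g (lz μ)) = 1 := by
  obtain ⟨c, e⟩ := R.all (K := Cj _) (fun A _ s μ => ⟨A.lf s (μ, 3), by
    rw [lz, Rec.tau_of, Rec.rg, if_pos rfl]⟩) g μ
  simp [e]

theorem psi_lt (g : Art m) (μ) : R.ψ g (lt μ) = lt μ :=
  R.all (K := MulAction.stabilizer _ (lt μ)) (fun _ _ s => Rec.tau_lt s μ) g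

noncomputable def ps (g : Art m) : FG (Nm V) →* FG (Nm V) :=
  FreeGroup.lift fun z => ii (z.1.1, false) * jj (R.ψ g (old z))

theorem ps_of (g : Art m) (z) : ps R g (of z) = ii (z.1.1, false) * jj (R.ψ g (old z)) :=
  FreeGroup.lift_apply_of

theorem ps_l (g : Art m) (μ) : ps R g (ii (μ, false)) = ii (μ, false) := by
  rw [ii, ps_of]; simp [old, ii]

theorem ps_jj (g : Art m) (w) : ps R g (jj w) = jj (R.ψ g w) :=
  Fre.eq ((ps R g).comp jj) (jj.comp (R.ψ g).toMonoidHom) (fun x _ => by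
    obtain ⟨μ, k⟩ := x
    have a : ∀ z : Lt (Nm V), ps R g ((ii (z.1.1, false))⁻¹ * of z) = jj (R.ψ g (old z)) := fun z => by
      rw [map_mul, map_inv, ps_l, ps_of, inv_mul_cancel_left]
    fin_cases k
    · exact (congrArg _ (jj_ld μ)).trans (a ((μ, false), true))
    · exact (congrArg _ (jj_lb μ)).trans (a ((μ, true), false))
    · exact (congrArg _ (jj_lt μ)).trans (a ((μ, true), true))
    · exact ((congrArg (ps R g) (jj_lz μ)).trans (map_one _)).trans (psi_lz R g μ).symm) (mem_Fre_univ w)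

noncomputable def psi : Art m →* Monoid.End (FG (Nm V)) where
  toFun := ps R
  map_one' := FreeGroup.ext_hom _ _ fun z => by
    rw [ps_of, map_one, MulAut.one_apply, of_eq]; rfl
  map_mul' := fun g h => FreeGroup.ext_hom _ _ fun z => by
    show _ = ps R g (ps R h (of z))
    rw [ps_of, ps_of, map_mul, map_mul, ps_l, ps_jj, MulAut.mul_apply]

variable (m n lo)

open Classical in
noncomputable def cols [Finite V] (p : V × ℕ) : List V :=
  (toFinite {b | Adj m n (b, p.2 - 1) p ∧ Adj m n p (b, p.2 + 1)}).toFinset.toList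

noncomputable def beg [Finite V] (p : V × ℕ) : List (Nm V × Bool) :=
  (cols m n p).flatMap fun b => [(cr lo (b, p.2 - 1) p, true), (cr lo p (b, p.2 + 1), false)]

variable {m n lo}

theorem aj {p q : V × ℕ} : Cl.Aj m n (fun _ _ => 1) p q ↔ Adj m n p q := Iff.rfl

theorem mem_cols [Finite V] {p : V × ℕ} {b} :
    b ∈ cols m n p ↔ Adj m n (b, p.2 - 1) p ∧ Adj m n p (b, p.2 + 1) := by simp [cols]

theorem ini_nd [Finite V] (p : V × ℕ) : (beg m n lo p).Nodup :=
  List.nodup_flatMap.2 ⟨fun b _ => by simp, (Finset.nodup_toList _).imp fun {a b} h => by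
    simp [Function.onFun, List.disjoint_left, cr, h]⟩

theorem ini_mem [Finite V] (p : V × ℕ) : ∀ c ∈ beg m n lo p, c ∈ Cl.Ce m n lo (fun _ _ => 1) p := by
  intro c hc
  obtain ⟨b, hb, hc⟩ := List.mem_flatMap.1 hc
  rw [mem_cols] at hb
  simp only [List.mem_cons, List.not_mem_nil, or_false] at hc
  rcases hc with rfl | rfl
  exacts [Or.inr (Or.inl ⟨_, aj.2 hb.1, rfl⟩), Or.inl ⟨_, Or.inl (aj.2 hb.2), rfl⟩]

theorem ini_adj [Finite V] {o p q : V × ℕ} (a : Adj m n o p) (b : Adj m n p q) (e : o.1 = q.1) :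
    ∃ l l', beg m n lo p = l ++ (cr lo o p, true) :: (cr lo p q, false) :: l' := by
  obtain ⟨c, i⟩ := o
  obtain ⟨c', j⟩ := q
  obtain rfl : c = c' := e
  obtain rfl : j = p.2 + 1 := b.2.1
  obtain rfl : i = p.2 - 1 := by have := a.2.1; simp only at this; omega
  obtain ⟨l, l', e⟩ := List.append_of_mem (mem_cols.2 ⟨a, b⟩)
  exact ⟨_, _, by rw [beg, e, List.flatMap_append, List.flatMap_cons]; rfl⟩

variable (B : Cl.Bs m n lo fun _ _ => 1)

theorem uq {p q x} (a : x ∈ (B.A p).cells) (b : x ∈ (B.A q).cells) : p = q := by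
  rcases (B.mem _ _).1 a with ⟨o, u, rfl⟩ | ⟨o, u, rfl⟩ | rfl
  exacts [(B.f_cr.1 b).1.symm, (B.t_cr.1 b).1.symm, (B.f_mq.1 b).symm]

open Classical in
noncomputable def el (o : Nm V × Bool) : FG (Nm V) :=
  if h : ∃ p, o ∈ (B.A p).cells then
    ii (o.1, false) * jj ((B.A h.choose).ell true o) * (ii (o.1, false))⁻¹ else 1

theorem el_eq {p o} (h : o ∈ (B.A p).cells) :
    el B o = ii (o.1, false) * jj ((B.A p).ell true o) * (ii (o.1, false))⁻¹ := by
  have a : ∃ p, o ∈ (B.A p).cells := ⟨p, h⟩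
  rw [el, dif_pos a, uq B a.choose_spec h]

end Ts

open Ts in
theorem ts : S_TS := by
  intro V _ m n lo sym hn
  obtain ⟨B, ord⟩ := Cl.exists_bs (m := m) (n := n) (lo := lo) (lv := fun _ _ => 1) (beg m n lo)
    ini_nd ini_mem
  have hl : ∀ (s t : V) i, (fun _ _ => (1 : Equiv.Perm ℕ)) s t i < n ↔ i < n := fun _ _ _ => Iff.rfl
  let R := B.rep sym hn hl
  have rψ : ∀ v, R.ψ (PresentedGroup.of v) = B.tw v := B.rep_ψ
  let Y : Sys m n (Nm V) :=
    { cl := fun p => (B.A p).cells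
      ell := Ts.el B
      ψ := Ts.psi R
      cr := cr lo
      mr := fun p k => cr lo p (p.1, if k then 0 else 1)
      nd := fun p => (B.A p).nd
      uq := fun p q x => Ts.uq B
      el := fun p l o l' e => by
        rw [el_eq B (p := p) (by simp [e]), Rec.ell_eq true e]
        simp only [map_mul, jj_out, jj_inl, jj_pth]; group
      mv := fun p o a h => by
        have : B.tw p.1 (old (rx o)) = (B.A p).ell true o * old (rx o) := by
          obtain ⟨μ, _ | _⟩ := o
          exacts [B.tw_lb a h, B.tw_ld a h]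
        show ps R _ _ = _
        rw [ps_of, rψ, this, el_eq B h, ← of_eq (rx o), map_mul]
        show ii (o.1, false) * _ = _ * (ii (o.1, false) * _)
        group
      fx := fun v z h => by
        have : B.tw v (old z) = old z := by
          obtain ⟨⟨μ, _ | _⟩, _ | _⟩ := z
          · exact map_one _
          · exact pr_fix fun i a => Rec.tau_ld' _ fun e => h (v, i) _ rfl a e rfl
          · exact pr_fix fun i a => Rec.tau_lb' _ fun e => h (v, i) _ rfl a e rfl
          · exact B.tw_lt _ _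
        show ps R _ _ = _
        rw [ps_of, rψ, this, of_eq]
      crf := fun p q a => B.f_cr.2 ⟨rfl, Or.inl a⟩
      crt := fun p q a => B.t_cr.2 ⟨rfl, a⟩
      bo := fun μ q a => by
        rcases (B.mem _ _).1 a with ⟨o, u, e⟩ | ⟨o, u, e⟩ | e <;> cases e
        exact ⟨o, u, rfl⟩
      adj := fun o p q a b e => by
        obtain ⟨r, h⟩ := ord p
        obtain ⟨l, l', h'⟩ := ini_adj (lo := lo) a b e
        exact ⟨l, l' ++ r, by rw [h, h']; simp⟩
      mrf := fun p k => B.f_cr.2 ⟨rfl, Or.inr ⟨rfl, by cases k <;> simp⟩⟩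
      mrt := fun p k q a => (B.t_cr.1 a).2.1 rfl
      mrn := fun p => by simp [cr] }
  refine ⟨R, Y, fun p k X h => B.mark p _ h, fun p q => by simp [Y, cr], fun g ν μ h => ?_⟩
  have e : (oo (ν, true))⁻¹ * ii (ν, true) = jj ((lt ν)⁻¹ * lb ν) := by
    simp only [map_mul, map_inv, jj_lt, jj_lb]; group
  show ps R g _ ∈ _
  rw [e, ps_jj, map_mul, map_inv, psi_lt]
  exact jj_mem (mul_mem (inv_mem (of_mem_Fre (by simp))) h)

end Pool.Agent.MP_6eaae3_al.LT

end MrgPart9

-- marker of a merged file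
example : 731051 + 677769 = 731051 + 677769 := rfl
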