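import Pool.Agent.MP_6eaae3_al.LT.Ch
import Pool.Agent.MP_6eaae3_al.LT.Ts

/-! Detection of double cosets for cliques of large type. -/

namespace Pool.Agent.MP_6eaae3_al.LT

theorem lemR : S_R := ras (g1 fg) (ch (tr fg)) (pc hk) (pd we w1 w3 mi lk)

theorem dc_large : S_DC := dc ts (gl op (inn (g1 fg) (g2 (tr fg)) lemR))

end Pool.Agent.MP_6eaae3_al.LT
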