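import Pool.Agent.MP_6eaae3_al.Cl.Lin

-- ======== part 0: formerly Pool.Agent.MP_6eaae3_al.LT.Spec
section MrgPart0

/-! Definitions and statements for cliques all of whose labels are at least three. -/

namespace Pool.Agent.MP_6eaae3_al.LT

open FreeGroup (of)
open Set

variable {M V L G H : Type}

/-- A letter is a cell together with a side: `true` is the exit, `false` is the entry. -/
abbrev Lt (M : Type) := (M × Bool) × Bool
abbrev FG (M : Type) := FreeGroup (Lt M)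

def opp (x : M × Bool) : M × Bool := (x.1, !x.2)
def oo (x : M × Bool) : FG M := of (x, true)
def ii (x : M × Bool) : FG M := of (x, false)
def pp (l : List (M × Bool)) : FG M := (l.map fun x => (ii x)⁻¹ * oo x).prod
/-- The letter moved by the twist along the curve through the cell `o`. -/
def rx (o : M × Bool) : Lt M := (opp o, o.2)

open Classical in
noncomputable def wd (w : FreeGroup L) : List (L × Bool) := w.toWord

def Has (w : FreeGroup L) (k : List (L × Bool)) : Prop := k <:+: wd w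

/-- Some reduced path of `S` passes through the cell `x`, in one of the two directions. -/
def Thr (S : Set (FG M)) (x : M × Bool) : Prop :=
  ∃ w ∈ S, Has w [((x, false), false), ((x, true), true)] ∨ Has w [((x, true), false), ((x, false), true)]

def Bad [Group H] (o : H) (K : Subgroup H) (w : H) : Prop :=
  ∃ κ ∈ K, w = κ ∨ w = o * κ ∨ w = κ * o⁻¹ ∨ w = o * κ * o⁻¹

/-- The curves of the plumbing and the action of the Artin group on paths. -/
structure Sys (m : V → V → ℕ) (n : ℕ) (M : Type) where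
  cl : V × ℕ → List (M × Bool)
  ell : M × Bool → FG M
  ψ : Art m →* Monoid.End (FG M)
  cr : V × ℕ → V × ℕ → M
  mr : V × ℕ → Bool → M
  nd : ∀ p, ((cl p).map Prod.fst).Nodup
  uq : ∀ p q x, x ∈ cl p → x ∈ cl q → p = q
  el : ∀ p l o l', cl p = l ++ o :: l' → ell o = oo o * pp l' * pp l * (ii o)⁻¹
  mv : ∀ p o, p.2 < n → o ∈ cl p → ψ (PresentedGroup.of p.1) (of (rx o)) = ell o * of (rx o)
  fx : ∀ a z, (∀ p o, p.1 = a → p.2 < n → o ∈ cl p → rx o ≠ z) → ψ (PresentedGroup.of a) (of z) = of z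
  crf : ∀ p q, Adj m n p q → (cr p q, false) ∈ cl p
  crt : ∀ p q, Adj m n p q → (cr p q, true) ∈ cl q
  bo : ∀ μ q, (μ, true) ∈ cl q → ∃ p, Adj m n p q ∧ μ = cr p q
  adj : ∀ o p q, Adj m n o p → Adj m n p q → o.1 = q.1 →
    ∃ l l', cl p = l ++ (cr o p, true) :: (cr p q, false) :: l'
  mrf : ∀ p k, (mr p k, false) ∈ cl p
  mrt : ∀ p k q, (mr p k, true) ∉ cl q
  mrn : ∀ p, mr p true ≠ mr p false

namespace Sys

variable {m : V → V → ℕ} {n : ℕ} (Y : Sys m n M)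

/-- The cell `x` lies on a curve with colour in `X`. -/
def On (X : Set V) (x : M × Bool) : Prop := ∃ p : V × ℕ, p.1 ∈ X ∧ p.2 < n ∧ x ∈ Y.cl p

def C (X : Set V) : Set (Lt M) := {z | Y.On X z.1}

def im (g : Art m) (S : Set (FG M)) : Set (FG M) := Y.ψ g '' S

def lam (g : Art m) (z : Lt M) : FG M := Y.ψ g (of z) * (of z)⁻¹

/-- Every `t`-curve is crossed by `S` at a cell that is not a crossing of `s`- and `t`-curves. -/
def Seed (S : Set (FG M)) (s t : V) : Prop :=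
  ∀ i < n, ∃ y ∈ Y.cl (t, i), ¬ Y.On {s, t} (opp y) ∧ Thr S (opp y)

end Sys

def S_FG : Prop := ∀ (L : Type) (C : Set L) (φ : FreeGroup L →* FreeGroup L), Function.Injective φ →
  (∀ z ∈ C, φ (of z) ∈ Fre C) → (∀ z ∉ C, φ (of z) * (of z)⁻¹ ∈ Fre C) →
  ∀ (w : FreeGroup L) (a b : L), a ∉ C → b ∉ C → Has w [(a, false), (b, true)] →
    Has (φ w) ((a, false) :: wd ((φ (of a) * (of a)⁻¹)⁻¹ * (φ (of b) * (of b)⁻¹)) ++ [(b, true)])

def S_G1 : Prop := ∀ (V M : Type) (m : V → V → ℕ) (n : ℕ) (Y : Sys m n M) (X : Set V) (g : Art m)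
  (S : Set (FG M)) (x : M × Bool), g ∈ Par m X → ¬ Y.On X x → ¬ Y.On X (opp x) → Thr S x →
    Thr (Y.im g S) x

def S_TR : Prop := ∀ (V M : Type) (m : V → V → ℕ) (n : ℕ) (Y : Sys m n M) (X : Set V) (g : Art m)
  (S : Set (FG M)) (x y : M × Bool), g ∈ Par m X → Y.On X y → ¬ Y.On X (opp y) → Thr S (opp y) →
    ¬ Y.On X (opp x) → ¬ Thr (Y.im g S) x →
      (x ≠ y → Y.lam g (rx y) ∈ Fre {(x, true)}ᶜ) ∧ Bad (oo x) (Fre {(x, true)}ᶜ) (Y.lam g (rx y))

def S_G2 : Prop := ∀ (V M : Type) (m : V → V → ℕ) (n : ℕ) (Y : Sys m n M) (p : V × ℕ) (k : ℤ)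
  (S : Set (FG M)) (x y : M × Bool), p.2 < n → x ∈ Y.cl p → y ∈ Y.cl p → x ≠ y → k ≠ 0 →
    Thr S (opp y) → Thr (Y.im (PresentedGroup.of p.1 ^ k) S) x

/-- The loops `f`, half loops `v` and transverse arcs `W` of a chain of `N` curves. The curve `k`
has the colour `yy s t (k + p)`. -/
structure Pu [Group G] (s t : G) (N : ℕ) (p : ℤ) where
  f : G → ℕ → FreeGroup ℕ
  v : G → ℕ → FreeGroup ℕ
  W : G → ℕ → FreeGroup ℕ
  f1 : ∀ k, 1 ≤ k → k ≤ N → f 1 k = of k ∧ v 1 k = 1 ∧ W 1 k = 1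
  f0 : ∀ g, f g 0 = 1 ∧ f g (N + 1) = 1
  own : ∀ g ∈ Subgroup.closure {s, t}, ∀ k : ℕ, 1 ≤ k → k ≤ N →
    f (g * yy s t (k + p)) k = f g k ∧ v (g * yy s t (k + p)) k = v g k
  oth : ∀ g ∈ Subgroup.closure {s, t}, ∀ k : ℕ, 1 ≤ k → k ≤ N →
    f (g * yy s t (k + p + 1)) k = f g (k + 1) * f g k * (f g (k - 1))⁻¹ ∧
      v (g * yy s t (k + p + 1)) k = f g (k + 1) * v g k
  arc : ∀ g ∈ Subgroup.closure {s, t}, ∀ k : ℕ, 1 ≤ k → k ≤ N → (k + p) % 2 = 1 →
    W (g * t) k = (v g k)⁻¹ * f g k * v g k * W g k ∧ W (g * s) k = W g k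

def Pu.Hyp [Group G] {s t : G} {N : ℕ} {p : ℤ} (P : Pu s t N p) (j : ℕ) (e : G) : Prop :=
  ∀ i : ℕ, 1 ≤ i → i ≤ N → (i + p) % 2 = 1 →
    (i ≠ j → P.W e i ∈ Fre {j}ᶜ) ∧ Bad (of j) (Fre {j}ᶜ) (P.W e i)

def Tri (h : ℤ) : Prop := h = -1 ∨ h = 0 ∨ h = 1

def S_HK : Prop := ∀ (G : Type) [Group G] (w x Δ : G) (N : ℕ) (s : ℕ → ℝ), Cheb N s → 2 ≤ N →
  (∀ i, aa w x i (N + 1) = Δ) → ∀ (f0 f1 : G → ℝ) (K : Subgroup G), w ∈ K → x ∈ K →
  (∀ g ∈ K, f0 (g * w) = f0 g ∧ f1 (g * w) = f1 g + s 2 * f0 g) →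
  (∀ g ∈ K, f1 (g * x) = f1 g ∧ f0 (g * x) = f0 g - s 2 * f1 g) → f0 1 = 1 → f1 1 = 0 →
  ∀ g ∈ Subgroup.closure {w, x}, (f1 g = 0 ∨ f1 g = s 2 ∨ f1 g = -s 2) →
    ∃ a k h b : ℤ, (k * (N + 1)) % 2 = 0 ∧ Tri h ∧ g = x ^ a * Δ ^ k * w ^ h * x ^ b

def S_PC : Prop := ∀ (G : Type) [Group G] (s t Δ : G) (N : ℕ) (p : ℤ) (P : Pu s t N p) (j : ℕ) (e : G),
  2 ≤ N → (∀ i, aa s t i (N + 1) = Δ) → 1 ≤ j → j ≤ N → e ∈ Subgroup.closure {s, t} → P.Hyp j e →
    ((j + p) % 2 = 0 → ∃ a k b : ℤ, e = t ^ a * Δ ^ k * s ^ b) ∧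
    ((j + p) % 2 = 1 → ∃ a k h b : ℤ, (k * (N + 1)) % 2 = 0 ∧ Tri h ∧ e = s ^ a * Δ ^ k * t ^ h * s ^ b)

/-- A calculus of first letters in a free product of `m` groups of order two. -/
structure Wc (m j : ℕ) (H : Type) [Group H] where
  X : ℕ → H
  K : Subgroup H
  St : ℕ → H → Prop
  sq : ∀ a, X a * X a = 1
  kk : ∀ a b, (a ≤ j ↔ b ≤ j) → X a * X b ∈ K
  s0 : St 0 1
  s1 : ∀ a b h, 1 ≤ a → a ≤ m → a ≠ b → St b h → St a (X a * h)
  nk : ∀ a b h, 1 ≤ a → a ≤ m → 1 ≤ b → b ≤ m → ¬ (a ≤ j ↔ b ≤ j) → St b h → X a * h ∉ K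

def dd [Group H] (X : ℕ → H) (i : ℕ) : H := pr (fun a => X (a + 1)) i

def DD [Group H] (X : ℕ → H) (m : ℕ) (k : ℤ) (i : ℕ) : H :=
  if k % 2 = 0 then dd X m ^ (-(k / 2)) * dd X i * dd X m ^ (k / 2)
  else dd X m ^ (-(k / 2)) * (dd X (m - i))⁻¹ * dd X m ^ (k / 2 + 1)

def DE [Group H] (X : ℕ → H) (m : ℕ) (k h : ℤ) (i : ℕ) : H :=
  if h = 0 then DD X m k i else if h = 1 then DD X m k (i - 1) * (DD X m k i)⁻¹ * DD X m k (i + 1)
  else DD X m k (i + 1) * (DD X m k i)⁻¹ * DD X m k (i - 1)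

def WW [Group H] (X : ℕ → H) (m : ℕ) (k h : ℤ) (i : ℕ) : H :=
  (dd X (i + 1))⁻¹ * DE X m k h i * X (i + 1)

def S_WE : Prop := ∀ m j : ℕ, ∃ (H : Type) (_ : Group H), Nonempty (Wc m j H)

/-- The case of positive powers. -/
def S_W1 : Prop := ∀ (m j : ℕ) (H : Type) [Group H] (c : Wc m j H) (k : ℤ), 3 ≤ m → 1 ≤ j → j < m →
  0 < k → ∃ i, 1 ≤ i ∧ i < m ∧ (i + j) % 2 = 1 ∧ WW c.X m k 0 i ∉ c.K

def S_W3 : Prop := ∀ (m j : ℕ) (H : Type) [Group H] (c : Wc m j H) (k h : ℤ), 3 ≤ m → 1 ≤ j → j < m →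
  0 < k → (k * m) % 2 = 0 → Tri h → ¬ (m = 3 ∧ k = 2 ∧ h = -1) → ¬ (m = 4 ∧ k = 1 ∧ h = -1) →
    (∃ i, 1 ≤ i ∧ i < m ∧ i ≠ j ∧ (i + j) % 2 = 0 ∧ WW c.X m k h i ∉ c.K) ∨
      ¬ Bad (c.X (j + 1) * c.X j) c.K (WW c.X m k h j)

/-- The mirror symmetry. -/
def S_MI : Prop := ∀ (H : Type) [Group H] (X : ℕ → H) (m : ℕ) (k h : ℤ) (i : ℕ), (∀ a, X a * X a = 1) →
  1 ≤ i → i < m → Tri h → WW (fun a => X (m + 1 - a)) m (-k) (-h) (m - i) =
    (X (i + 1) * X i)⁻¹ * WW X m k h i * (X (i + 1) * X i)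

def S_LK : Prop := ∀ (G : Type) [Group G] (s t Δ : G) (N : ℕ) (p : ℤ) (P : Pu s t N p),
  (∀ i, aa s t i (N + 1) = Δ) → ∀ (H : Type) [Group H] (X : ℕ → H), (∀ a, X a * X a = 1) →
    ∀ (k h : ℤ) (i : ℕ), 1 ≤ i → i ≤ N → (i + p) % 2 = 1 → Tri h →
      FreeGroup.lift (fun a => X (a + 1) * X a) (P.W (Δ ^ k * t ^ h) i) = WW X (N + 1) k h i

def S_PD : Prop := ∀ (G : Type) [Group G] (s t Δ : G) (N : ℕ) (p : ℤ) (P : Pu s t N p) (j : ℕ) (k : ℤ),
  2 ≤ N → (∀ i, aa s t i (N + 1) = Δ) → 1 ≤ j → j ≤ N →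
    ((j + p) % 2 = 0 → P.Hyp j (Δ ^ k) → k = 0) ∧
    ((j + p) % 2 = 1 → ∀ h, (k * (N + 1)) % 2 = 0 → Tri h → P.Hyp j (Δ ^ k * t ^ h) →
      ∃ a c b : ℤ, Δ ^ k * t ^ h = s ^ a * t ^ c * s ^ b)

def S_CH : Prop := ∀ (V M : Type) (m : V → V → ℕ) (n : ℕ) (Y : Sys m n M) (s t a : V) (i : ℕ)
  (S : Set (FG M)) (x : M × Bool), (∀ s t, m s t = m t s) → s ≠ t → 3 ≤ m s t → m s t - 1 ∣ n →
    Y.Seed S s t → (a = s ∨ a = t) → i < n → x ∈ Y.cl (a, i) → ¬ Y.On {s, t} (opp x) →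
      ∃ (p : ℤ) (j : ℕ) (P : Pu (PresentedGroup.of s : Art m) (PresentedGroup.of t) (m s t - 1) p),
        1 ≤ j ∧ j ≤ m s t - 1 ∧ a = yy s t (j + p) ∧
          ∀ e ∈ Par m {s, t}, ¬ Thr (Y.im e S) x → P.Hyp j e

def S_R : Prop := ∀ (V M : Type) (m : V → V → ℕ) (n : ℕ) (Y : Sys m n M) (s t a : V) (i : ℕ)
  (S : Set (FG M)) (x : M × Bool) (e : Art m), (∀ s t, m s t = m t s) → s ≠ t → 3 ≤ m s t →
    m s t - 1 ∣ n → Y.Seed S s t → i < n → x ∈ Y.cl (a, i) → ¬ Y.On {s, t} (opp x) →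
      e ∈ Par m {s, t} → ¬ Thr (Y.im e S) x →
        (a = s → ∃ α β : ℤ, e = PresentedGroup.of t ^ α * PresentedGroup.of s ^ β) ∧
        (a = t → ∃ α γ β : ℤ,
          e = PresentedGroup.of s ^ α * PresentedGroup.of t ^ γ * PresentedGroup.of s ^ β)

/-- The value of a word in syllables. -/
def ev [Group G] (r : V → G) (l : List (V × ℤ)) : G := (l.map fun y => r y.1 ^ y.2).prod

/-- Words that cannot be improved. -/
structure Gd [Group G] (r : V → G) (Λ : Set V) (t₀ : V) (l : List (V × ℤ)) : Prop where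
  mem : ∀ y ∈ l, y.1 ∈ Λ
  sh : ∀ A E T E', l = A ++ E ++ T → (∀ y ∈ E', y.1 ∈ Λ) → ev r E = ev r E' → E.length ≤ E'.length
  la : ∀ A E E', ∀ q ∈ Subgroup.closure (r '' (Λ \ {t₀})), l = A ++ E → (∀ y ∈ E', y.1 ∈ Λ) →
    ev r E = ev r E' * q → E.length ≤ E'.length
  sc : ∀ A a b c d e T x y z, l = A ++ a :: b :: c :: d :: e :: T → x.1 ∈ Λ → y.1 ∈ Λ → z.1 = e.1 →
    ev r [a, b, c] = ev r [x, y, z] → c.1 = e.1

def S_OP : Prop := ∀ (V G : Type) [Group G] (r : V → G) (Λ : Set V) (s₀ t₀ : V),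
  ∀ g ∈ Subgroup.closure (r '' Λ), ∃ p ∈ Subgroup.closure (r '' (Λ \ {s₀})),
    ∃ q ∈ Subgroup.closure (r '' (Λ \ {t₀})), ∃ l, g = p * ev r l * q ∧ Gd r Λ t₀ l ∧
      ∀ y ∈ l.head?, y.1 = s₀

/-- The arcs across the first marks of the `t`-curves. -/
def Sys.S0 {m : V → V → ℕ} {n : ℕ} (Y : Sys m n M) (t : V) : Set (FG M) :=
  {w | ∃ i < n, w = (oo (Y.mr (t, i) false, true))⁻¹ * ii (Y.mr (t, i) false, true)}

def Lg (m : V → V → ℕ) (n : ℕ) (Λ : Set V) : Prop :=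
  (∀ s t, m s t = m t s) ∧ ∀ s ∈ Λ, ∀ t ∈ Λ, s ≠ t → 3 ≤ m s t ∧ m s t - 1 ∣ n

def S_IN : Prop := ∀ (V M : Type) (m : V → V → ℕ) (n : ℕ) (Y : Sys m n M) (Λ : Set V) (t₀ : V),
  Lg m n Λ → ∀ (y : V × ℤ) (l : List (V × ℤ)), Gd (PresentedGroup.of : V → Art m) Λ t₀ (y :: l) →
    ∀ i < n, ∀ x ∈ Y.cl (y.1, i), x ≠ (Y.mr (y.1, i) false, false) →
      (∀ z ∈ l.head?, ¬ Y.On {z.1} (opp x)) → Thr (Y.im (ev PresentedGroup.of (y :: l)) (Y.S0 t₀)) x

def S_GL : Prop := ∀ (V M : Type) (m : V → V → ℕ) (n : ℕ) (Y : Sys m n M) (Λ : Set V) (s₀ t₀ : V),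
  Lg m n Λ → 0 < n → ∀ g ∈ Par m Λ, ¬ DC m (Λ \ {s₀}) (Λ \ {t₀}) g →
    ∃ w ∈ Y.S0 t₀, Y.ψ g w ∉ Fre {((Y.mr (s₀, 0) true, false), true)}ᶜ

def S_TS : Prop := ∀ (V : Type) [Finite V] (m : V → V → ℕ) (n lo : ℕ), (∀ s t, m s t = m t s) →
  (∀ s t, s ≠ t → m s t ≠ 0 → m s t - 1 ∣ n) → ∃ (R : Rep m lo (lo + 1)) (Y : Sys m n (Nm V)),
    (∀ p k X, p.1 ∈ X → R.Mark X (Y.mr p k)) ∧ (∀ p q, Y.mr p true ≠ Y.mr q false) ∧
      ∀ g ν μ, R.ψ g (lb ν) ∈ Fre {(μ, 0)}ᶜ →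
        Y.ψ g ((oo (ν, true))⁻¹ * ii (ν, true)) ∈ Fre {((μ, false), true)}ᶜ

def S_DC : Prop := ∀ (V : Type) [Finite V] (m : V → V → ℕ) (Λ : Set V), (∀ s t, m s t = m t s) →
  (∀ s t, s ≠ t → m s t ≠ 1) → (∀ s ∈ Λ, ∀ t ∈ Λ, s ≠ t → 3 ≤ m s t) →
    ∀ s ∈ Λ, ∀ t ∈ Λ, Dc m Λ {s} {t}

end Pool.Agent.MP_6eaae3_al.LT

end MrgPart0

-- ======== part 1: formerly Pool.Agent.MP_6eaae3_al.LT.Basic
section MrgPart1

/-! Basic facts on the action on paths. -/

namespace Pool.Agent.MP_6eaae3_al.LT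

open FreeGroup (of)
open Set

variable {M V : Type}

@[simp] theorem opp_opp (x : M × Bool) : opp (opp x) = x := by simp [opp]

theorem opp_ne (x : M × Bool) : opp x ≠ x := by obtain ⟨μ, _ | _⟩ := x <;> simp [opp]

theorem rx_inj {o o' : M × Bool} (h : rx o = rx o') : o = o' := by
  rw [← opp_opp o, show opp o = opp o' from congrArg Prod.fst h, opp_opp]

@[simp] theorem pp_nil : pp ([] : List (M × Bool)) = 1 := rfl
@[simp] theorem pp_cons (x) (l : List (M × Bool)) : pp (x :: l) = (ii x)⁻¹ * oo x * pp l := by simp [pp]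
@[simp] theorem pp_append (l l' : List (M × Bool)) : pp (l ++ l') = pp l * pp l' := by simp [pp]

theorem pp_mem {K : Subgroup (FG M)} {l : List (M × Bool)} (h : ∀ x ∈ l, (ii x)⁻¹ * oo x ∈ K) :
    pp l ∈ K := by
  induction l with
  | nil => exact one_mem _
  | cons x l ih => rw [pp_cons]; exact mul_mem (h x (by simp)) (ih fun y hy => h y (by simp [hy]))

theorem Thr.mono {S S' : Set (FG M)} {x} (h : Thr S x) (e : S ⊆ S') : Thr S' x :=
  let ⟨w, a, b⟩ := h; ⟨w, e a, b⟩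

theorem par_ind {m : V → V → ℕ} {X : Set V} {P : Art m → Prop} (h1 : P 1)
    (h : ∀ g ∈ Par m X, ∀ a ∈ X, P g → P (g * PresentedGroup.of a) ∧ P (g * (PresentedGroup.of a)⁻¹))
    {g} (hg : g ∈ Par m X) : P g := by
  induction hg using Subgroup.closure_induction_right with
  | one => exact h1
  | mul_right g hg y hy ih => obtain ⟨a, ha, rfl⟩ := hy; exact (h g hg a ha ih).1
  | mul_inv_cancel g hg y hy ih => obtain ⟨a, ha, rfl⟩ := hy; exact (h g hg a ha ih).2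

theorem par_pair {m : V → V → ℕ} (s t : V) :
    Par m {s, t} = Subgroup.closure {PresentedGroup.of s, PresentedGroup.of t} := by
  rw [Par, image_pair]

namespace Sys

variable {m : V → V → ℕ} {n : ℕ} (Y : Sys m n M)

theorem ψ_mul (g h : Art m) (w) : Y.ψ (g * h) w = Y.ψ g (Y.ψ h w) := by rw [map_mul]; rfl

theorem ψ_one (w) : Y.ψ 1 w = w := by rw [map_one]; rfl

theorem ψ_inv (g : Art m) (w) : Y.ψ g⁻¹ (Y.ψ g w) = w := by rw [← ψ_mul, inv_mul_cancel, ψ_one]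

theorem inj (g : Art m) : Function.Injective (Y.ψ g) := Function.LeftInverse.injective (Y.ψ_inv g)

theorem im_mul (g h : Art m) (S) : Y.im (g * h) S = Y.im g (Y.im h S) := by
  simp only [im, image_image, ψ_mul]

theorem im_one (S) : Y.im 1 S = S := by simp only [im, ψ_one, image_id']

variable {Y}

theorem On.mono {X X' : Set V} {x} (h : Y.On X x) (e : X ⊆ X') : Y.On X' x :=
  let ⟨p, a, b⟩ := h; ⟨p, e a, b⟩

theorem on_iff {p x} (h : x ∈ Y.cl p) {X : Set V} : Y.On X x ↔ p.1 ∈ X ∧ p.2 < n :=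
  ⟨fun ⟨q, a, b, c⟩ => Y.uq q p x c h ▸ ⟨a, b⟩, fun a => ⟨p, a.1, a.2, h⟩⟩

/-- Two curves through one square cross there. -/
theorem cross {p q x} (h : x ∈ Y.cl p) (h' : opp x ∈ Y.cl q) :
    (Adj m n p q ∧ x = (Y.cr p q, false)) ∨ (Adj m n q p ∧ x = (Y.cr q p, true)) := by
  obtain ⟨μ, _ | _⟩ := x
  · obtain ⟨o, a, rfl⟩ := Y.bo μ q h'
    obtain rfl := Y.uq _ _ _ h (Y.crf _ _ a)
    exact Or.inl ⟨a, rfl⟩
  · obtain ⟨o, a, rfl⟩ := Y.bo μ p h
    obtain rfl := Y.uq _ _ _ h' (Y.crf _ _ a)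
    exact Or.inr ⟨a, rfl⟩

theorem cross_ne {p q x} (h : x ∈ Y.cl p) (h' : opp x ∈ Y.cl q) : p.1 ≠ q.1 :=
  (cross h h').elim (fun a => a.1.1) fun a => a.1.1.symm

theorem not_on_opp {p x} (h : x ∈ Y.cl p) : ¬ Y.On {p.1} (opp x) :=
  fun ⟨_, a, _, c⟩ => cross_ne h c a.symm

theorem not_on_mr (X p k) : ¬ Y.On X (opp (Y.mr p k, false)) := fun ⟨q, _, _, c⟩ => Y.mrt p k q c

theorem ell_mem {p o} (h : o ∈ Y.cl p) : Y.ell o ∈ Fre {z : Lt M | z.1 ∈ Y.cl p} := by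
  obtain ⟨l, l', e⟩ := List.append_of_mem h
  have a : ∀ x ∈ Y.cl p, ∀ b, of (x, b) ∈ Fre {z : Lt M | z.1 ∈ Y.cl p} := fun x hx b => of_mem_Fre hx
  have b : ∀ x ∈ Y.cl p, (ii x)⁻¹ * oo x ∈ Fre {z : Lt M | z.1 ∈ Y.cl p} :=
    fun x hx => mul_mem (inv_mem (a x hx _)) (a x hx _)
  rw [Y.el p l o l' e]
  exact mul_mem (mul_mem (mul_mem (a o h _) (pp_mem fun x hx => b x (by simp [e, hx])))
    (pp_mem fun x hx => b x (by simp [e, hx]))) (inv_mem (a o h _))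

theorem ell_C {X : Set V} {o} (h : Y.On X o) : Y.ell o ∈ Fre (Y.C X) :=
  let ⟨p, a, b, c⟩ := h; Fre.mono (fun z hz => show Y.On X z.1 from ⟨p, a, b, hz⟩) (ell_mem c)

theorem fix_own {p x} (h : x ∈ Y.cl p) (b) : Y.ψ (PresentedGroup.of p.1) (of (x, b)) = of (x, b) :=
  Y.fx _ _ fun q o a _ c e => cross_ne c (p := q) (q := p) ((show opp o = x from congrArg Prod.fst e) ▸ h) a

theorem fix_ell {p o} (h : o ∈ Y.cl p) : Y.ψ (PresentedGroup.of p.1) (Y.ell o) = Y.ell o :=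
  Fre.fix _ (fun z hz => fix_own hz z.2) (ell_mem h)

theorem mv_inv {p o} (a : p.2 < n) (h : o ∈ Y.cl p) :
    Y.ψ (PresentedGroup.of p.1)⁻¹ (of (rx o)) = (Y.ell o)⁻¹ * of (rx o) :=
  Y.inj (PresentedGroup.of p.1) (by
    rw [← ψ_mul, mul_inv_cancel, ψ_one, map_mul, map_inv, fix_ell h, Y.mv p o a h, inv_mul_cancel_left])

/-- The action of a generator and of its inverse on a letter. -/
theorem gen_cases (a : V) (z : Lt M) :
    (Y.ψ (PresentedGroup.of a) (of z) = of z ∧ Y.ψ (PresentedGroup.of a)⁻¹ (of z) = of z) ∨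
      ∃ o, Y.On {a} o ∧ z = rx o ∧ Y.ψ (PresentedGroup.of a) (of z) = Y.ell o * of z ∧
        Y.ψ (PresentedGroup.of a)⁻¹ (of z) = (Y.ell o)⁻¹ * of z := by
  by_cases h : ∃ (p : V × ℕ) (o : M × Bool), p.1 = a ∧ p.2 < n ∧ o ∈ Y.cl p ∧ rx o = z
  · obtain ⟨p, o, rfl, b, c, rfl⟩ := h
    exact Or.inr ⟨o, ⟨p, rfl, b, c⟩, rfl, Y.mv p o b c, mv_inv b c⟩
  · have := Y.fx a z fun p o u v w e => h ⟨p, o, u, v, w, e⟩
    exact Or.inl ⟨this, by rw [← this, ψ_inv, this]⟩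

theorem par_fix {X : Set V} {g z} (hg : g ∈ Par m X) (h : ∀ o, Y.On X o → rx o ≠ z) :
    Y.ψ g (of z) = of z :=
  par_ind (P := fun g => Y.ψ g (of z) = of z) (Y.ψ_one _) (fun g _ a ha ih => by
    rcases gen_cases (Y := Y) a z with e | ⟨o, u, v, -⟩
    · simp only [ψ_mul, e, ih, and_self]
    · exact (h o (u.mono (by simpa using ha)) v.symm).elim) hg

theorem par_map {X : Set V} {D : Set (Lt M)} (hD : Y.C X ⊆ D) {g w} (hg : g ∈ Par m X)
    (hw : w ∈ Fre D) : Y.ψ g w ∈ Fre D :=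
  par_ind (P := fun g => ∀ w ∈ Fre D, Y.ψ g w ∈ Fre D) (fun w h => by rwa [ψ_one]) (fun g _ a ha ih => by
    have : ∀ z ∈ D, Y.ψ (PresentedGroup.of a) (of z) ∈ Fre D ∧
        Y.ψ (PresentedGroup.of a)⁻¹ (of z) ∈ Fre D := fun z hz => by
      rcases gen_cases (Y := Y) a z with e | ⟨o, u, -, e⟩
      · simp only [e, of_mem_Fre hz, and_self]
      · have := Fre.mono hD (ell_C (u.mono (by simpa using ha)))
        exact ⟨e.1 ▸ mul_mem this (of_mem_Fre hz), e.2 ▸ mul_mem (inv_mem this) (of_mem_Fre hz)⟩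
    exact ⟨fun w h => by rw [ψ_mul]; exact ih _ (Fre.map_mem _ (fun z hz => (this z hz).1) h),
      fun w h => by rw [ψ_mul]; exact ih _ (Fre.map_mem _ (fun z hz => (this z hz).2) h)⟩) hg w hw

theorem lam_mem {X : Set V} {g} (hg : g ∈ Par m X) (z) : Y.lam g z ∈ Fre (Y.C X) :=
  par_ind (P := fun g => Y.lam g z ∈ Fre (Y.C X)) (by simp [lam]) (fun g hg a ha ih => by
    rcases gen_cases (Y := Y) a z with e | ⟨o, u, -, e⟩
    · simpa only [lam, ψ_mul, e, and_self] using ih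
    · have := par_map Subset.rfl hg (ell_C (Y := Y) (u.mono (by simpa using ha)))
      rw [lam, lam, ψ_mul, ψ_mul, e.1, e.2, map_mul, map_mul, map_inv, mul_assoc, mul_assoc]
      exact ⟨mul_mem this ih, mul_mem (inv_mem this) ih⟩) hg

/-- Every curve crosses a curve of any other colour of the clique. -/
theorem nb (sym : ∀ s t, m s t = m t s) {s t : V} (ne : s ≠ t) (h3 : 3 ≤ m s t) (hn : m s t - 1 ∣ n)
    {i} (hi : i < n) : ∃ y ∈ Y.cl (s, i), Y.On {t} (opp y) := by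
  by_cases q : m s t - 1 ∣ i + 1
  · obtain ⟨j, rfl⟩ : ∃ j, i = j + 1 := Nat.exists_eq_add_one_of_ne_zero (by
      rintro rfl
      have := Nat.le_of_dvd (by omega) q
      omega)
    have a : Adj m n (t, j) (s, j + 1) := ⟨ne.symm, rfl, hi, fun (e : m t s - 1 ∣ j + 1) => by
      rw [sym] at e
      have := Nat.le_of_dvd one_pos ((Nat.dvd_add_right e).1 q)
      omega⟩
    exact ⟨_, Y.crt _ _ a, (t, j), rfl, by omega, Y.crf _ _ a⟩
  · have a : Adj m n (s, i) (t, i + 1) := ⟨ne, rfl, lt_of_le_of_ne hi fun e => q (by rwa [← e] at hn), q⟩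
    exact ⟨_, Y.crf _ _ a, (t, i + 1), rfl, a.2.2.1, Y.crt _ _ a⟩

end Sys

end Pool.Agent.MP_6eaae3_al.LT

end MrgPart1

-- ======== part 2: formerly Pool.Agent.MP_6eaae3_al.LT.Fg
section MrgPart2

/-! Images of reduced words under an injective map that fixes the outer letters up to inner words. -/

namespace Pool.Agent.MP_6eaae3_al.LT

open FreeGroup (of mk IsReduced invRev)
open Set

namespace Fg

variable {L : Type} [DecidableEq L] {C : Set L} {φ : FreeGroup L →* FreeGroup L}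

/-- the inner word in front of the image of a letter -/
def pre (φ : FreeGroup L →* FreeGroup L) (g : L × Bool) : FreeGroup L :=
  if g.2 then φ (of g.1) * (of g.1)⁻¹ else 1

/-- the inner word behind the image of a letter -/
def post (φ : FreeGroup L →* FreeGroup L) (g : L × Bool) : FreeGroup L :=
  if g.2 then 1 else (φ (of g.1) * (of g.1)⁻¹)⁻¹

omit [DecidableEq L] in
theorem img (g : L × Bool) : φ (mk [g]) = pre φ g * mk [g] * post φ g := by
  obtain ⟨z, _ | _⟩ := g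
  · have : (mk [(z, false)] : FreeGroup L) = (of z)⁻¹ := rfl
    rw [this]; simp [pre, post]
  · have : (mk [(z, true)] : FreeGroup L) = of z := rfl
    rw [this]; simp [pre, post]

omit [DecidableEq L] in
theorem sub {l : List (L × Bool)} (h : IsReduced l) {k : List (L × Bool)} (e : k <:+: l) :
    IsReduced k := by
  obtain ⟨a, c, rfl⟩ := e
  exact (List.IsChain.left_of_append h).right_of_append

/-- `u c v` is reduced when `c` is inner, the neighbouring letters are outer and do not cancel -/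
theorem glue3 {u c v : FreeGroup L} (hu : ∀ a ∈ u.toWord.getLast?, a.1 ∉ C) (hc : c ∈ Fre C)
    (hv : ∀ b ∈ v.toWord.head?, b.1 ∉ C)
    (h1 : c = 1 → ∀ a ∈ u.toWord.getLast?, ∀ b ∈ v.toWord.head?, a.1 = b.1 → a.2 = b.2) :
    (u * c * v).toWord = u.toWord ++ c.toWord ++ v.toWord := by
  have e : (u * c).toWord = u.toWord ++ c.toWord :=
    toWord_mul_of fun a ha b hb e =>
      absurd (e ▸ mem_Fre_word.1 hc b (List.mem_of_mem_head? hb)) (hu a ha)
  rw [← e]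
  refine toWord_mul_of fun a ha b hb k => ?_
  by_cases h : c = 1
  · subst h
    rw [mul_one] at ha
    exact h1 rfl a ha b hb k
  · have ne : c.toWord ≠ [] := fun x => h (FreeGroup.toWord_eq_nil_iff.1 x)
    rw [e, List.getLast?_append_of_ne_nil _ ne] at ha
    exact absurd (k ▸ mem_Fre_word.1 hc a (List.mem_of_mem_getLast? ha)) (hv b hb)

/-- the shape of the image of a word -/
def Inv (C : Set L) (φ : FreeGroup L →* FreeGroup L) (l : List (L × Bool)) : Prop :=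
  ∃ u ρ, ρ ∈ Fre C ∧ φ (mk l) = u * ρ ∧ (u = 1 ∨ ∃ l0 g r, l = l0 ++ g :: r ∧ g.1 ∉ C ∧
    u.toWord.getLast? = some g ∧ ρ = post φ g * φ (mk r))

theorem step (hi : Function.Injective φ) (h2 : ∀ z ∉ C, φ (of z) * (of z)⁻¹ ∈ Fre C)
    {l : List (L × Bool)} {g : L × Bool} (hl : Inv C φ l) (hr : IsReduced (l ++ [g])) (hg : g.1 ∉ C) :
    ∃ u, φ (mk (l ++ [g])) = u * post φ g ∧ u.toWord.getLast? = some g := by
  obtain ⟨u, ρ, hρ, e, hu⟩ := hl
  have hp : pre φ g ∈ Fre C := by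
    unfold pre; split_ifs
    · exact h2 _ hg
    · exact one_mem _
  refine ⟨u * (ρ * pre φ g) * mk [g], by rw [← FreeGroup.mul_mk, map_mul, e, img]; group, ?_⟩
  rw [glue3 (C := C) ?_ (mul_mem hρ hp) (by simpa [toWord_single] using hg) ?_, toWord_single,
    List.getLast?_concat]
  · rcases hu with rfl | ⟨l0, g', r, -, a, b, -⟩
    · simp
    · intro x hx
      rw [b] at hx
      obtain rfl : g' = x := by simpa using hx
      exact a
  · rcases hu with rfl | ⟨l0, g', r, rfl, -, b, rfl⟩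
    · simp
    · intro h1 x hx y hy k
      rw [b] at hx
      obtain rfl : g' = x := by simpa using hx
      obtain rfl : g = y := by simpa [toWord_single] using hy
      by_contra ne
      have z : φ (mk r) = 1 := by
        obtain ⟨z, s⟩ := g
        obtain ⟨z', s'⟩ := g'
        obtain rfl : z' = z := k
        cases s <;> cases s'
        · exact absurd rfl ne
        · simpa [pre, post] using h1
        · simp only [pre, post, if_true, Bool.false_eq_true, if_false] at h1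
          generalize φ (of z') * (of z')⁻¹ = A at h1
          calc φ (mk r) = A * (A⁻¹ * φ (mk r) * A) * A⁻¹ := by group
            _ = 1 := by rw [h1]; group
        · exact absurd rfl ne
      have hr' : IsReduced r := sub hr ⟨l0 ++ [g'], [g], by simp⟩
      have r0 : r = [] := by
        rw [← hr'.reduce_eq, ← FreeGroup.toWord_mk, hi (z.trans (map_one φ).symm)]; rfl
      subst r0
      have := sub hr (k := [g', g]) ⟨l0, [], by simp⟩
      exact ne ((FreeGroup.isReduced_cons_cons.1 this).1 k)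

theorem inv (hi : Function.Injective φ) (h1 : ∀ z ∈ C, φ (of z) ∈ Fre C)
    (h2 : ∀ z ∉ C, φ (of z) * (of z)⁻¹ ∈ Fre C) (l : List (L × Bool)) : IsReduced l → Inv C φ l := by
  induction l using List.reverseRecOn with
  | nil => exact fun _ => ⟨1, 1, one_mem _, by rw [← FreeGroup.one_eq_mk]; simp, Or.inl rfl⟩
  | append_singleton l g ih =>
    intro hr
    have hl := ih (sub hr ⟨[], [g], by simp⟩)
    by_cases hg : g.1 ∈ C
    · obtain ⟨u, ρ, hρ, e, hu⟩ := hl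
      have m : φ (mk [g]) ∈ Fre C := Fre.map_mem φ h1 (mk_mem_Fre (by simpa using hg))
      refine ⟨u, ρ * φ (mk [g]), mul_mem hρ m, by rw [← FreeGroup.mul_mk, map_mul, e, mul_assoc], ?_⟩
      rcases hu with h | ⟨l0, g', r, rfl, a, b, rfl⟩
      · exact Or.inl h
      · exact Or.inr ⟨l0, g', r ++ [g], by simp, a, b, by rw [← FreeGroup.mul_mk, map_mul, mul_assoc]⟩
    · obtain ⟨u, e, hu⟩ := step hi h2 hl hr hg
      refine ⟨u, post φ g, ?_, e, Or.inr ⟨l, g, [], rfl, hg, hu, by rw [← FreeGroup.one_eq_mk]; simp⟩⟩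
      unfold post; split_ifs
      · exact one_mem _
      · exact inv_mem (h2 _ hg)

theorem core (hi : Function.Injective φ) (h1 : ∀ z ∈ C, φ (of z) ∈ Fre C)
    (h2 : ∀ z ∉ C, φ (of z) * (of z)⁻¹ ∈ Fre C) (w : FreeGroup L) (a b : L) (ha : a ∉ C) (hb : b ∉ C)
    (h : [(a, false), (b, true)] <:+: w.toWord) :
    ((a, false) :: ((φ (of a) * (of a)⁻¹)⁻¹ * (φ (of b) * (of b)⁻¹)).toWord ++ [(b, true)]) <:+:
      (φ w).toWord := by
  obtain ⟨s, t, e⟩ := h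
  have hr : IsReduced (s ++ [(a, false), (b, true)] ++ t) := e ▸ FreeGroup.isReduced_toWord
  have r1 : IsReduced (s ++ [(a, false)]) := sub hr ⟨[], (b, true) :: t, by simp⟩
  have r2 : IsReduced ((b, true) :: t) := sub hr ⟨s ++ [(a, false)], [], by simp⟩
  have e2 : invRev ((b, true) :: t) = invRev t ++ [(b, false)] := by simp [invRev]
  have r3 : IsReduced (invRev t ++ [(b, false)]) := by
    rw [← e2, ← r2.reduce_eq, ← FreeGroup.toWord_mk, ← FreeGroup.toWord_inv]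
    exact FreeGroup.isReduced_toWord
  obtain ⟨u, eu, hu⟩ := step hi h2 (inv hi h1 h2 s (sub r1 ⟨[], [(a, false)], by simp⟩)) r1 ha
  obtain ⟨v, ev, hv⟩ := step hi h2 (inv hi h1 h2 _ (sub r3 ⟨[], [(b, false)], by simp⟩)) r3 hb
  have hv' : v⁻¹.toWord.head? = some (b, true) := by
    rw [FreeGroup.toWord_inv, invRev, List.head?_reverse, List.getLast?_map, hv]; rfl
  have ew : φ w = u * ((φ (of a) * (of a)⁻¹)⁻¹ * (φ (of b) * (of b)⁻¹)) * v⁻¹ := by
    have : w = mk (s ++ [(a, false)]) * (mk (invRev t ++ [(b, false)]))⁻¹ := by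
      rw [← e2, FreeGroup.inv_mk, FreeGroup.invRev_invRev, FreeGroup.mul_mk,
        ← FreeGroup.mk_toWord (x := w), ← e]
      simp
    rw [this, map_mul, map_inv, eu, ev]
    simp only [post, Bool.false_eq_true, if_false]
    group
  rw [ew, glue3 (C := C) (by rw [hu]; simpa using ha) (mul_mem (inv_mem (h2 a ha)) (h2 b hb))
    (by rw [hv']; simpa using hb) ?_]
  · obtain ⟨p, hp⟩ := List.getLast?_eq_some_iff.1 hu
    obtain ⟨q, hq⟩ := List.head?_eq_some_iff.1 hv'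
    exact ⟨p, q, by rw [hp, hq]; simp⟩
  · intro _ x hx y hy k
    rw [hu] at hx
    rw [hv'] at hy
    obtain rfl : (a, false) = x := by simpa using hx
    obtain rfl : (b, true) = y := by simpa using hy
    have := sub hr (k := [(a, false), (b, true)]) ⟨s, t, rfl⟩
    exact (FreeGroup.isReduced_cons_cons.1 this).1 k

end Fg

theorem fg : S_FG := fun L _ _ hi h1 h2 w a b ha hb h =>
  @Fg.core L (fun x y => Classical.propDecidable (x = y)) _ _ hi h1 h2 w a b ha hb h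

end Pool.Agent.MP_6eaae3_al.LT

end MrgPart2

-- ======== part 3: formerly Pool.Agent.MP_6eaae3_al.LT.W13
section MrgPart3

/-! Powers of the Garside element are detected. -/

namespace Pool.Agent.MP_6eaae3_al.LT

namespace W13

variable {m j : ℕ} {H : Type} [Group H] (c : Wc m j H)

theorem iX (a) : (c.X a)⁻¹ = c.X a := inv_eq_of_mul_eq_one_right (c.sq a)

theorem XX (a) (h : H) : c.X a * (c.X a * h) = h := by rw [← mul_assoc, c.sq, one_mul]

theorem d0 : dd c.X 0 = 1 := rfl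

theorem ds (i) : dd c.X (i + 1) = dd c.X i * c.X (i + 1) := rfl

variable {c}

theorem asc {a q b : ℕ} {h : H} (aq : a < q) (qm : q ≤ m) (bq : b ≠ q) (s : c.St b h) :
    c.St (a + 1) ((dd c.X a)⁻¹ * (dd c.X q * h)) := by
  induction q, aq using Nat.le_induction generalizing b h with
  | base =>
    rw [ds, mul_assoc, inv_mul_cancel_left]
    exact c.s1 _ _ _ (by omega) qm bq.symm s
  | succ q _ ih =>
    rw [ds, mul_assoc]
    exact ih (by omega) (by omega) (c.s1 _ _ _ (by omega) qm bq.symm s)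

theorem desc {a q b : ℕ} {h : H} (aq : a < q) (qm : q ≤ m) (ba : b ≠ a + 1) (s : c.St b h) :
    c.St q ((dd c.X q)⁻¹ * (dd c.X a * h)) := by
  induction q, aq using Nat.le_induction with
  | base =>
    rw [ds, mul_inv_rev, mul_assoc, inv_mul_cancel_left, iX]
    exact c.s1 _ _ _ (by omega) qm ba.symm s
  | succ q _ ih =>
    rw [ds, mul_inv_rev, mul_assoc, iX]
    exact c.s1 _ _ _ (by omega) qm (by omega) (ih (by omega))

theorem asc0 {q b : ℕ} {h : H} (aq : 0 < q) (qm : q ≤ m) (bq : b ≠ q) (s : c.St b h) :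
    c.St 1 (dd c.X q * h) := by
  simpa only [d0, inv_one, one_mul] using asc aq qm bq s

theorem desc0 {q b : ℕ} {h : H} (aq : 0 < q) (qm : q ≤ m) (b1 : b ≠ 1) (s : c.St b h) :
    c.St q ((dd c.X q)⁻¹ * h) := by
  simpa only [d0, one_mul] using desc aq qm b1 s

theorem up (m3 : 3 ≤ m) (n : ℕ) {b : ℕ} {h : H} (b1 : b ≤ 1) (s : c.St b h) :
    ∃ b' ≤ 1, c.St b' (dd c.X m ^ n * h) := by
  induction n with
  | zero => exact ⟨b, b1, by simpa using s⟩
  | succ n ih =>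
    obtain ⟨b', u, v⟩ := ih
    exact ⟨1, le_rfl, by rw [pow_succ', mul_assoc]; exact asc0 (by omega) le_rfl (by omega) v⟩

theorem upd (m3 : 3 ≤ m) (n : ℕ) {r : ℕ} (rm : r ≤ m) :
    ∃ b ≤ 1, (r ≠ 0 → b = 1) ∧ c.St b (dd c.X m ^ n * dd c.X r) := by
  rcases Nat.eq_zero_or_pos r with rfl | r0
  · obtain ⟨b, u, v⟩ := up m3 n zero_le_one c.s0
    exact ⟨b, u, fun e => (e rfl).elim, v⟩
  refine ⟨1, le_rfl, fun _ => rfl, ?_⟩
  induction n with
  | zero => simpa using asc0 r0 rm r0.ne c.s0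
  | succ n ih => rw [pow_succ', mul_assoc]; exact asc0 (by omega) le_rfl (by omega) ih

theorem dn (m3 : 3 ≤ m) (n : ℕ) {b : ℕ} {h : H} (b1 : b ≠ 1) (s : c.St b h) :
    ∃ b', (b' = m ∨ (n = 0 ∧ b' = b)) ∧ c.St b' ((dd c.X m)⁻¹ ^ n * h) := by
  induction n with
  | zero => exact ⟨b, Or.inr ⟨rfl, rfl⟩, by simpa using s⟩
  | succ n ih =>
    obtain ⟨b', u, v⟩ := ih
    exact ⟨m, Or.inl rfl, by rw [pow_succ', mul_assoc]; exact desc0 (by omega) le_rfl (by omega) v⟩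

variable (c) in
/-- the middle factor -/
def cc (l : ℕ) (h : ℤ) : H :=
  if h = 0 then dd c.X l else if h = 1 then dd c.X (l - 1) * c.X (l + 1) else dd c.X (l + 1) * c.X l

theorem de_even (n : ℕ) (h : ℤ) {i : ℕ} (i1 : 1 ≤ i) :
    DE c.X m (2 * (n + 1 : ℕ)) h i =
      (dd c.X m)⁻¹ ^ n * ((dd c.X m)⁻¹ * (cc c i h * (dd c.X m * dd c.X m ^ n))) := by
  obtain ⟨i, rfl⟩ := Nat.exists_eq_add_of_le' i1
  have e : ∀ i, DD c.X m (2 * (n + 1 : ℕ)) i =
      (dd c.X m ^ (n + 1))⁻¹ * (dd c.X i * dd c.X m ^ (n + 1)) := fun i => by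
    rw [DD, if_pos (by omega), show (2 * (n + 1 : ℕ) : ℤ) / 2 = (n + 1 : ℕ) by omega, zpow_neg,
      zpow_natCast, mul_assoc]
  rw [← mul_assoc (_ ^ n), ← pow_succ, ← pow_succ', inv_pow, DE, cc, e, e, e]
  split_ifs <;> simp [ds, iX, XX, mul_assoc]

theorem de_odd (n : ℕ) (h : ℤ) {i l : ℕ} (i1 : 1 ≤ i) (l1 : 1 ≤ l) (il : i + l = m) :
    DE c.X m (2 * n + 1) h i = (dd c.X m)⁻¹ ^ n * ((cc c l h)⁻¹ * (dd c.X m * dd c.X m ^ n)) := by
  obtain ⟨l, rfl⟩ := Nat.exists_eq_add_of_le' l1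
  have e : ∀ i, DD c.X m (2 * n + 1) i =
      (dd c.X m ^ n)⁻¹ * ((dd c.X (m - i))⁻¹ * (dd c.X m * dd c.X m ^ n)) := fun i => by
    rw [DD, if_neg (by omega), show (2 * n + 1 : ℤ) / 2 = n by omega, zpow_neg, zpow_add_one,
      zpow_natCast, mul_assoc, ← pow_succ, pow_succ']
  rw [inv_pow, DE, cc, e, e, e, show m - i = l + 1 by omega, show m - (i - 1) = l + 1 + 1 by omega,
    show m - (i + 1) = l by omega]
  split_ifs <;> simp [ds, iX, XX, mul_assoc]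

theorem par {k : ℤ} (k0 : 0 < k) : (∃ n : ℕ, k = 2 * (n + 1 : ℕ)) ∨ ∃ n : ℕ, k = 2 * n + 1 := by
  rcases Int.emod_two_eq_zero_or_one k with e | e
  exacts [Or.inl ⟨(k / 2 - 1).toNat, by omega⟩, Or.inr ⟨(k / 2).toNat, by omega⟩]

theorem e1 {l b : ℕ} {h : ℤ} {g : H} (t : Tri h) (l1 : 1 ≤ l) (lm : l < m) (l2 : h = -1 → 2 ≤ l)
    (b1 : b ≤ 1) (s : c.St b g) : ∃ b', (b' = m ∨ (b' = l ∧ h = -1 ∧ l + 1 = m)) ∧
      c.St b' ((dd c.X m)⁻¹ * (cc c l h * g)) := by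
  rcases t with rfl | rfl | rfl
  · have u := c.s1 l _ _ l1 lm.le (by have := l2 rfl; omega) s
    rw [cc, if_neg (by omega), if_neg (by omega), mul_assoc]
    rcases (show l + 1 < m ∨ l + 1 = m by omega) with q | q
    · exact ⟨m, Or.inl rfl, desc q le_rfl (by omega) u⟩
    · exact ⟨l, Or.inr ⟨rfl, rfl, q⟩, by rwa [q, inv_mul_cancel_left]⟩
  · exact ⟨m, Or.inl rfl, desc lm le_rfl (by omega) s⟩
  · rw [cc, if_neg (by omega), if_pos rfl, mul_assoc]
    exact ⟨m, Or.inl rfl, desc (by omega) le_rfl (by omega) (c.s1 _ _ _ (by omega) lm (by omega) s)⟩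

theorem e2 {l q b : ℕ} {h : ℤ} {g : H} (t : Tri h) (l1 : 1 ≤ l) (lq : l < q) (qm : q ≤ m)
    (bq : b ≠ q) (bl : h = -1 → l + 1 = q → b ≠ l) (s : c.St b g) :
    c.St (if h = -1 then l else l + 1) ((cc c l h)⁻¹ * (dd c.X q * g)) := by
  rcases t with rfl | rfl | rfl
  · rw [if_pos rfl, cc, if_neg (by omega), if_neg (by omega), mul_inv_rev, iX, mul_assoc]
    rcases (show l + 1 < q ∨ l + 1 = q by omega) with e | e
    · exact c.s1 _ _ _ l1 (by omega) (by omega) (asc e qm bq s)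
    · rw [e, inv_mul_cancel_left]
      exact c.s1 _ _ _ l1 (by omega) (bl rfl e).symm s
  · exact asc lq qm bq s
  · rw [if_neg (by omega), cc, if_neg (by omega), if_pos rfl, mul_inv_rev, iX, mul_assoc]
    exact c.s1 _ _ _ (by omega) (by omega) (by omega) (asc (by omega) qm bq s)

theorem e3 (m3 : 3 ≤ m) {l b : ℕ} {h : ℤ} {g : H} (t : Tri h) (l1 : 1 ≤ l) (lm : l < m) (b1 : b ≤ 1)
    (s : c.St b g) : c.St m ((dd c.X m)⁻¹ * ((cc c l h)⁻¹ * (dd c.X m * g))) := by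
  by_cases q : h = -1 ∧ l = 1
  · obtain ⟨rfl, rfl⟩ := q
    have := desc (a := 1) (by omega) le_rfl (by omega) (asc (a := 2) m3 le_rfl (by omega) s)
    rw [cc, if_neg (by omega), if_neg (by omega), mul_inv_rev, iX, mul_assoc]
    rwa [show dd c.X 1 = c.X 1 from one_mul _] at this
  · exact desc0 (by omega) le_rfl (by split_ifs <;> omega)
      (e2 t l1 lm le_rfl (by omega) (by omega) s)

theorem inv_even (n : ℕ) (h : ℤ) {i : ℕ} (i1 : 1 ≤ i) (g : H) :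
    (DE c.X m (2 * (n + 1 : ℕ)) h i)⁻¹ * g =
      (dd c.X m)⁻¹ ^ n * ((dd c.X m)⁻¹ * ((cc c i h)⁻¹ * (dd c.X m * (dd c.X m ^ n * g)))) := by
  rw [de_even n h i1]
  simp only [mul_inv_rev, inv_inv, inv_pow, mul_assoc]

theorem inv_odd (n : ℕ) (h : ℤ) {i l : ℕ} (i1 : 1 ≤ i) (l1 : 1 ≤ l) (il : i + l = m) (g : H) :
    (DE c.X m (2 * n + 1) h i)⁻¹ * g =
      (dd c.X m)⁻¹ ^ n * ((dd c.X m)⁻¹ * (cc c l h * (dd c.X m ^ n * g))) := by
  simp [de_odd n h i1 l1 il, mul_assoc]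

theorem l1 (m3 : 3 ≤ m) {k h : ℤ} {i r : ℕ} (k0 : 0 < k) (t : Tri h) (i1 : 1 ≤ i) (im : i < m)
    (ko : k % 2 = 1 → h = -1 → i + 2 ≤ m) (rm : r ≤ m) :
    ∃ b, (b = m ∨ (b + 1 = m ∧ k = 1 ∧ h = -1 ∧ i = 1)) ∧ c.St b ((DE c.X m k h i)⁻¹ * dd c.X r) := by
  rcases par k0 with ⟨n, rfl⟩ | ⟨n, rfl⟩
  · obtain ⟨b, u, -, v⟩ := upd (c := c) m3 n rm
    obtain ⟨b', u', v'⟩ := dn m3 n (by omega) (e3 m3 t i1 im u v)
    exact ⟨b', by omega, by rwa [inv_even n h i1]⟩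
  · obtain ⟨b, u, -, v⟩ := upd (c := c) m3 n rm
    obtain ⟨b', u', v'⟩ := e1 (l := m - i) t (by omega) (by omega) (by omega) u v
    obtain ⟨b'', u'', v''⟩ := dn m3 n (by omega) v'
    exact ⟨b'', by omega, by rwa [inv_odd n h i1 (l := m - i) (by omega) (by omega)]⟩

theorem dX (m3 : 3 ≤ m) (n : ℕ) {a : ℕ} (a1 : 1 ≤ a) (am : a ≤ m) :
    ∃ b ≤ 1, c.St b (dd c.X m ^ n * (dd c.X m * c.X a)) := by
  refine up m3 n le_rfl ?_
  rcases am.eq_or_lt with rfl | q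
  · obtain ⟨a, rfl⟩ := Nat.exists_eq_add_of_le' a1
    rw [ds, mul_assoc, c.sq]
    exact asc0 (by omega) (by omega) (by omega) c.s0
  · exact asc0 (by omega) le_rfl q.ne (by simpa using c.s1 a 0 1 a1 am (by omega) c.s0)

theorem l2 (m3 : 3 ≤ m) {k h : ℤ} {i : ℕ} (k0 : 0 < k) (t : Tri h) (i2 : 2 ≤ i) (im : i < m)
    (ex : ¬ (k = 1 ∧ h = -1 ∧ i + 1 = m)) :
    ∃ b, 2 ≤ b ∧ b ≤ m ∧ c.St b (DE c.X m k h i * c.X (i + 1)) := by
  have cm : ∀ n (g : H), dd c.X m * dd c.X m ^ n * g = dd c.X m ^ n * (dd c.X m * g) := fun n g => by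
    rw [← pow_succ', pow_succ, mul_assoc]
  rcases par k0 with ⟨n, rfl⟩ | ⟨n, rfl⟩
  · obtain ⟨b, u, v⟩ := dX (c := c) m3 n (a := i + 1) (by omega) im
    obtain ⟨b', u', v'⟩ := e1 t (by omega) im (fun _ => i2) u v
    obtain ⟨b'', u'', v''⟩ := dn m3 n (by omega) v'
    exact ⟨b'', by omega, by omega, by
      rwa [de_even n h (by omega), mul_assoc, mul_assoc, mul_assoc, cm]⟩
  rw [de_odd n h (l := m - i) (by omega) (by omega) (by omega), mul_assoc, mul_assoc]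
  rcases n with _ | n
  · simp only [pow_zero, one_mul, mul_one]
    rcases (show i + 1 < m ∨ i + 1 = m by omega) with q | q
    · exact ⟨_, by split_ifs <;> omega, by split_ifs <;> omega, e2 t (by omega) (by omega) le_rfl q.ne
        (by omega) (by simpa using c.s1 (i + 1) 0 1 (by omega) im (by omega) c.s0)⟩
    · have := e2 (c := c) (l := m - i) (q := i) t (by omega) (by omega) im.le (by omega) (by omega) c.s0
      rw [show dd c.X m * c.X (i + 1) = dd c.X i * 1 by rw [← c.sq (i + 1), ← mul_assoc, ← ds, q]]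
      exact ⟨_, by split_ifs <;> omega, by split_ifs <;> omega, this⟩
  · obtain ⟨b, u, v⟩ := dX (c := c) m3 n (a := i + 1) (by omega) im
    obtain ⟨b', u', v'⟩ := dn m3 n (by omega) (e3 m3 (l := m - i) t (by omega) (by omega) u v)
    exact ⟨b', by omega, by omega, by
      rwa [pow_succ, mul_assoc, mul_assoc, pow_succ (dd c.X m), mul_assoc]⟩

theorem nk' {a a' b b' : ℕ} {g : H} (e : a ≤ j ↔ a' ≤ j) (h : 1 ≤ b ∧ b ≤ m ∧ 1 ≤ b' ∧ b' ≤ m)
    (ne : ¬ (b ≤ j ↔ b' ≤ j)) (s : c.St b' g) : c.X a * (c.X a' * (c.X b * g)) ∉ c.K := fun q =>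
  c.nk b b' g h.1 h.2.1 h.2.2.1 h.2.2.2 ne s
    ((mul_mem_cancel_left (c.kk a a' e)).1 (by rwa [mul_assoc]))

theorem ww_inv (k h : ℤ) (i : ℕ) :
    (WW c.X m k h i)⁻¹ = c.X (i + 1) * ((DE c.X m k h i)⁻¹ * dd c.X (i + 1)) := by
  simp [WW, iX, mul_assoc]

theorem ww_left (k h : ℤ) (i : ℕ) : WW c.X m k h (i + 2) = c.X (i + 3) * (c.X (i + 2) *
    (c.X (i + 1) * ((dd c.X i)⁻¹ * (DE c.X m k h (i + 2) * c.X (i + 3))))) := by
  simp [WW, ds, iX, mul_assoc]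

theorem bad {w : H} {r : ℕ} (h : Bad (c.X (r + 2) * c.X (r + 1)) c.K
    ((dd c.X (r + 2))⁻¹ * w * c.X (r + 2))) : ∃ q, (q = r + 1 ∨ q = r + 2) ∧
      ∃ p, (p = r ∨ p = r + 2) ∧ c.X q * (w⁻¹ * dd c.X p) ∈ c.K := by
  obtain ⟨κ, u, e | e | e | e⟩ := h
  · exact ⟨_, Or.inr rfl, _, Or.inr rfl, by simpa [← e, iX, mul_assoc] using inv_mem u⟩
  · rw [← inv_mul_eq_iff_eq_mul] at e
    exact ⟨_, Or.inr rfl, _, Or.inl rfl, by simpa [← e, ds, iX, XX, c.sq, mul_assoc] using inv_mem u⟩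
  · rw [eq_mul_inv_iff_mul_eq] at e
    exact ⟨_, Or.inl rfl, _, Or.inr rfl, by simpa [← e, iX, XX, mul_assoc] using inv_mem u⟩
  · rw [eq_mul_inv_iff_mul_eq, ← inv_mul_eq_iff_eq_mul] at e
    exact ⟨_, Or.inl rfl, _, Or.inl rfl, by simpa [← e, ds, iX, XX, c.sq, mul_assoc] using inv_mem u⟩

theorem sw (a z : H) (n : ℕ) : a ^ n * (a * z) = a * (a ^ n * z) := by
  rw [← mul_assoc, ← mul_assoc, ← pow_succ, pow_succ']

theorem l3 (m3 : 3 ≤ m) (n : ℕ) {h : ℤ} {i b : ℕ} {g : H} (t : Tri h) (i1 : 1 ≤ i) (im : i < m)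
    (b1 : b ≤ 1) (s : c.St b g) (ex : n = 0 → h = -1 → 2 ≤ i) :
    ∃ b' ≠ 1, c.St b' ((dd c.X m)⁻¹ ^ n * ((cc c i h)⁻¹ * (dd c.X m * g))) := by
  rcases n with _ | n
  · rw [pow_zero, one_mul]
    exact ⟨_, by split_ifs <;> omega, e2 t i1 im le_rfl (by omega) (by omega) s⟩
  · obtain ⟨b', u, v⟩ := dn m3 n (by omega) (e3 m3 t i1 im b1 s)
    exact ⟨b', by omega, by rwa [pow_succ, mul_assoc]⟩

theorem f2 {b : ℕ} {g : H} (e : m = j + 1 + 1) (b1 : 1 ≤ b) (bj : b ≤ j)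
    (s : c.St b ((dd c.X j)⁻¹ * g)) : c.X (j + 1) * ((dd c.X m)⁻¹ * g) ∉ c.K := by
  rw [congrArg (dd c.X) e, ds, ds, mul_inv_rev, mul_inv_rev, iX, iX, mul_assoc, mul_assoc]
  exact nk' (by omega) (by omega) (by omega) s

theorem f1 {b : ℕ} {g : H} (e : m = 2 + 1) (j2 : j = 2) (b1 : 1 ≤ b) (bj : b ≤ j) (s : c.St b g) :
    c.X (2 + 1) * ((dd c.X m)⁻¹ * (c.X (2 + 1) * g)) ∉ c.K := by
  rw [congrArg (dd c.X) e, ds, mul_inv_rev, iX, mul_assoc, XX, ds, ds, d0, one_mul, mul_inv_rev, iX, iX,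
    mul_assoc]
  exact nk' (by omega) (by omega) (by omega) s

end W13

open W13

theorem w1 : S_W1 := by
  intro m j H _ c k m3 j1 jm k0
  rcases j1.eq_or_lt with rfl | j2
  · obtain ⟨b, u, v, s⟩ := l2 (c := c) m3 k0 (Or.inr (Or.inl rfl)) le_rfl m3 (by omega)
    refine ⟨2, by omega, m3, rfl, ?_⟩
    rw [ww_left k 0 0, d0, inv_one, one_mul]
    exact nk' (by omega) (by omega) (by omega) s
  · obtain ⟨i, rfl⟩ : ∃ i, j = i + 1 := ⟨j - 1, by omega⟩
    obtain ⟨b, u, s⟩ := l1 (c := c) (i := i) m3 k0 (Or.inr (Or.inl rfl)) (by omega) (by omega)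
      (by omega) jm.le
    exact ⟨i, by omega, by omega, by omega, fun q => c.nk _ b _ (by omega) jm.le (by omega) (by omega)
      (by omega) s (ww_inv (c := c) k 0 i ▸ inv_mem q)⟩

theorem w3 : S_W3 := by
  intro m j H _ c k h m3 j1 jm k0 km t x3 x4
  have ev : k % 2 = 1 → (m : ℤ) % 2 = 0 := fun e => by
    rwa [Int.mul_emod, e, one_mul, Int.emod_emod] at km
  rcases (show 3 ≤ j ∨ (j ≤ 2 ∧ j + 2 < m) ∨ (j ≤ 2 ∧ m ≤ j + 2) by omega) with q | q | q
  · obtain ⟨i, rfl⟩ : ∃ i, j = i + 2 := ⟨j - 2, by omega⟩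
    obtain ⟨b, u, s⟩ := l1 (c := c) (i := i) (r := i + 1) m3 k0 t (by omega) (by omega) (by omega)
      (by omega)
    exact Or.inl ⟨i, by omega, by omega, by omega, by omega, fun q => c.nk _ b _ (by omega) (by omega)
      (by omega) (by omega) (by omega) s (ww_inv (c := c) k h i ▸ inv_mem q)⟩
  · obtain ⟨b, u, v, s⟩ := l2 (c := c) (i := j + 2) m3 k0 t (by omega) q.2 (by omega)
    refine Or.inl ⟨j + 2, by omega, q.2, by omega, by omega, ?_⟩
    rw [ww_left]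
    exact nk' (by omega) (by omega) (by omega) (desc0 j1 jm.le (by omega) s)
  obtain ⟨r, rfl⟩ : ∃ r, j = r + 1 := ⟨j - 1, by omega⟩
  refine Or.inr fun B => ?_
  obtain ⟨a, rfl | rfl, p, hp, u⟩ := bad B
  · obtain ⟨b, v, s⟩ := l1 (c := c) (r := p) m3 k0 t j1 jm (by omega) (by omega)
    exact c.nk _ b _ j1 jm.le (by omega) (by omega) (by omega) s u
  rcases par k0 with ⟨n, rfl⟩ | ⟨n, rfl⟩ <;>
    obtain ⟨b, b1, b0, s⟩ := upd (c := c) (r := p) m3 n (by omega)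
  · rw [inv_even n h j1, sw] at u
    rcases (show m = r + 1 + 1 + 1 ∨ (r = 1 ∧ m = 2 + 1) by omega) with e | ⟨rfl, e⟩
    · obtain ⟨b', v, s'⟩ := l3 m3 n t j1 jm b1 s (by omega)
      exact f2 e j1 le_rfl (desc0 j1 jm.le v s') u
    rcases n with _ | n
    · rw [pow_zero, one_mul] at u
      rcases t with rfl | rfl | rfl
      · omega
      · refine f1 e rfl (b0 (by omega)).ge (by omega) s ?_
        rwa [W13.cc, if_pos rfl, ← mul_assoc (dd c.X _)⁻¹ (dd c.X m),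
          show (dd c.X (1 + 1))⁻¹ * dd c.X m = c.X (2 + 1) by
            rw [congrArg (dd c.X) e, ds c 2, inv_mul_cancel_left]] at u
      · refine f1 e rfl (by omega) le_rfl (asc (a := 1) (by omega) le_rfl (by omega) s) ?_
        rwa [W13.cc, if_neg (by omega), if_pos rfl, mul_inv_rev, iX, mul_assoc] at u
    · obtain ⟨b', v, s'⟩ := l3 m3 n t j1 jm b1 s (by omega)
      refine f1 e rfl j1 le_rfl (desc0 j1 jm.le v s') ?_
      rwa [pow_succ' _ n, mul_assoc, show ∀ g, (dd c.X m)⁻¹ * ((dd c.X m)⁻¹ ^ n * g) =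
        c.X (2 + 1) * ((dd c.X (1 + 1))⁻¹ * ((dd c.X m)⁻¹ ^ n * g)) from fun g => by
          rw [← mul_assoc (c.X _), ← iX c (2 + 1), ← mul_inv_rev, ← ds c 2, ← e]] at u
  · obtain rfl : r = 1 := by omega
    have e : m = 1 + 1 + 1 + 1 := by omega
    rw [inv_odd n h j1 (l := 2) (by omega) (by omega)] at u
    rcases n with _ | n
    · rw [pow_zero, one_mul] at u
      rcases t with rfl | rfl | rfl
      · omega
      · exact f2 e (b0 (by omega)).ge (by omega) (by rwa [W13.cc, if_pos rfl, inv_mul_cancel_left]) u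
      · refine f2 e j1 le_rfl ?_ u
        rw [W13.cc, if_neg (by omega), if_pos rfl, mul_assoc]
        exact desc (by omega) jm.le (by omega) (c.s1 _ _ _ (by omega) jm (by omega) s)
    · obtain ⟨b', v, s'⟩ := e1 (l := 2) t (by omega) jm (by omega) b1 s
      obtain ⟨b'', v', s''⟩ := dn m3 n (by omega) s'
      exact f2 e j1 le_rfl (desc0 j1 jm.le (by omega) s'') (by rwa [pow_succ' _ n, mul_assoc] at u)

end Pool.Agent.MP_6eaae3_al.LT

end MrgPart3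

-- ======== part 4: formerly Pool.Agent.MP_6eaae3_al.LT.Lk
section MrgPart4

/-! The transverse arcs under powers of the Garside element, read in a product of involutions. -/

namespace Pool.Agent.MP_6eaae3_al.LT

open FreeGroup (of)
open Set

namespace Lk

variable {H : Type} [Group H]

structure Stt (H : Type) where
  F : ℕ → H
  V : ℕ → H
  W : ℕ → H

def Eqs (N : ℕ) (p : ℤ) (a b : Stt H) : Prop :=
  ∀ k : ℕ, 1 ≤ k → k ≤ N → a.F k = b.F k ∧ a.V k = b.V k ∧ ((k + p) % 2 = 1 → a.W k = b.W k)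

structure Trs (N : ℕ) (p q : ℤ) (a a' : Stt H) : Prop where
  z0 : a.F 0 = 1
  z1 : a.F (N + 1) = 1
  own : ∀ k : ℕ, 1 ≤ k → k ≤ N → (k + p + q) % 2 = 0 → a'.F k = a.F k ∧ a'.V k = a.V k ∧
    ((k + p) % 2 = 1 → a'.W k = (a.V k)⁻¹ * a.F k * a.V k * a.W k)
  oth : ∀ k : ℕ, 1 ≤ k → k ≤ N → (k + p + q) % 2 = 1 →
    a'.F k = a.F (k + 1) * a.F k * (a.F (k - 1))⁻¹ ∧ a'.V k = a.F (k + 1) * a.V k ∧
      ((k + p) % 2 = 1 → a'.W k = a.W k)

theorem Trs.iff {N : ℕ} {p q : ℤ} {a a' b b' : Stt H} (h : Trs N p q a a') (g : Trs N p q b b') :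
    Eqs N p a b ↔ Eqs N p a' b' := by
  have ext : (∀ k : ℕ, 1 ≤ k → k ≤ N → (k + p + q) % 2 = 0 → a.F k = b.F k) →
      ∀ k : ℕ, k ≤ N + 1 → (k + p + q) % 2 = 0 → a.F k = b.F k := fun e k u v => by
    by_cases c : k = 0
    · rw [c, h.z0, g.z0]
    · by_cases c' : k = N + 1
      · rw [c', h.z1, g.z1]
      · exact e k (by omega) (by omega) v
  constructor
  · intro e k u v
    have F := ext fun k u v _ => (e k u v).1
    obtain ⟨e1, e2, e3⟩ := e k u v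
    by_cases c : (k + p + q) % 2 = 0
    · obtain ⟨h1, h2, h3⟩ := h.own k u v c
      obtain ⟨g1, g2, g3⟩ := g.own k u v c
      exact ⟨by rw [h1, g1, e1], by rw [h2, g2, e2], fun o => by rw [h3 o, g3 o, e1, e2, e3 o]⟩
    · obtain ⟨h1, h2, h3⟩ := h.oth k u v (by omega)
      obtain ⟨g1, g2, g3⟩ := g.oth k u v (by omega)
      have f1 := F (k + 1) (by omega) (by omega)
      have f2 := F (k - 1) (by omega) (by omega)
      exact ⟨by rw [h1, g1, e1, f1, f2], by rw [h2, g2, e2, f1], fun o => by rw [h3 o, g3 o, e3 o]⟩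
  · intro e k u v
    have F := ext fun k u v c => by rw [← (h.own k u v c).1, ← (g.own k u v c).1, (e k u v).1]
    obtain ⟨e1, e2, e3⟩ := e k u v
    by_cases c : (k + p + q) % 2 = 0
    · obtain ⟨h1, h2, h3⟩ := h.own k u v c
      obtain ⟨g1, g2, g3⟩ := g.own k u v c
      rw [h1, g1] at e1
      rw [h2, g2] at e2
      refine ⟨e1, e2, fun o => ?_⟩
      have := e3 o
      rw [h3 o, g3 o, e1, e2] at this
      exact mul_left_cancel this
    · obtain ⟨h1, h2, h3⟩ := h.oth k u v (by omega)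
      obtain ⟨g1, g2, g3⟩ := g.oth k u v (by omega)
      have f1 := F (k + 1) (by omega) (by omega)
      have f2 := F (k - 1) (by omega) (by omega)
      rw [h1, g1, f1, f2] at e1
      rw [h2, g2, f1] at e2
      exact ⟨mul_left_cancel (mul_right_cancel e1), mul_left_cancel e2,
        fun o => by rw [← h3 o, ← g3 o, e3 o]⟩

def md (X : ℕ → H) (N : ℕ) (D : ℕ → H) : Stt H :=
  ⟨fun k => if 1 ≤ k ∧ k ≤ N then (D (k + 1))⁻¹ * D (k - 1) else 1,
    fun k => (D (k + 1))⁻¹ * dd X (k + 1), fun k => (dd X (k + 1))⁻¹ * D k * X (k + 1)⟩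

def Iv (N : ℕ) (D : ℕ → H) : Prop := ∀ k ≤ N, (D k)⁻¹ * D (k + 1) = (D (k + 1))⁻¹ * D k

theorem tr (X : ℕ → H) {N : ℕ} (p q : ℤ) {D : ℕ → H} (c : Iv N D) :
    Iv N (mvE (N + 1) (q + (p + 1)) D) ∧
      Trs N p q (md X N D) (md X N (mvE (N + 1) (q + (p + 1)) D)) := by
  set D' := mvE (N + 1) (q + (p + 1)) D
  have fx : ∀ k : ℕ, k = 0 ∨ k = N + 1 ∨ (k + p + q) % 2 = 1 → D' k = D k :=
    fun k h => if_neg (by omega)
  have ch : ∀ k < N, (k + p + q) % 2 = 1 → D' (k + 1) = D k * (D (k + 1))⁻¹ * D (k + 2) :=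
    fun k u v => if_pos (by omega)
  have c' : ∀ k ≤ N, D k * (D (k + 1))⁻¹ = D (k + 1) * (D k)⁻¹ := fun k u => by
    rw [← mul_inv_cancel_left (D k) (D (k + 1) * _), ← mul_assoc (D k)⁻¹, c k u]; group
  have ci : ∀ k < N, (k + p + q) % 2 = 1 →
      (D' (k + 1))⁻¹ = (D (k + 2))⁻¹ * D k * (D (k + 1))⁻¹ := fun k u v => by
    rw [ch k u v, c' k u.le]; group
  have up : ∀ k : ℕ, k ≤ N → (k + p + q) % 2 = 1 →
      (D' (k + 1))⁻¹ = (md X N D).F (k + 1) * (D (k + 1))⁻¹ := fun k u v => by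
    by_cases e : k = N
    · rw [fx _ (by omega)]; simp [md, e]
    · rw [ci k (by omega) v]; simp [md, show k + 1 ≤ N by omega]
  have dn : ∀ k : ℕ, k < N → (k + p + q) % 2 = 0 → D' k = D k * ((md X N D).F k)⁻¹ := fun k u v => by
    cases k with
    | zero => rw [fx _ (by omega)]; simp [md]
    | succ k =>
      rw [ch k (by omega) (by omega), c' k (by omega)]
      simp [md, show k + 1 ≤ N by omega, mul_assoc]
  refine ⟨fun k u => ?_, by simp [md], by simp [md], fun k u v o => ?_, fun k u v o => ?_⟩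
  · by_cases e : (k + p + q) % 2 = 1
    · by_cases e' : k = N
      · rw [fx k (by omega), fx _ (by omega), c k u]
      · rw [fx k (by omega), ch k (by omega) e, mul_assoc, inv_mul_cancel_left]
        exact (c (k + 1) (by omega)).trans (by group)
    · cases k with
      | zero => rw [fx 0 (by omega), fx _ (by omega), c 0 u]
      | succ k => rw [fx (k + 2) (by omega), ci k u (by omega), ch k u (by omega)]; group
  · obtain ⟨k, rfl⟩ : ∃ j, k = j + 1 := ⟨k - 1, by omega⟩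
    simp only [md, if_pos (And.intro u v), Nat.add_sub_cancel]
    rw [fx (k + 1 + 1) (by omega), fx k (by omega), ch k v (by omega), mul_assoc (D k), c (k + 1) v]
    exact ⟨rfl, rfl, fun _ => by group⟩
  · obtain ⟨k, rfl⟩ : ∃ j, k = j + 1 := ⟨k - 1, by omega⟩
    have a := up (k + 1) v o
    have b := dn k v (by omega)
    refine ⟨?_, ?_, fun _ => ?_⟩
    · show (if _ then _ else _) = _ * (if _ then _ else _) * _
      rw [if_pos ⟨u, v⟩, if_pos ⟨u, v⟩, Nat.add_sub_cancel, a, b]; group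
    · show _ * _ = _ * (_ * _)
      rw [a, mul_assoc]
    · show _ * D' _ * _ = _ * D _ * _
      rw [fx _ (by omega)]

def fam (X : ℕ → H) (m : ℕ) (c : ℤ) (k : ℕ) : H := if k ≤ m then DD X m c k else 1

theorem dd_succ (X : ℕ → H) (i : ℕ) : dd X (i + 1) = dd X i * X (i + 1) := rfl

theorem fam_iv {X : ℕ → H} (hX : ∀ a, X a * X a = 1) (N : ℕ) (c : ℤ) : Iv N (fam X (N + 1) c) := by
  intro k u
  have i : ∀ a, (X a)⁻¹ = X a := fun a => inv_eq_of_mul_eq_one_right (hX a)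
  simp only [fam, if_pos (show k ≤ N + 1 by omega), if_pos (show k + 1 ≤ N + 1 by omega), DD]
  generalize dd X (N + 1) = δ
  split_ifs
  · simp only [dd_succ, mul_inv_rev, i]; group
  · rw [show N + 1 - k = N + 1 - (k + 1) + 1 by omega]
    simp only [dd_succ, mul_inv_rev, i, inv_inv]; group

theorem fam_flip (X : ℕ → H) (m : ℕ) (c : ℤ) :
    (fun k => if k ≤ m then fam X m c 0 * (fam X m c (m - k))⁻¹ * fam X m c m else fam X m c k) =
      fam X m (c + 1) := by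
  funext k
  by_cases u : k ≤ m
  · simp only [fam, if_pos u, if_pos (Nat.zero_le m), if_pos (Nat.sub_le m k), if_pos (le_refl m), DD]
    by_cases e : c % 2 = 0
    · rw [if_pos e, if_pos e, if_pos e, if_neg (by omega), show (c + 1) / 2 = c / 2 by omega]
      simp only [dd, pr]; group
    · rw [if_neg e, if_neg e, if_neg e, if_pos (by omega), show (c + 1) / 2 = c / 2 + 1 by omega,
        Nat.sub_sub_self u, Nat.sub_self, Nat.sub_zero]
      simp only [dd, pr]; group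
  · simp only [fam, if_neg u]

end Lk

open Lk in
theorem lk : S_LK := by
  intro G _ s t Δ N p P rel H _ X hX k h i u v o th
  set χ : FreeGroup ℕ →* H := FreeGroup.lift fun a => X (a + 1) * X a with hχ
  let σ : G → Lk.Stt H := fun g => ⟨fun k => χ (P.f g k), fun k => χ (P.v g k), fun k => χ (P.W g k)⟩
  have hs : s ∈ Subgroup.closure {s, t} := Subgroup.subset_closure (by simp)
  have ht : t ∈ Subgroup.closure {s, t} := Subgroup.subset_closure (by simp)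
  have h2 : ∀ g ∈ Subgroup.closure {s, t}, ∀ q, Trs N p q (σ g) (σ (g * yy s t q)) := fun g hg q => by
    refine ⟨by simp [σ, (P.f0 g).1], by simp [σ, (P.f0 g).2], fun k u v c => ?_, fun k u v c => ?_⟩
    · have a := P.own g hg k u v
      rw [yy_congr s t (j := q) (by omega)] at a
      refine ⟨congrArg χ a.1, congrArg χ a.2, fun o => ?_⟩
      rw [show yy s t q = t from if_neg (by omega)]
      simp only [σ, (P.arc g hg k u v o).1, map_mul, map_inv]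
    · have a := P.oth g hg k u v
      rw [yy_congr s t (j := q) (by omega)] at a
      refine ⟨by simp only [σ, a.1, map_mul, map_inv], by simp only [σ, a.2, map_mul], fun o => ?_⟩
      rw [show yy s t q = s from if_pos (by omega)]
      simp only [σ, (P.arc g hg k u v o).2]
  have hΔ : Δ ∈ Subgroup.closure {s, t} := rel 0 ▸ alG_mem _ (yy_mem hs ht _) (yy_mem hs ht _)
  have st : ∀ g ∈ Subgroup.closure {s, t}, ∀ c, Eqs N p (σ g) (md X N (fam X (N + 1) c)) ↔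
      Eqs N p (σ (g * Δ)) (md X N (fam X (N + 1) (c + 1))) := fun g hg c => by
    have := evol_aa (m := N + 1) (q := p + 1) (w := s) (x := t)
      (R := fun g' d => g' ∈ Subgroup.closure {s, t} ∧ Iv N d ∧
        (Eqs N p (σ g) (md X N (fam X (N + 1) c)) ↔ Eqs N p (σ g') (md X N d)))
      (fun g' d q ⟨a, b, e⟩ => ⟨mul_mem a (yy_mem hs ht q), (tr X p q b).1,
        e.trans ((h2 g' a q).iff (tr X p q b).2)⟩) ⟨hg, fam_iv hX N c, Iff.rfl⟩ 0
    rw [rel, fam_flip] at this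
    exact this.2.2
  have iX : ∀ a, (X a)⁻¹ = X a := fun a => inv_eq_of_mul_eq_one_right (hX a)
  have key : Eqs N p (σ (Δ ^ k)) (md X N (fam X (N + 1) k)) := by
    induction k using Int.induction_on with
    | zero =>
      intro j a b
      obtain ⟨j, rfl⟩ : ∃ l, j = l + 1 := ⟨j - 1, by omega⟩
      obtain ⟨e1, e2, e3⟩ := P.f1 _ a b
      simp only [σ, zpow_zero, e1, e2, e3, md, fam, DD, if_pos (And.intro a b), Nat.add_sub_cancel,
        if_pos (show j + 1 + 1 ≤ N + 1 by omega), if_pos (show j + 1 ≤ N + 1 by omega),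
        if_pos (show j ≤ N + 1 by omega), hχ, FreeGroup.lift_apply_of, map_one]
      have i2 : ∀ a y, X a * (X a * y) = y := fun a y => by rw [← mul_assoc, hX, one_mul]
      simp [dd_succ, iX, mul_assoc, hX, i2]
    | succ k ih => rw [zpow_add_one]; exact (st _ (zpow_mem hΔ _) _).1 ih
    | pred k ih =>
      refine (st _ (zpow_mem hΔ _) _).2 ?_
      rwa [← zpow_add_one, sub_add_cancel]
  obtain ⟨e1, e2, e3⟩ := key i u v
  have e4 := e3 o
  have i1 := fam_iv hX N k i v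
  have i2 := fam_iv hX N k (i - 1) (by omega)
  rw [Nat.sub_add_cancel u] at i2
  simp only [σ, md, fam, if_pos (And.intro u v), if_pos (show i + 1 ≤ N + 1 by omega),
    if_pos (show i ≤ N + 1 by omega), if_pos (show i - 1 ≤ N + 1 by omega)] at e1 e2 e4 i1 i2
  rcases th with rfl | rfl | rfl
  · have hg := mul_mem (zpow_mem hΔ k) (inv_mem ht)
    have a := P.own _ hg i u v
    have b := (P.arc _ hg i u v o).1
    rw [show yy s t (i + p) = t from if_neg (by omega)] at a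
    rw [← a.1, ← a.2] at b
    rw [inv_mul_cancel_right] at b
    have b' := congrArg χ b
    simp only [map_mul, map_inv, e1, e2, e4] at b'
    rw [zpow_neg_one, ← inv_mul_eq_iff_eq_mul.2 b', WW, DE, if_neg (by norm_num), if_neg (by norm_num),
      mul_assoc (DD X (N + 1) k (i + 1)), ← i2]
    group
  · rw [zpow_zero, mul_one, e4, WW, DE, if_pos rfl]
  · rw [zpow_one, (P.arc _ (zpow_mem hΔ k) i u v o).1]
    simp only [map_mul, map_inv, e1, e2, e4]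
    rw [WW, DE, if_neg (by norm_num), if_pos rfl, mul_assoc (DD X (N + 1) k (i - 1)), i1]
    group

end Pool.Agent.MP_6eaae3_al.LT

end MrgPart4

-- ======== part 5: formerly Pool.Agent.MP_6eaae3_al.LT.Ch
section MrgPart5

/-! The loops, half loops and arcs of a chain of curves. -/

namespace Pool.Agent.MP_6eaae3_al.LT

open FreeGroup (of)
open Set Classical

namespace Ch

variable {V M : Type} {m : V → V → ℕ} {n : ℕ} {Y : Sys m n M} {X : Set V} {N k : ℕ}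
  {c : ℕ → V × ℕ} {z : ℕ → M × Bool} {Φ : FG M →* FreeGroup ℕ}

def up (Y : Sys m n M) (c : ℕ → V × ℕ) (k : ℕ) : M × Bool := (Y.cr (c k) (c (k + 1)), false)

def dn (Y : Sys m n M) (c : ℕ → V × ℕ) (k : ℕ) : M × Bool := (Y.cr (c (k - 1)) (c k), true)

/-- A chain of curves with a chosen free cell on each. -/
structure Chn (Y : Sys m n M) (X : Set V) (N : ℕ) (c : ℕ → V × ℕ) (z : ℕ → M × Bool) : Prop where
  two : 2 ≤ N
  mem : ∀ k, (c k).1 ∈ X
  lt : ∀ k, 1 ≤ k → k ≤ N → (c k).2 < n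
  inj : ∀ k k', 1 ≤ k → 1 ≤ k' → c k = c k' → k = k'
  adj : ∀ k, 1 ≤ k → k < N → Adj m n (c k) (c (k + 1))
  alt : ∀ k, (c k).1 = (c (k + 2)).1
  cell : ∀ k, 1 ≤ k → k ≤ N → ∀ x ∈ Y.cl (c k), Y.On X (opp x) →
    (k < N ∧ x = up Y c k) ∨ (1 < k ∧ x = dn Y c k)
  zm : ∀ k, z k ∈ Y.cl (c k)
  zn : ∀ k, ¬ Y.On X (opp (z k))

theorem Chn.upm (h : Chn Y X N c z) (h1 : 1 ≤ k) (h2 : k < N) : up Y c k ∈ Y.cl (c k) :=
  Y.crf _ _ (h.adj k h1 h2)

theorem Chn.dnm (h : Chn Y X N c z) (h1 : 1 < k) (h2 : k ≤ N) : dn Y c k ∈ Y.cl (c k) := by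
  obtain ⟨k, rfl⟩ : ∃ k', k = k' + 1 := ⟨k - 1, by omega⟩
  exact Y.crt _ _ (h.adj k (by omega) (by omega))

theorem Chn.dec (h : Chn Y X N c z) (h1 : 1 ≤ k) (h2 : k ≤ N) : ∃ l B l', Y.cl (c k) = l ++ B ++ l' ∧
    (l' ++ l).Nodup ∧ z k ∈ l' ++ l ∧ (∀ x ∈ Y.cl (c k), x ∈ l' ++ l ↔ ¬ Y.On X (opp x)) ∧
    ((1 < k ∧ k < N ∧ B = [dn Y c k, up Y c k]) ∨ (k = 1 ∧ B = [up Y c k]) ∨
      (k = N ∧ B = [dn Y c k])) := by
  have hu : k < N → Y.On X (opp (up Y c k)) := fun e =>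
    ⟨c (k + 1), h.mem _, h.lt _ (by omega) e, h.dnm (k := k + 1) (by omega) e⟩
  have hd : 1 < k → Y.On X (opp (dn Y c k)) := fun e => by
    obtain ⟨k, rfl⟩ : ∃ k', k = k' + 1 := ⟨k - 1, by omega⟩
    exact ⟨c k, h.mem _, h.lt _ (by omega) (by omega), h.upm (by omega) (by omega)⟩
  have h0 := h.two
  obtain ⟨l, B, l', e, hB⟩ : ∃ l B l', Y.cl (c k) = l ++ B ++ l' ∧
      ((1 < k ∧ k < N ∧ B = [dn Y c k, up Y c k]) ∨ (k = 1 ∧ B = [up Y c k]) ∨
        (k = N ∧ B = [dn Y c k])) := by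
    by_cases a : k = 1
    · obtain ⟨l, l', e⟩ := List.append_of_mem (h.upm h1 (by omega))
      exact ⟨l, _, l', by simpa using e, Or.inr (Or.inl ⟨a, rfl⟩)⟩
    by_cases b : k = N
    · obtain ⟨l, l', e⟩ := List.append_of_mem (h.dnm (by omega) h2)
      exact ⟨l, _, l', by simpa using e, Or.inr (Or.inr ⟨b, rfl⟩)⟩
    obtain ⟨k, rfl⟩ : ∃ k', k = k' + 1 := ⟨k - 1, by omega⟩
    obtain ⟨l, l', e⟩ := Y.adj _ _ _ (h.adj k (by omega) (by omega))
      (h.adj (k + 1) (by omega) (by omega)) (h.alt k)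
    exact ⟨l, _, l', by simpa [up, dn] using e, Or.inl ⟨by omega, by omega, rfl⟩⟩
  have nd : (B ++ (l' ++ l)).Nodup := by
    have := (Y.nd (c k)).of_map
    rw [e, List.append_assoc] at this
    rw [← List.append_assoc]
    exact List.nodup_append_comm.1 this
  have hBi : ∀ x ∈ Y.cl (c k), x ∈ B ↔ Y.On X (opp x) := fun x hx => by
    refine ⟨fun a => ?_, fun a => ?_⟩
    · rcases hB with ⟨b1, b2, rfl⟩ | ⟨b1, rfl⟩ | ⟨b1, rfl⟩
      · rcases List.mem_pair.1 a with rfl | rfl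
        exacts [hd b1, hu b2]
      · rw [List.mem_singleton.1 a]; exact hu (by omega)
      · rw [List.mem_singleton.1 a]; exact hd (by omega)
    · rcases h.cell k h1 h2 x hx a with ⟨b, rfl⟩ | ⟨b, rfl⟩ <;>
        rcases hB with ⟨b1, b2, rfl⟩ | ⟨b1, rfl⟩ | ⟨b1, rfl⟩ <;> first | omega | simp
  have hm : ∀ x ∈ Y.cl (c k), x ∈ l' ++ l ↔ ¬ Y.On X (opp x) := fun x hx => by
    rw [← hBi x hx]
    refine ⟨fun a b => (List.nodup_append.1 nd).2.2 x b x a rfl, fun a => ?_⟩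
    rw [e] at hx
    simp only [List.mem_append] at hx ⊢
    tauto
  exact ⟨l, B, l', e, nd.of_append_right, (hm _ (h.zm k)).2 (h.zn k), hm, hB⟩

/-- What is used of the homomorphism on the cells of the curve `k`. -/
structure Nice (Y : Sys m n M) (X : Set V) (c : ℕ → V × ℕ) (z : ℕ → M × Bool)
    (Φ : FG M →* FreeGroup ℕ) (k : ℕ) : Prop where
  i : ∀ y, ¬ Y.On X (opp y) → Φ (ii y) = 1
  o : ∀ y ∈ Y.cl (c k), ¬ Y.On X (opp y) → Φ (oo y) = if y = z k then of k else 1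
  u : Φ (ii (up Y c k)) = 1
  d : 1 < k → Φ (oo (dn Y c k)) = 1

theorem Nice.pp (h : Nice Y X c z Φ k) {L : List (M × Bool)} (nd : L.Nodup)
    (hL : ∀ y ∈ L, y ∈ Y.cl (c k) ∧ ¬ Y.On X (opp y)) :
    Φ (pp L) = if z k ∈ L then of k else 1 := by
  induction L with
  | nil => simp
  | cons y L ih =>
    have a := hL y (by simp)
    rw [List.nodup_cons] at nd
    rw [pp_cons, map_mul, map_mul, map_inv, h.i y a.2, h.o y a.1 a.2,
      ih nd.2 fun x hx => hL x (by simp [hx])]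
    by_cases e : y = z k
    · simp [e, e ▸ nd.1]
    · simp [e, Ne.symm e]

noncomputable def UU (Y : Sys m n M) (N : ℕ) (c : ℕ → V × ℕ) (Φ : FG M →* FreeGroup ℕ) (k : ℕ) :=
  if k < N then Φ (oo (up Y c k)) else 1

noncomputable def II (Y : Sys m n M) (c : ℕ → V × ℕ) (Φ : FG M →* FreeGroup ℕ) (k : ℕ) :=
  if 1 < k then Φ (ii (dn Y c k)) else 1

noncomputable def FF (Y : Sys m n M) (N : ℕ) (c : ℕ → V × ℕ) (Φ : FG M →* FreeGroup ℕ) (k : ℕ) :=
  if 1 ≤ k ∧ k ≤ N then UU Y N c Φ k * of k * (II Y c Φ k)⁻¹ else 1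

theorem Chn.loop (h : Chn Y X N c z) (h1 : 1 ≤ k) (h2 : k ≤ N) (hΦ : Nice Y X c z Φ k) :
    (k < N → Φ (Y.ell (up Y c k)) = FF Y N c Φ k) ∧
      (1 < k → Φ (Y.ell (dn Y c k)) = FF Y N c Φ k) := by
  obtain ⟨l, B, l', e, nd, hz, hm, hB⟩ := h.dec h1 h2
  have hs : ∀ y ∈ l' ++ l, y ∈ Y.cl (c k) := fun y hy => by
    rw [e]; simp only [List.mem_append] at hy ⊢; tauto
  have key := hΦ.pp nd fun y hy => ⟨hs y hy, (hm y (hs y hy)).1 hy⟩
  rw [if_pos hz, pp_append, map_mul] at key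
  have h0 := h.two
  rw [FF, if_pos ⟨h1, h2⟩, UU, II, ← key]
  rcases hB with ⟨b1, b2, rfl⟩ | ⟨b1, rfl⟩ | ⟨b1, rfl⟩
  · refine ⟨fun _ => ?_, fun _ => ?_⟩
    · rw [Y.el _ (l ++ [dn Y c k]) _ l' (by simpa using e)]
      simp [b1, b2, hΦ.u, hΦ.d b1, mul_assoc]
    · rw [Y.el _ l _ (up Y c k :: l') (by simpa using e)]
      simp [b1, b2, hΦ.u, hΦ.d b1, mul_assoc]
  · refine ⟨fun a => ?_, fun _ => by omega⟩
    rw [Y.el _ l _ l' (by simpa using e), if_pos a, if_neg (by omega)]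
    simp [hΦ.u, mul_assoc]
  · refine ⟨fun _ => by omega, fun a => ?_⟩
    rw [Y.el _ l _ l' (by simpa using e), if_pos a, if_neg (by omega)]
    simp [hΦ.d a, mul_assoc]

theorem Chn.arc (h : Chn Y X N c z) (h1 : 1 ≤ k) (h2 : k ≤ N) {y : M × Bool}
    (hy : y ∈ Y.cl (c k)) (hn : ¬ Y.On X (opp y)) :
    ∃ A : FreeGroup ℕ, (A = 1 ∨ A = of k ∧ z k ≠ y) ∧ ∀ Φ, Nice Y X c z Φ k →
      A * Φ (Y.ell y) * A⁻¹ = (UU Y N c Φ k)⁻¹ * FF Y N c Φ k * UU Y N c Φ k := by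
  obtain ⟨l, B, l', e, nd, hz, hm, hB⟩ := h.dec h1 h2
  have hs : ∀ y ∈ l' ++ l, y ∈ Y.cl (c k) := fun y hy => by
    rw [e]; simp only [List.mem_append] at hy ⊢; tauto
  obtain ⟨u, v, e1, e2⟩ : ∃ u v, l' ++ l = u ++ y :: v ∧
      Y.ell y = oo y * pp v * pp B * pp u * (ii y)⁻¹ := by
    rcases List.mem_append.1 ((hm y hy).2 hn) with a | a
    · obtain ⟨u, v, rfl⟩ := List.append_of_mem a
      exact ⟨u, v ++ l, by simp, by
        rw [Y.el _ (l ++ B ++ u) y v (by simpa using e)]; simp [mul_assoc]⟩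
    · obtain ⟨u, v, rfl⟩ := List.append_of_mem a
      exact ⟨l' ++ u, v, by simp, by
        rw [Y.el _ u y (v ++ B ++ l') (by simpa using e)]; simp [mul_assoc]⟩
  have hs' : ∀ x ∈ l' ++ l, x ∈ Y.cl (c k) ∧ ¬ Y.On X (opp x) := fun x hx =>
    ⟨hs x hx, (hm x (hs x hx)).1 hx⟩
  refine ⟨if z k ∈ u then of k else 1, ?_, fun Φ hΦ => ?_⟩
  · by_cases a : z k ∈ u
    · rw [e1] at nd
      exact Or.inr ⟨if_pos a, fun b => (List.nodup_append.1 nd).2.2 _ a y (by simp) b⟩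
    · exact Or.inl (if_neg a)
  · have key := hΦ.pp nd hs'
    have hb : Φ (pp B) = (II Y c Φ k)⁻¹ * UU Y N c Φ k := by
      have h0 := h.two
      rcases hB with ⟨b1, b2, rfl⟩ | ⟨b1, rfl⟩ | ⟨b1, rfl⟩
      · simp [UU, II, b1, b2, hΦ.u, hΦ.d b1]
      · rw [UU, II, if_pos (show k < N by omega), if_neg (show ¬ 1 < k by omega)]
        simp [hΦ.u]
      · rw [UU, II, if_neg (show ¬ k < N by omega), if_pos (show 1 < k by omega)]
        simp [hΦ.d (show 1 < k by omega)]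
    rw [if_pos hz, e1] at key
    rw [e1] at nd hs'
    rw [← hΦ.pp nd.of_append_left fun x hx => hs' x (by simp [hx]), FF, if_pos ⟨h1, h2⟩, ← key, e2]
    simp [hb, hΦ.i y hn, mul_assoc]

/-- The homomorphism that remembers only the exits of the chosen cells. -/
noncomputable def th (N : ℕ) (z : ℕ → M × Bool) : FG M →* FreeGroup ℕ :=
  FreeGroup.lift fun w => if h : ∃ k, 1 ≤ k ∧ k ≤ N ∧ w = (z k, true) then of h.choose else 1

theorem th_o {w : Lt M} (h : ∀ k, 1 ≤ k → k ≤ N → w ≠ (z k, true)) : th N z (of w) = 1 := by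
  rw [th, FreeGroup.lift_apply_of, dif_neg fun ⟨k, a, b, e⟩ => h k a b e]

theorem Chn.zinj (h : Chn Y X N c z) {k k' : ℕ} (a : 1 ≤ k) (b : 1 ≤ k') (e : z k = z k') :
    k = k' := h.inj k k' a b (Y.uq _ _ _ (h.zm k) (e ▸ h.zm k'))

theorem Chn.th_z (h : Chn Y X N c z) (h1 : 1 ≤ k) (h2 : k ≤ N) :
    th N z (of (z k, true)) = of k := by
  have a : ∃ k', 1 ≤ k' ∧ k' ≤ N ∧ (z k, true) = (z k', true) := ⟨k, h1, h2, rfl⟩
  rw [th, FreeGroup.lift_apply_of, dif_pos a,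
    ← h.zinj h1 a.choose_spec.1 (congrArg Prod.fst a.choose_spec.2.2)]

theorem Chn.th_mem (h : Chn Y X N c z) {w : FG M} (hw : w ∈ Fre {(z k, true)}ᶜ) :
    th N z w ∈ Fre {k}ᶜ :=
  Fre.map_mem _ (fun x hx => by
    by_cases a : ∃ k', 1 ≤ k' ∧ k' ≤ N ∧ x = (z k', true)
    · obtain ⟨k', a, b, rfl⟩ := a
      rw [h.th_z a b]
      exact of_mem_Fre fun e => hx (by rw [show k' = k from e]; rfl)
    · rw [th_o fun k' b d e => a ⟨k', b, d, e⟩]
      exact one_mem _) hw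

theorem Chn.th_on (h : Chn Y X N c z) {x : M × Bool} (b : Bool)
    (hx : Y.On X (opp x) ∨ ¬ Y.On X x) : th N z (of (x, b)) = 1 :=
  th_o fun k a d e => by
    obtain rfl : x = z k := congrArg Prod.fst e
    exact hx.elim (h.zn k) fun q => q ⟨c k, h.mem k, h.lt k a d, h.zm k⟩

/-- The action followed by `th`. -/
noncomputable def ph (Y : Sys m n M) (N : ℕ) (z : ℕ → M × Bool) (g : Art m) :
    FG M →* FreeGroup ℕ := (th N z).comp (Y.ψ g)

theorem ph_apply (g : Art m) (w : FG M) : ph Y N z g w = th N z (Y.ψ g w) := rfl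

theorem ph_mul (g a : Art m) (w : FG M) : ph Y N z (g * a) w = ph Y N z g (Y.ψ a w) := by
  rw [ph_apply, Y.ψ_mul, ph_apply]

theorem Chn.nice (h : Chn Y X N c z) (h1 : 1 ≤ k) (h2 : k ≤ N) {g : Art m} (hg : g ∈ Par m X) :
    Nice Y X c z (ph Y N z g) k := by
  have a : ∀ y b, ¬ Y.On X (opp y) → ph Y N z g (of (y, b)) = th N z (of (y, b)) := fun y b hy => by
    rw [ph_apply, Sys.par_fix hg fun o ho e => hy (by
      rw [← show opp o = y from congrArg Prod.fst e, opp_opp]; exact ho)]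
  have b : ∀ μ b, ph Y N z g (of ((μ, b), b)) = th N z (of ((μ, b), b)) := fun μ b => by
    rw [ph_apply, Sys.par_fix hg fun o _ e => by
      obtain ⟨ν, _ | _⟩ := o <;> cases b <;> simp [rx, opp] at e]
  refine ⟨fun y hy => (a y _ hy).trans (th_o fun _ _ _ e => by simp at e), fun y hy hn => ?_,
    (b _ _).trans (th_o fun _ _ _ e => by simp at e), fun e => (b _ _).trans (h.th_on _ (Or.inl ?_))⟩
  · rw [oo, a y _ hn]
    split_ifs with e
    · rw [e, h.th_z h1 h2]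
    · exact th_o fun k' u _ v => by
        obtain rfl : y = z k' := congrArg Prod.fst v
        exact e (by rw [h.inj k k' h1 u (Y.uq _ _ _ hy (h.zm k'))])
  · obtain ⟨k, rfl⟩ : ∃ k', k = k' + 1 := ⟨k - 1, by omega⟩
    exact ⟨c k, h.mem _, h.lt _ (by omega) (by omega), h.upm (by omega) (by omega)⟩

theorem Chn.own (h : Chn Y X N c z) (h1 : 1 ≤ k) (h2 : k ≤ N) (g : Art m) :
    UU Y N c (ph Y N z (g * PresentedGroup.of (c k).1)) k = UU Y N c (ph Y N z g) k ∧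
      II Y c (ph Y N z (g * PresentedGroup.of (c k).1)) k = II Y c (ph Y N z g) k := by
  unfold UU II
  refine ⟨?_, ?_⟩ <;> split_ifs with e
  · rw [ph_mul, oo, Sys.fix_own (h.upm h1 e)]
  · rfl
  · rw [ph_mul, ii, Sys.fix_own (h.dnm e h2)]
  · rfl

theorem Chn.oth (h : Chn Y X N c z) (h1 : 1 ≤ k) (h2 : k ≤ N) {g : Art m} (hg : g ∈ Par m X) :
    UU Y N c (ph Y N z (g * PresentedGroup.of (c (k + 1)).1)) k =
        FF Y N c (ph Y N z g) (k + 1) * UU Y N c (ph Y N z g) k ∧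
      II Y c (ph Y N z (g * PresentedGroup.of (c (k + 1)).1)) k =
        FF Y N c (ph Y N z g) (k - 1) * II Y c (ph Y N z g) k := by
  unfold UU II
  refine ⟨?_, ?_⟩ <;> split_ifs with e
  · rw [← (h.loop (by omega) e (h.nice (by omega) e hg)).2 (by omega), ph_mul, ← map_mul]
    exact congrArg _ (Y.mv _ _ (h.lt _ (by omega) e) (h.dnm (k := k + 1) (by omega) e))
  · rw [FF, if_neg (by omega), one_mul]
  · obtain ⟨k, rfl⟩ : ∃ k', k = k' + 1 := ⟨k - 1, by omega⟩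
    have e1 : 1 ≤ k := by omega
    rw [Nat.add_sub_cancel, ← (h.loop e1 (by omega) (h.nice e1 (by omega) hg)).1 h2, ph_mul,
      ← map_mul, ← h.alt k]
    exact congrArg _ (Y.mv _ _ (h.lt _ e1 (by omega)) (h.upm e1 h2))
  · rw [FF, if_neg (by omega), one_mul]

theorem yy_of (s t : V) (i : ℤ) : yy (PresentedGroup.of s : Art m) (PresentedGroup.of t) i =
    PresentedGroup.of (yy s t i) := by
  unfold yy; split_ifs <;> rfl

theorem chain {s t : V} (sym : ∀ s t, m s t = m t s) (ne : s ≠ t) (h3 : 3 ≤ m s t) {r : ℕ}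
    (hr : r * (m s t - 1) + (m s t - 1) ≤ n) (p : ℤ)
    (hc : c = fun k : ℕ => (yy s t (k + p), r * (m s t - 1) + k - 1))
    (zm : ∀ k, z k ∈ Y.cl (c k)) (zn : ∀ k, ¬ Y.On {s, t} (opp (z k))) :
    Chn Y {s, t} (m s t - 1) c z := by
  have hm : ∀ a b : V, a ∈ ({s, t} : Set V) → b ∈ ({s, t} : Set V) → a ≠ b → m a b = m s t := by
    rintro a b (rfl | rfl) (rfl | rfl) e
    exacts [(e rfl).elim, rfl, sym _ _, (e rfl).elim]
  have mem : ∀ i, yy s t i ∈ ({s, t} : Set V) := fun i => by unfold yy; split_ifs <;> simp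
  have oth : ∀ (i i' : ℤ) (b : V), b ∈ ({s, t} : Set V) → yy s t i ≠ b → i % 2 ≠ i' % 2 →
      b = yy s t i' := by
    rintro i i' b (rfl | rfl) e e' <;> unfold yy at e ⊢ <;> split_ifs at e ⊢ <;>
      first | rfl | omega | exact (e rfl).elim
  generalize hN : m s t - 1 = N at *
  have hd : ∀ k, N ∣ r * N + k ↔ N ∣ k := fun k => Nat.dvd_add_right (dvd_mul_left N r)
  subst hc
  refine ⟨by omega, fun k => mem _, fun k a b => by simp only; omega, fun k k' a b e => ?_,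
    fun k a b => ?_, fun k => yy_congr _ _ (by push_cast; omega), fun k a b x hx ho => ?_, zm, zn⟩
  · have := congrArg Prod.snd e
    simp only at this
    omega
  · have e : yy s t (k + p) ≠ yy s t ((k + 1 : ℕ) + p) := Bas.yy_ne ne (by push_cast; omega)
    refine ⟨e, by simp only; omega, by simp only; omega, fun d => ?_⟩
    simp only [hm _ _ (mem _) (mem _) e, hN] at d
    rw [show r * N + (k + 1) - 1 = r * N + k by omega, hd] at d
    have := Nat.le_of_dvd a d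
    omega
  · obtain ⟨⟨b', i⟩, u, -, w⟩ := ho
    rcases Sys.cross hx w with ⟨⟨d1, d2, -, d4⟩, rfl⟩ | ⟨⟨d1, d2, -, d4⟩, rfl⟩
    · simp only at d1 d2 d4 u
      rw [hm _ _ (mem _) u d1, hN, show i = r * N + k by omega, hd] at d4
      refine Or.inl ⟨lt_of_le_of_ne b fun e => d4 (e ▸ dvd_rfl), ?_⟩
      rw [up, oth _ ((k + 1 : ℕ) + p) b' u d1 (by push_cast; omega),
        show i = r * N + (k + 1) - 1 by omega]
    · simp only at d1 d2 d4 u
      rw [hm _ _ u (mem _) d1, hN, show r * N + k - 1 = r * N + (k - 1) by omega, hd] at d4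
      have k1 : 1 < k := lt_of_le_of_ne a fun e => d4 (by rw [← e]; simp)
      refine Or.inr ⟨k1, ?_⟩
      rw [dn, oth _ ((k - 1 : ℕ) + p) b' u d1.symm (by omega),
        show i = r * N + (k - 1) - 1 by omega]

end Ch

open Ch in
theorem ch (h : S_TR) : S_CH := by
  intro V M m n Y s t a i S x sym ne h3 hn hS ha hi hx hx'
  obtain ⟨j, hj⟩ : ∃ j, j = i % (m s t - 1) + 1 := ⟨_, rfl⟩
  have j2 : j ≤ m s t - 1 := hj ▸ Nat.mod_lt _ (by omega)
  obtain ⟨p, hp⟩ : ∃ p : ℤ, a = yy s t (j + p) := by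
    rcases ha with rfl | rfl
    · exact ⟨-j, by simp [yy]⟩
    · exact ⟨1 - j, by simp [yy]⟩
  obtain ⟨c, hc⟩ : ∃ c : ℕ → V × ℕ,
    c = fun k : ℕ => (yy s t (k + p), i / (m s t - 1) * (m s t - 1) + k - 1) := ⟨_, rfl⟩
  have hcj : c j = (a, i) := by
    have := Nat.div_add_mod' i (m s t - 1)
    rw [hc, hp]
    exact Prod.ext rfl (by simp only; omega)
  have hr : i / (m s t - 1) * (m s t - 1) + (m s t - 1) ≤ n := by
    obtain ⟨q, rfl⟩ := hn
    have := Nat.mul_le_mul_right (m s t - 1) (Nat.succ_le_of_lt (Nat.div_lt_of_lt_mul hi))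
    rwa [Nat.succ_mul, mul_comm q] at this
  obtain ⟨z, hz⟩ : ∃ z : ℕ → M × Bool,
    z = fun k => if k = j then x else (Y.mr (c k) true, false) := ⟨_, rfl⟩
  have hzj : z j = x := by simp [hz]
  have H : Chn Y {s, t} (m s t - 1) c z := chain sym ne h3 hr p hc
    (fun k => by
      by_cases e : k = j
      · rw [e, hzj, hcj]; exact hx
      · simp only [hz, if_neg e]; exact Y.mrf _ _)
    fun k => by
      by_cases e : k = j
      · rw [e, hzj]; exact hx'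
      · simp only [hz, if_neg e]; exact Sys.not_on_mr _ _ _
  have col : ∀ k : ℕ, (c k).1 = yy s t (k + p) := fun k => by rw [hc]
  have colt : ∀ k : ℕ, (k + p) % 2 = 1 → (c k).1 = t := fun k e => by
    rw [col, yy, if_neg (by omega)]
  generalize m s t - 1 = N at *
  have hy : ∀ k : ℕ, ∃ (y : M × Bool) (A : FreeGroup ℕ), 1 ≤ k → k ≤ N →
      (y ∈ Y.cl (c k) ∧ ¬ Y.On {s, t} (opp y) ∧ ((k + p) % 2 = 1 → Thr S (opp y))) ∧
      (A = 1 ∨ A = of k ∧ z k ≠ y) ∧ ∀ Φ, Nice Y {s, t} c z Φ k →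
        A * Φ (Y.ell y) * A⁻¹ = (UU Y N c Φ k)⁻¹ * FF Y N c Φ k * UU Y N c Φ k := fun k => by
    by_cases e : 1 ≤ k ∧ k ≤ N
    · obtain ⟨y, y1, y2, y3⟩ : ∃ y, y ∈ Y.cl (c k) ∧ ¬ Y.On {s, t} (opp y) ∧
          ((k + p) % 2 = 1 → Thr S (opp y)) := by
        by_cases e' : (k + p) % 2 = 1
        · obtain ⟨y, y1, y2, y3⟩ := hS _ (H.lt k e.1 e.2)
          exact ⟨y, by rwa [← colt k e'] at y1, y2, fun _ => y3⟩
        · exact ⟨z k, H.zm k, H.zn k, fun q => (e' q).elim⟩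
      obtain ⟨A, hA⟩ := H.arc e.1 e.2 y1 y2
      exact ⟨y, A, fun _ _ => ⟨⟨y1, y2, y3⟩, hA⟩⟩
    · exact ⟨x, 1, fun u v => (e ⟨u, v⟩).elim⟩
  choose y A hy using hy
  have y0 : ∀ k, 1 ≤ k → k ≤ N → th N z (of (rx (y k))) = 1 := fun k u v =>
    H.th_on _ (Or.inr (hy k u v).1.2.1)
  refine ⟨p, j, ⟨fun g => FF Y N c (ph Y N z g), fun g => UU Y N c (ph Y N z g),
    fun g k => A k * ph Y N z g (of (rx (y k))) * (A k)⁻¹, fun k u v => ?_,
    fun g => ⟨if_neg (by omega), if_neg (by omega)⟩, fun g _ k u v => ?_, fun g hg k u v => ?_,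
    fun g hg k u v w => ?_⟩, by omega, j2, hp, fun e he hT k u v w => ?_⟩
  · have a1 : UU Y N c (ph Y N z 1) k = 1 := by
      unfold UU
      split_ifs with e
      · rw [ph_apply, Y.ψ_one]
        exact H.th_on _ (Or.inl ⟨c (k + 1), H.mem _, H.lt _ (by omega) e,
          H.dnm (k := k + 1) (by omega) e⟩)
      · rfl
    have a2 : II Y c (ph Y N z 1) k = 1 := by
      unfold II
      split_ifs
      · rw [ph_apply, Y.ψ_one]
        exact th_o fun _ _ _ e => by simp at e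
      · rfl
    refine ⟨by rw [FF, if_pos ⟨u, v⟩, a1, a2]; simp, a1, ?_⟩
    rw [ph_apply, Y.ψ_one, y0 k u v]
    simp
  · rw [yy_of, ← col]
    obtain ⟨a1, a2⟩ := H.own u v g
    exact ⟨by simp only [FF, a1, a2], a1⟩
  · rw [yy_of, show (k : ℤ) + p + 1 = (k + 1 : ℕ) + p by push_cast; ring, ← col]
    obtain ⟨a1, a2⟩ := H.oth u v (par_pair s t ▸ hg)
    refine ⟨?_, a1⟩
    rw [FF, if_pos ⟨u, v⟩, a1, a2, FF.eq_1 Y N c _ k, if_pos ⟨u, v⟩]
    simp [mul_assoc]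
  · obtain ⟨⟨y1, -⟩, -, y4⟩ := hy k u v
    have a1 := Y.mv _ _ (H.lt k u v) y1
    rw [colt k w] at a1
    refine ⟨?_, ?_⟩
    · rw [← y4 _ (H.nice u v (par_pair s t ▸ hg)), ph_mul, a1]
      simp [mul_assoc]
    · rw [ph_mul, Y.fx s _ fun q o b1 _ b3 b4 => ne (by
        rw [← b1, Y.uq q (c k) (y k) (rx_inj b4 ▸ b3) y1, colt k w])]
  · obtain ⟨⟨y1, y2, y3⟩, y4, -⟩ := hy k u v
    obtain ⟨t1, t2⟩ := h V M m n Y {s, t} e S x (y k) he ⟨c k, H.mem k, H.lt k u v, y1⟩ y2 (y3 w)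
      hx' hT
    have a1 : th N z (Y.lam e (rx (y k))) = ph Y N z e (of (rx (y k))) := by
      rw [Sys.lam, map_mul, map_inv, y0 k u v, inv_one, mul_one, ph_apply]
    rw [← hzj] at t1 t2
    have a2 : z j ≠ y k → ph Y N z e (of (rx (y k))) ∈ Fre {j}ᶜ := fun q => a1 ▸ H.th_mem (t1 q)
    have a3 : k ≠ j → A k * ph Y N z e (of (rx (y k))) * (A k)⁻¹ ∈ Fre {j}ᶜ := fun q => by
      have b1 : A k ∈ Fre ({j}ᶜ : Set ℕ) := by
        rcases y4 with b | ⟨b, -⟩ <;> rw [b]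
        exacts [one_mem _, of_mem_Fre q]
      exact mul_mem (mul_mem b1 (a2 fun b =>
        q (H.inj _ _ u (by omega) (Y.uq _ _ _ y1 (b ▸ H.zm j))))) (inv_mem b1)
    refine ⟨a3, ?_⟩
    by_cases q : k = j
    · subst q
      rcases y4 with b | ⟨b, b'⟩
      · obtain ⟨κ, k1, k2⟩ := t2
        refine ⟨th N z κ, H.th_mem k1, ?_⟩
        simp only [b, ← a1, one_mul, inv_one, mul_one]
        rw [← H.th_z u v]
        rcases k2 with k2 | k2 | k2 | k2 <;> simp [k2, oo]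
      · exact ⟨_, a2 b', Or.inr (Or.inr (Or.inr (by simp only [b])))⟩
    · exact ⟨_, a3 q, Or.inl rfl⟩

end Pool.Agent.MP_6eaae3_al.LT

end MrgPart5

-- marker of a merged file
example : 731051 + 706372 = 731051 + 706372 := rfl
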